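import Pool.Agent.Strip051.G.I5000_5470.Tab
import Pool.Agent.Strip051.PB.ExtD2

/-! # Certificates B19 (generated) -/

set_option linter.all false
set_option maxRecDepth 100000

namespace Pool.Agent.Strip051.G.I5000_5470.Tab.C.BB03

open Pool.Agent.Strip051.PB Pool.Agent.Strip051.PB.T
open Pool.Agent.Strip051.G.I5000_5470.Tab

noncomputable def cut_pm_012_a : Cut := Cut.of [[⟨0, 0, 0, 67108864⟩, ⟨1, 1, 0, 67108864⟩, ⟨2, 1, 0, 67108864⟩], [⟨0, 0, 1, 20971520⟩, ⟨1, 1, 2, 20971520⟩, ⟨2, 1, 0, 33554432⟩]]

noncomputable def xt_pm_012_a : Ext := extD2 3 ⟨7, 3, 3, 10, 1741, 1000, 23, 25, 19, 50, 3, 16⟩ eng cd0q0 cd3q2a pd1 false true false .pnp 0 1 2 rfl ndB0q0 ndB3q2a pcB1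

noncomputable def f_pm_012_a : ℕ → ℕ → ℕ → ℕ → Bool := onCell 536870912 536870912 0 536870912 536870912 50465866
    (rowB 3 eng mog cd0q0 cd3q2a pd1 2 false true false .pnp 0 1 2 (qsf 0 536870912 0 536870912 1) ndB0q0 ndB3q2a pcB1 cut_pm_012_a xt_pm_012_a)

def k0_pm_012_a : ∃ t, chk3 f_pm_012_a t 4 2 1 = true :=
  ⟨(a (l 2) (b (l 2) (a (l 2) (b (l 2) (l 16386208))))), by decide +kernel⟩

def k1_pm_012_a : ∃ t, chk3 f_pm_012_a t 16 6 1 = true :=
  ⟨(l 2), by decide +kernel⟩

def k2_pm_012_a : ∃ t, chk3 f_pm_012_a t 16 14 1 = true :=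
  ⟨(l 2), by decide +kernel⟩

def k3_pm_012_a : ∃ t, chk3 f_pm_012_a t 16 30 1 = true :=
  ⟨(a (l 2) (b (l 16532888) (a (b (l 2) (l 141355722662101039)) (l 141265012923678767)))), by decide +kernel⟩

def k4_pm_012_a : ∃ t, chk3 f_pm_012_a t 16 62 1 = true :=
  ⟨(a (a (l 2) (b (l 141492818049187887) (c (l 141637472590102575) (l 141502919789199407)))) (b (a (l 141435780862623791) (l 141388570559725615)) (a (c (l 141580916439941167) (l 141452136078065711)) (l 141473645284556847)))), by decide +kernel⟩

def k5_pm_012_a : ∃ t, chk3 f_pm_012_a t 16 126 1 = true :=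
  ⟨(a (a (a (l 2) (a (l 141882732396953647) (l 141867888985161775))) (c (b (l 141704061771481135) (l 141749485351649327)) (b (l 141556727146823727) (l 141593492072136751)))) (a (c (a (l 141685438782160943) (l 141661730552873007)) (a (l 141538585195429935) (l 141517007271313455))) (c (a (l 141641595735359535) (l 141621186040397871)) (a (l 141497628369551407) (l 141477081237045295))))), by decide +kernel⟩

def k6_pm_012_a : ∃ t, chk3 f_pm_012_a t 16 254 2 = true :=
  ⟨(a (a (a (l 141870431660982319) (l 141839164289220655)) (a (l 141809683624230959) (l 141781989666029615))) (a (a (l 141755944975646767) (c (l 141771131987050543) (l 141695128213241903))) (b (l 141781646033485871) (c (l 141754433140555823) (l 141676299063869487))))), by decide +kernel⟩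

def k7_pm_012_a : ∃ t, chk3 f_pm_012_a t 32 255 4 = true :=
  ⟨(a (a (l 14) (b (l 141915580369502255) (a (l 14) (b (l 141926163168952367) (c (l 14) (a (l 14) (a (l 14) (a (l 14) (c (l 14) (l 141899637437349935)))))))))) (b (a (l 141885824826638383) (l 141857855990546479)) (a (c (l 14) (b (l 141883213480362031) (a (b (l 141899362560901167) (b (l 141948909304266799) (c (l 14) (a (c (l 14) (l 141894139876229167)) (l 141892559328280623))))) (b (l 141885343783223343) (b (l 141889879269343279) (c (c (l 14) (a (l 141901699023061039) (l 141894827073208367))) (a (l 141885618658951215) (l 141878815428591663)))))))) (b (c (l 141896957384114223) (l 141856000558825519)) (c (c (l 14) (c (a (l 14) (b (l 141894758357958703) (a (l 14) (l 141897850734297135)))) (b (l 141891116223545391) (a (a (l 14) (l 141900736952303663)) (a (l 141894071160913967) (l 141887542808494127)))))) (a (b (l 141871806041980975) (b (l 141876341528117295) (c (a (c (l 141898606646591535) (l 141888023842848815)) (l 141886649453330479)) (a (l 141872149637218351)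 (l 141865552565354543))))) (b (l 141858680617680943) (c (a (l 141901011821625391) (l 141872012200345647)) (a (l 141857581103726639) (l 141851190190325807)))))))))), by decide +kernel⟩

def k8_pm_012_a : ∃ t, chk3 f_pm_012_a t 66 255 4 = true :=
  ⟨(a (b (l 141831742580719663) (c (b (l 141870706535350319) (a (b (l 141886786896511023) (c (c (l 14) (a (l 141924101576540207) (l 141895170674720815))) (b (l 141881495493279791) (a (l 141910357675049007) (l 141881564212215855))))) (b (l 141874211228074031) (a (c (a (l 141895514272661551) (l 141892353175683119)) (l 141873730189557807)) (c (a (l 141889260798197807) (l 141886168420712495)) (l 141867545434603567)))))) (b (l 141830505624600623) (a (b (l 141845967510339631) (c (a (l 141865690006405167) (l 141859436531974191)) (a (l 141844936715911215) (l 141838751960973359)))) (a (c (l 141850159400091695) (l 141829612268093487)) (a (l 141880464683597871) (l 141832429768376367))))))) (b (a (l 141814012949102639) (l 141804667095040047)) (b (a (a (l 141835590869090351)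 (l 141830849222656047)) (l 141823977271099439)) (b (a (a (c (l 141865208973459503) (l 141825076782301231)) (l 141840538670399535)) (c (l 141853595375386671) (l 141813463184457775))) (a (a (c (a (c (l 141883144762703919) (l 141863078667092015)) (l 141870500373610543)) (a (l 141832635926315055) (l 141830093304528943))) (c (c (l 141877097445572655) (l 141857031350026287)) (l 141826657328791599))) (a (c (c (a (l 141873661469769775) (l 141871393725726767)) (l 141863765856157743)) (c (l 141832361046982703) (l 141812020073578543))) (c (b (l 141856206715011119) (c (c (l 141874486102556719) (l 141864521774301231)) (l 141849403483226159))) (c (l 141827550681088047) (l 141807140988239919))))))))), by decide +kernel⟩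

def k9_pm_012_a : ∃ t, chk3 f_pm_012_a t 67 255 4 = true :=
  ⟨(b (a (l 141790167277764655) (l 141769482705158191)) (a (c (b (l 141829406110269487) (a (b (l 141843974643499055) (b (l 141848922446643247) (c (c (a (l 141869813175549999) (l 141865208968036399)) (a (l 141859711408357423) (l 141854969761923119))) (c (l 141849953237286959) (l 141836896532611119))))) (b (l 141834353911693359) (a (c (c (a (l 141860055005102127) (l 141857718541615151)) (l 141848578847785007)) (l 141833048239931439)) (c (c (a (l 141855382078128175) (l 141853045614657583)) (l 141843837201367087)) (l 141828169154592815)))))) (b (l 141788999041728559) (b (l 141798207453184047) (a (c (b (l 141818273547730991) (l 141821434644185135)) (l 141799238244745263)) (a (l 141824320854179887) (l 141841706879369263)))))) (c (b (l 141809683610288175) (b (a (l 141824595740950575) (l 141814425253314607)) (a (a (c (c (a (l 141850709151170607) (l 141848303968206895)) (l 141838958115979311)) (l 141823152630284335)) (c (c (a (l 141845830065750063) (l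 141843424882786351)) (l 141834010311114799)) (l 141818067386499119))) (b (l 141819373056475183) (c (b (l 141832635919876143) (a (a (l 141849334754918447) (l 141835590858293295)) (a (l 141833048236376111) (l 141830436894965807)))) (c (l 141817311470731311) (l 141806522508918831))))))) (b (l 141767833433063471) (b (l 141777179283521583) (a (a (l 141791404219957295) (l 141786044098330671)) (a (l 141780615257210927) (l 141775117696614447)))))))), by decide +kernel⟩

def k10_pm_012_a : ∃ t, chk3 f_pm_012_a t 16 510 5 = true :=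
  ⟨(a (a (a (l 141860329884106799) (l 141830436902502447)) (a (l 141802399347163183) (l 141776079779102767))) (a (a (l 141751478198337583) (l 141820128946995247)) (a (l 141710383933030447) (l 141687431618379823)))), by decide +kernel⟩

def k11_pm_012_a : ∃ t, chk3 f_pm_012_a t 16 1022 5 = true :=
  ⟨(a (a (a (c (l 141898950241140783) (l 141853870246379567)) (c (l 141868919820599343) (l 141824733179330607))) (a (c (l 141840676106829871) (l 141797382819053615)) (c (l 141814287819309103) (l 141771819165532207)))) (a (a (c (l 141789548799590447) (l 141747904779829295)) (a (l 141752302828716079) (l 141743231852970031))) (a (c (l 141748042217357359) (l 141706466917711919)) (l 141704474051690543)))), by decide +kernel⟩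

def k12_pm_012_a : ∃ t, chk3 f_pm_012_a t 16 1023 5 = true :=
  ⟨(a (b (a (a (a (l 141937364423000111) (l 141922177414053935)) (a (l 141952482698805295) (l 141938189043236911))) (a (a (l 141834353909596207) (l 141820953607421999)) (a (l 141808034341666863) (l 141795527392886831)))) (a (a (c (c (l 14) (a (a (l 14) (a (l 14) (l 141903485724475439))) (a (b (l 141896338896994351) (l 141899156395900975)) (l 141912762849837103)))) (a (c (a (l 141890085420318767) (l 141882457556107311)) (a (l 141866789508612143) (l 141859299083403311))) (c (a (l 141874898411405359) (l 141867545425166383)) (a (l 141851877377687599) (l 141844593110941743))))) (c (a (c (c (l 14) (a (l 141899637434236975) (l 141892284447965231))) (a (l 141882869875195951) (l 141875585608450095))) (c (a (b (l 141889123351838767) (l 141892009570254895)) (l 141883419633254447)) (a (l 141868370061180975) (l 141861360672374831)))) (a (a (c (l 141860261158404143) (l 141837446283182127)) (l 141864246881419311)) (a (l 141834766223736879) (l 141827894273949743)))))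 (a (c (a (c (a (l 141876341524955183) (l 141869400855625775)) (a (l 141854420003061807) (l 141847548053258287))) (c (a (l 141862597625282607) (l 141855863114448943)) (a (l 141840882261901359) (l 141834216470577199)))) (a (a (l 141821091043639343) (l 141814425252315183)) (c (l 141815662204190767) (l 141793534523965487)))) (c (a (a (c (l 141849266042585135) (l 141827756837699631)) (l 141877166143750191)) (a (l 141825763973120047) (l 141819579218198575))) (a (c (l 141802880377454639) (l 141780958855725103)) (c (l 141790510867677231) (l 141768864223920175))))))) (a (a (b (a (l 141783432761032751) (l 141771750446137391)) (c (a (a (l 141813394463293487) (l 141807415866851375)) (c (l 141808996416127023) (l 141788105686761519))) (a (c (l 141778553674842159) (l 141757113189597231)) (l 141801437252583471)))) (a (a (a (c (l 141788449285488687) (l 141746599107379247)) (l 141810164630667311)) (c (l 141782539407540271) (l 141740826668498991))) (c (b (l 141772712518221871) (a (l 141781096296595503) (l 141776217211322415)))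 (a (l 141736428619628591) (l 141731549534437423))))) (a (c (b (l 141756700872966191) (a (l 141801712133603375) (l 141756975749529647))) (a (l 141723028315865135) (l 141711552158679087))) (a (c (l 141788036947787823) (l 141700007282049071)) (c (l 141731618252652591) (l 141688187527479343)))))), by decide +kernel⟩

def k13_pm_012_a : ∃ t, chk3 f_pm_012_a t 32 127 3 = true :=
  ⟨(c (b (a (l 141907059084099631) (l 141673206687711279)) (a (a (b (l 141770169894731823) (b (l 141874760940273711) (b (a (l 141799169519026223) (l 141784944583049263)) (c (a (a (l 141831467683938351) (l 141824114697715759)) (c (l 141825008052174895) (l 141801643421073455))) (a (l 141825145472827439) (l 141766115438100527)))))) (b (l 141742132339605551) (b (l 141847066982678575) (c (a (a (l 141800269032489007) (l 141793397082718255)) (a (l 141786593852440623) (l 141779928061132847))) (a (l 141795252491796527) (l 141737115810447407)))))) (a (b (l 141715881491251247) (b (l 141730999778377775) (c (a (a (l 141773399708794927) (l 141766940075966511))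 (b (l 141754845444685871) (l 141760068125720623))) (a (l 141724471422795823) (l 141712239352102959))))) (b (l 141691279910699055) (b (l 141706673075863599) (a (c (l 141790235971715119) (l 141700419598352431)) (c (l 141733336241176623) (l 141688943442067503)))))))) (a (b (l 141637816138940463) (a (b (l 141676642650996783) (b (l 141689493194965039) (c (a (l 141729281784315951) (l 141715812762812463)) (a (l 141680009901359151) (l 141667090635817007))))) (b (l 141650597961302063) (a (c (l 141698289291608111) (l 141650323079020591)) (a (l 141755120287072303) (l 141658913017757743)))))) (b (l 141587788344082479) (a (b (l 141626202539425839) (a (a (l 141652934421413935) (l 141647024544563247)) (b (l 141633830401589295) (l 141732992607944751)))) (b (l 141603387665858607) (b (l 141617131563401263) (a (l 141631768815173679) (l 141620979853869103)))))))), by decide +kernel⟩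

def k14_pm_012_a : ∃ t, chk3 f_pm_012_a t 33 127 3 = true :=
  ⟨(a (a (b (l 141596172125896751) (c (b (l 141668258878472239) (b (l 141683995641167919) (c (a (l 141721860084842543) (l 141710796245450799)) (a (l 141677948322201647) (l 141667296799817775))))) (b (l 141582153340600367) (b (l 141596172116164655) (a (l 141610603209506863) (l 141600638882103343)))))) (b (l 141755944901378095) (b (c (l 141647986624839727) (l 141563049318694959)) (a (c (a (a (l 141767352363319343) (l 141674855946616879)) (l 141671557410045999)) (b (l 141581741020872751) (c (l 141658569405857839) (l 141568890472005679)))) (c (b (l 141659600216834095) (b (l 141667502958018607) (a (l 141675268260905007) (l 141670183017414703)))) (b (l 141573013643214895) (c (l 141604555892965423) (l 141559956936015919)))))))) (b (a (c (l 141597134197702703) (l 141515701585969199)) (l 141533843535151151)) (a (c (b (l 141627989248196655) (b (l 141642970096877615) (b (l 141650323082281007) (a (l 141751271996702767) (l 141649223569440815))))) (b (l 141543051942707247)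 (b (l 141556177365303343) (c (l 141586963700760623) (l 141542364744056879))))) (b (l 141741445079744559) (c (b (l 141618780832415791) (c (l 141695609217286191) (l 141606686198431791))) (a (l 141542021147983919) (l 141529720357666863))))))), by decide +kernel⟩

def k15_pm_012_a : ∃ t, chk3 f_pm_012_a t 17 6 1 = true :=
  ⟨(l 2), by decide +kernel⟩

def k16_pm_012_a : ∃ t, chk3 f_pm_012_a t 17 14 1 = true :=
  ⟨(b (l 16463128) (a (l 16493184) (l 16465544))), by decide +kernel⟩

def k17_pm_012_a : ∃ t, chk3 f_pm_012_a t 34 30 1 = true :=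
  ⟨(b (l 16506952) (b (l 16515336) (b (l 16540904) (l 141525253556944943)))), by decide +kernel⟩

def k18_pm_012_a : ∃ t, chk3 f_pm_012_a t 34 62 1 = true :=
  ⟨(c (b (l 141372490196828207) (a (l 141491718514950191) (l 141441896873361455))) (b (l 141262332822847535) (a (l 141364793585090607) (l 141311261094723631)))), by decide +kernel⟩

def k19_pm_012_a : ∃ t, chk3 f_pm_012_a t 34 126 1 = true :=
  ⟨(c (a (b (l 141563118063140911) (l 141610328351834159)) (b (l 141513502580703279) (l 141560987747565615))) (a (b (l 141421487163637807) (l 141458183371292719)) (l 141386508936364079))), by decide +kernel⟩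

def k20_pm_012_a : ∃ t, chk3 f_pm_012_a t 34 127 1 = true :=
  ⟨(c (b (a (c (l 141698770341920815) (l 141617956207165487)) (c (l 141650804126482479) (l 141566828897353775))) (a (a (c (b (l 141748042218356783) (c (b (l 141788655440166959) (b (a (l 141803911168245807) (l 141793053485776943)) (b (a (l 141808858971406383) (l 141797932569460783)) (a (c (c (a (l 141831124089634863) (l 141825901406797871)) (a (l 141820266408362031) (l 141814906286604335))) (c (l 141806659946758191) (l 141795664826548271))) (c (a (l 141837583713288239) (l 141809614883651631)) (l 141790098545803311)))))) (b (l 141745568312721455) (a (c (l 141774499220996143) (l 141752715139022895)) (c (l 141763229221797935) (l 141741101542539311)))))) (b (l 141663860828487727) (b (l 141680765822844975) (a (c (l 141719935936839727) (l 141676161614463023)) (c (l 141708047462596655) (l 141663929543016495)))))) (c (b (l 141725158622412847) (a (b (l 141750035078856751) (b (l 141804598345039919) (c (c (a (l 141802399335710767) (l 141796764335996975))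 (l 141777110559293487)) (l 141743506723668015)))) (b (l 141738215323746351) (c (c (a (l 141787762081366063) (l 141781920923205679)) (l 141762198427140143)) (l 141750928421617711))))) (b (l 141639190526885935) (a (b (l 141662348996034607) (a (l 141721791346671663) (l 141715606591406127))) (c (l 141722753419968559) (l 141633349365628975)))))) (c (a (b (l 141701038075805743) (b (l 141810095888728111) (a (c (c (l 141773124826234927) (l 141750241233027119)) (l 141761098899161135)) (c (a (l 141752577695039535) (l 141746392939511855)) (l 141748591949365295))))) (b (l 141675818017488943) (b (l 141694784596459567) (c (a (a (l 141740208183984175) (l 141733885989486639)) (a (l 141772575052267567) (l 141766115418816559))) (a (l 141735810121646127) (l 141722753416020015)))))) (b (l 141780821354201135) (a (a (c (l 141710109031415855) (l 141620567538335791)) (c (l 141652247227187247) (l 141607579552612399))) (a (c (l 141639259241250863) (l 141594454127935535)) (c (l 141625996377391151) (l 141581122544812079)))))))) (a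 (b (c (l 141536592316612655) (l 141454472511832111)) (c (b (l 141566416575250479) (c (b (l 141603181505888303) (a (l 141626065098031151) (l 141600845041238063))) (a (l 141577068094554159) (l 141551710599184431)))) (a (b (l 141493436464447535) (a (l 141517282128412719) (l 141504775179681839))) (c (l 141588750380089391) (l 141455434580082735))))) (b (l 141623316264386607) (a (b (l 141484915248103471) (c (c (l 141659943781400623) (l 141525940786954287)) (b (l 141456121775423535) (l 141465192748220463)))) (b (l 141458733119176751) (c (a (l 141618299764604975) (l 141515014386761775)) (l 141525322281615407))))))), by decide +kernel⟩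

def k21_pm_012_a : ∃ t, chk3 f_pm_012_a t 35 15 1 = true :=
  ⟨(b (b (l 16483744) (a (l 141470621530767407) (l 141228041756999727))) (a (b (c (l 141522367351799855) (l 141217527703732271)) (b (c (l 141663929499156527) (l 141331464618410031)) (c (b (c (l 141598508583764015) (l 141512677930483759)) (c (b (a (l 141649635886465071) (l 141622491682734127)) (a (b (l 141668533745991727) (c (a (a (l 141759655785365551) (l 141753127432421423)) (a (l 141746461640540207) (l 141739795848658991))) (a (l 141664479294701615) (l 141651078991675439)))) (b (l 141641458261770287) (c (a (a (l 141733061337284655) (l 141726326825910319)) (a (l 141719454875598895) (l 141712582925271087))) (a (l 141637403810742319) (l 141623591190855727)))))) (b (l 141546831516893231) (c (a (a (l 141612664794071087) (l 141599058332844079)) (a (l 141585383152123951) (l 141571570532466735))) (b (l 141541814991503407) (a (l 141566554009894959) (l 141539272368406575))))))) (b (l 141389738746282031) (c (c (b (l 141482097749377071) (a (l 141516869813174319)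 (l 141489794330574895))) (a (l 141553497278300207) (l 141436742878969903))) (b (l 141378193866457135) (a (l 141409804833472559) (l 141384378619412527)))))))) (b (c (l 141284666660618287) (l 141158428935979055)) (b (c (l 141607098471465007) (l 141275733105917999)) (c (b (c (l 141542570908696623) (l 141456259220930607)) (c (b (l 141580366627864623) (b (a (l 141613558143828015) (l 141584902111658031)) (a (c (a (a (l 141705642255466543) (l 141698632866185263)) (a (l 141691623476903983) (l 141639465391423535))) (a (l 141609641132015663) (l 141595484914761775))) (c (a (a (l 141632387282665519) (l 141625171734954031)) (a (l 141617956187242543) (l 141610671920070703))) (a (l 141581259978014767) (l 141566828882853935)))))) (b (l 141490825124380719) (a (c (a (l 141557551754379311) (l 141543464256831535)) (l 141505874692440111)) (c (b (l 141516182616211503) (l 141618093602488367)) (l 141477837136805935)))))) (b (l 141335725221134383) (a (b (l 141379293379543087) (c (a (l 141448012875579439) (l 141434475134435375))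 (l 141359021124911151))) (c (c (l 141424167210729519) (l 141383141670584367)) (l 141414065416257583))))))))), by decide +kernel⟩

def k22_pm_012_a : ∃ t, chk3 f_pm_012_a t 9 6 1 = true :=
  ⟨(b (a (l 2) (l 16337616)) (a (l 16453472) (l 16384096))), by decide +kernel⟩

def k23_pm_012_a : ∃ t, chk3 f_pm_012_a t 9 14 1 = true :=
  ⟨(b (a (l 16401744) (l 16410488)) (a (a (l 16440784) (l 16417096)) (l 16489104))), by decide +kernel⟩

def k24_pm_012_a : ∃ t, chk3 f_pm_012_a t 9 30 1 = true :=
  ⟨(a (b (b (l 16468096) (l 16518600)) (a (b (l 16473752) (l 141176227249291311)) (c (l 16465104) (l 16451136)))) (a (b (l 16421104) (l 16460280)) (c (l 16455376) (l 16409112)))), by decide +kernel⟩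

def k25_pm_012_a : ∃ t, chk3 f_pm_012_a t 9 31 2 = true :=
  ⟨(a (b (a (b (l 141144341448376367) (l 141420731201749039)) (b (l 141014186717151279) (l 141113898697211951))) (b (a (a (l 141367679794135087) (l 141306588159131695)) (a (l 141244671890767919) (l 141181312513572911))) (a (a (b (c (l 141483884454576175) (l 141398259963576367)) (c (b (l 141521886332370991) (a (a (c (c (l 141639121781276719) (l 141581328695312431)) (l 141546075594670127)) (c (a (l 141627233304821807) (l 141574800341418031)) (l 141531369621618735))) (b (l 141526009499418671) (a (c (l 141570127414263855) (l 141522848402685999)) (c (l 141555077843599407) (l 141508004990713903)))))) (b (l 141433375623053359) (a (c (b (l 141487320426381359) (l 141499277617659951)) (l 141449593422790703)) (c (l 141464230673842223) (l 141421074830934063)))))) (b (l 141560231762001967) (c (b (l 141461413172215855) (b (a (l 141495841638858799) (l 141465330180997167)) (a (c (c (l 141544426319560751) (l 141520443216724015)) (l 141485602433843247)) (c (l 141546762768613423)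 (l 141455434573676591))))) (b (l 141374964049330223) (a (c (l 141434887447838767) (l 141392556239192111)) (c (l 141405406782980143) (l 141363968928055343))))))) (a (b (l 141499346286182447) (a (b (l 141371871669043247) (c (c (l 141464093226450991) (l 141418738362056751)) (l 141355310270251055))) (c (c (l 141509448068186159) (l 141375101482025007)) (l 141403826209439791)))) (b (l 141256835233562671) (a (c (b (l 141351874290778159) (l 141377781538635823)) (l 141283704555143215)) (c (l 141422311746895919) (l 141253193098493999)))))))) (b (a (b (l 16458696) (l 140980857750061103)) (c (l 141179869308141615) (l 16442696))) (b (a (a (l 141116510027546671) (l 141049783396237359)) (a (l 140982094692483119) (l 140912000807419951))) (a (a (b (l 141192238906212399) (c (a (l 141299028995522607) (l 141265425161338927)) (l 141386921186836527))) (b (l 141126268189474863) (c (l 141214504014102575) (l 141144203977326639)))) (c (a (b (l 141092526912225327) (l 141144341408661551)) (l 141042292960903215)) (a (l 141055624549220399)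 (l 140990203590393903))))))), by decide +kernel⟩

def k26_pm_012_a : ∃ t, chk3 f_pm_012_a t 9 31 3 = true :=
  ⟨(a (b (a (b (l 141027861895954479) (l 141109363211485231)) (l 141492405533704239)) (b (a (a (l 141219864154783791) (l 141164338801426479)) (a (l 141109912960270383) (l 141055693277888559))) (a (a (b (l 141281780415807535) (c (b (l 141351599422308399) (a (l 141477012475887663) (l 141359777040334895))) (a (l 141298754126889007) (l 141273808949526575)))) (b (l 141228316647260207) (a (c (b (l 141310436443373615) (l 141332701558358063)) (l 141249207369695279)) (c (l 141294562238464047) (l 141224949387378735))))) (a (b (l 141175952390864943) (a (c (l 141267692915130415) (l 141201103722070063)) (c (l 141240754872401967) (l 141177326776320047)))) (b (l 141123725573734447) (c (b (l 141187978300080175) (l 141211274207477807)) (l 141141317760335919))))))) (b (a (l 141375238794002479) (l 16437552)) (b (a (a (l 141001473595785263) (l 140946429280059439)) (b (l 16449584) (l 141339779548217391))) (a (a (b (l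 141070536684011567) (c (l 141143929102254127) (l 141092870515769391))) (c (l 141063870891524143) (l 141021470961516591))) (a (c (l 141007795783335983) (l 141244122053197871)) (b (l 141093763824779311) (l 141324729996378159))))))), by decide +kernel⟩

def k27_pm_012_a : ∃ t, chk3 f_pm_012_a t 5 1 1 = true :=
  ⟨(b (a (b (a (l 16494448) (a (l 16492648) (l 16485704))) (a (b (l 16448456) (l 16413360)) (a (b (l 16452888) (l 16424760)) (b (l 16448200) (l 16423344))))) (b (a (l 16471504) (l 16455896)) (a (b (l 16436744) (l 16416000)) (b (l 16426416) (l 16411488))))) (b (a (a (b (a (l 16369856) (l 16385704)) (a (l 16333824) (l 16400216))) (b (a (l 16398496) (l 16402240)) (a (b (l 16383184) (l 16376864)) (b (l 16391920) (l 16389504))))) (b (a (l 16401032) (l 16404856)) (a (b (l 16396944) (l 16398656)) (b (l 16407016) (l 16413016))))) (a (a (b (b (l 16371832) (l 16445816)) (a (b (l 16455952) (a (b (l 16428536) (b (l 141312360456323119) (c (l 141303358231969839) (l 141161658660061231)))) (b (l 16420544) (c (l 141270716451913775)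 (b (l 16435624) (a (l 141295386752548911) (l 16444952))))))) (b (l 16437808) (b (l 16472088) (a (b (l 16429920) (c (l 16441776) (l 16441008))) (b (l 16423576) (l 16435936))))))) (b (a (b (l 16374680) (a (l 16369920) (l 16385832))) (b (l 16391840) (l 16420768))) (b (a (b (l 16384112) (l 16411832)) (a (l 16429760) (l 16417576))) (b (a (l 16420328) (l 16469616)) (a (c (l 16472088) (l 16477200)) (a (l 16454568) (l 16465056))))))) (b (a (b (l 16405272) (a (l 16411360) (l 16422672))) (b (l 16445536) (a (l 16433984) (l 16444856)))) (b (a (a (l 16448232) (l 16482368)) (a (l 16495072) (l 16486368))) (a (a (b (l 16464488) (c (l 16479616) (l 16453168))) (b (l 16478688) (l 16491680))) (a (b (l 16492392) (l 16505760)) (c (l 16529608) (l 16531880))))))))), by decide +kernel⟩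

def k28_pm_012_a : ∃ t, chk3 f_pm_012_a t 3 2 1 = true :=
  ⟨(a (a (b (a (l 16445816) (l 16439448)) (a (b (l 16421768) (l 16412888)) (b (l 16420752) (l 16416824)))) (b (a (b (l 16440992) (l 16427752)) (b (l 16433536) (l 16422416))) (a (b (l 16420072) (l 16419224)) (b (l 16417704) (l 16419976))))) (a (b (a (b (l 16423952) (l 16415144)) (b (l 16433504) (l 16406280))) (a (b (l 16412944) (l 16419072)) (b (l 16407592) (a (l 16418496) (l 16418424))))) (b (a (b (a (l 16403888) (l 16398376)) (a (l 16399792) (l 16395840))) (b (a (b (l 16394624) (l 16392016)) (b (a (l 16391232) (l 16389192)) (l 16388264))) (a (l 16392616) (b (l 16388664) (l 16391552))))) (a (b (a (l 16404056) (l 16402480)) (a (l 16419080) (l 16420472))) (b (a (l 16401608) (b (l 16397144) (l 16405720))) (a (l 16422680) (b (l 16417584) (l 16433120)))))))), by decide +kernel⟩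

def k29_pm_012_a : ∃ t, chk3 f_pm_012_a t 6 3 1 = true :=
  ⟨(b (a (b (a (l 16412088) (l 16420936)) (a (b (l 16419896) (l 16429112)) (b (l 16431352) (l 16443224)))) (b (a (a (l 16426296) (l 16429024)) (l 16453200)) (a (b (l 16441272) (l 16455360)) (b (l 16449776) (l 16467072))))) (a (a (b (b (l 16442400) (l 16502208)) (b (a (l 16497856) (l 16488008)) (b (l 16544880) (a (l 16532864) (b (l 16523024) (l 16538232)))))) (b (b (l 16458816) (l 16542000)) (b (c (l 16547072) (l 16545976)) (b (a (l 16521616) (l 16537272)) (b (a (l 16541464) (a (l 16554984) (l 16563824))) (a (b (l 16573776) (l 16560440)) (a (l 16570096) (l 16578896)))))))) (b (a (b (l 16494960) (l 16505712)) (b (l 16531200) (l 16538592))) (b (a (a (l 16521712) (l 16554616)) (a (l 16567200) (l 16625208))) (b (a (a (l 16554824) (b (l 16564248) (l 16578632))) (a (l 16629584) (l 16603104))) (a (a (b (l 16576768) (a (l 16587480) (l 16595800))) (b (l 16593128) (a (l 16603840) (l 16611680)))) (b (a (l 16608960) (l 16624256)) (a (l 16633952) (b (l 16635032)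 (l 16642296)))))))))), by decide +kernel⟩

def k30_pm_012_a : ∃ t, chk3 f_pm_012_a t 7 3 1 = true :=
  ⟨(b (a (b (a (b (l 16430376) (l 16442128)) (b (l 16434152) (l 16449928))) (a (b (l 16458768) (l 16480064)) (b (l 16470400) (l 16517248)))) (a (b (a (l 16448208) (l 16474248)) (a (b (l 16481288) (l 16510320)) (b (l 16489216) (l 16520152)))) (b (a (b (l 16447632) (l 16470072)) (b (l 16452728) (l 16476800))) (a (b (l 16497448) (l 16530128)) (b (l 16526776) (a (l 16537592) (l 16542520))))))) (a (b (b (a (l 16512408) (a (l 16522552) (l 16533696))) (a (l 16582432) (b (l 16555904) (l 16597672)))) (b (b (a (l 16592336) (l 16631232)) (a (b (l 16591088) (l 16646512)) (a (l 16619312) (l 16633512)))) (b (a (a (l 16638944) (b (l 16625480) (l 16639432))) (b (a (l 16639824) (l 16654200)) (a (l 16653856) (l 16668376)))) (a (b (a (l 16639072) (l 16653632)) (a (b (l 16649832) (l 16657096)) (a (l 16685400) (l 16692696)))) (b (a (l 16689120) (a (l 16679128) (l 16686528))) (a (b (l 16679024) (a (l 16682696) (l 16700560)))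 (b (c (l 16695168) (l 16692480)) (a (l 16707992) (c (l 16706408) (l 16703640)))))))))) (b (a (b (a (l 16545216) (l 16577856)) (a (l 16586424) (a (l 16596496) (b (l 16591512) (l 16614792))))) (a (b (b (l 16558184) (l 16578856)) (b (l 16601104) (a (l 16621576) (l 16628280)))) (b (a (l 16577144) (b (l 16571984) (l 16593568))) (a (b (l 16610528) (l 16634888)) (b (l 16616696) (l 6)))))) (a (a (b (b (l 16621448) (l 16668832)) (b (b (l 16668800) (a (l 16679424) (l 16686904))) (a (b (l 16694008) (b (l 16705120) (c (l 16719104) (l 16721896)))) (b (l 16701592) (l 6))))) (b (b (l 16636088) (c (l 16683432) (l 16683576))) (b (b (l 16694232) (l 6)) (l 6)))) (b (a (b (a (l 16646848) (l 6)) (l 6)) (l 6)) (l 6)))))), by decide +kernel⟩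

theorem s31_pm_012_a : ∃ t, chk3 f_pm_012_a t 3 3 1 = true := ex3_a k29_pm_012_a k30_pm_012_a

theorem s32_pm_012_a : ∃ t, chk3 f_pm_012_a t 3 1 1 = true := ex3_b k28_pm_012_a s31_pm_012_a

theorem s33_pm_012_a : ∃ t, chk3 f_pm_012_a t 9 31 1 = true := ex3_c k25_pm_012_a k26_pm_012_a

theorem s34_pm_012_a : ∃ t, chk3 f_pm_012_a t 9 15 1 = true := ex3_b k24_pm_012_a s33_pm_012_a

theorem s35_pm_012_a : ∃ t, chk3 f_pm_012_a t 9 7 1 = true := ex3_b k23_pm_012_a s34_pm_012_a

theorem s36_pm_012_a : ∃ t, chk3 f_pm_012_a t 9 3 1 = true := ex3_b k22_pm_012_a s35_pm_012_a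

theorem s37_pm_012_a : ∃ t, chk3 f_pm_012_a t 34 63 1 = true := ex3_b k19_pm_012_a k20_pm_012_a

theorem s38_pm_012_a : ∃ t, chk3 f_pm_012_a t 34 31 1 = true := ex3_b k18_pm_012_a s37_pm_012_a

theorem s39_pm_012_a : ∃ t, chk3 f_pm_012_a t 34 15 1 = true := ex3_b k17_pm_012_a s38_pm_012_a

theorem s40_pm_012_a : ∃ t, chk3 f_pm_012_a t 17 15 1 = true := ex3_a s39_pm_012_a k21_pm_012_a

theorem s41_pm_012_a : ∃ t, chk3 f_pm_012_a t 17 7 1 = true := ex3_b k16_pm_012_a s40_pm_012_a

theorem s42_pm_012_a : ∃ t, chk3 f_pm_012_a t 17 3 1 = true := ex3_b k15_pm_012_a s41_pm_012_a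

theorem s43_pm_012_a : ∃ t, chk3 f_pm_012_a t 16 127 3 = true := ex3_a k13_pm_012_a k14_pm_012_a

theorem s44_pm_012_a : ∃ t, chk3 f_pm_012_a t 16 511 5 = true := ex3_b k11_pm_012_a k12_pm_012_a

theorem s45_pm_012_a : ∃ t, chk3 f_pm_012_a t 16 255 5 = true := ex3_b k10_pm_012_a s44_pm_012_a

theorem s46_pm_012_a : ∃ t, chk3 f_pm_012_a t 33 255 4 = true := ex3_a k8_pm_012_a k9_pm_012_a

theorem s47_pm_012_a : ∃ t, chk3 f_pm_012_a t 16 255 4 = true := ex3_a k7_pm_012_a s46_pm_012_a

theorem s48_pm_012_a : ∃ t, chk3 f_pm_012_a t 16 255 2 = true := ex3_c s47_pm_012_a s45_pm_012_a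

theorem s49_pm_012_a : ∃ t, chk3 f_pm_012_a t 16 127 2 = true := ex3_b k6_pm_012_a s48_pm_012_a

theorem s50_pm_012_a : ∃ t, chk3 f_pm_012_a t 16 127 1 = true := ex3_c s49_pm_012_a s43_pm_012_a

theorem s51_pm_012_a : ∃ t, chk3 f_pm_012_a t 16 63 1 = true := ex3_b k5_pm_012_a s50_pm_012_a

theorem s52_pm_012_a : ∃ t, chk3 f_pm_012_a t 16 31 1 = true := ex3_b k4_pm_012_a s51_pm_012_a

theorem s53_pm_012_a : ∃ t, chk3 f_pm_012_a t 16 15 1 = true := ex3_b k3_pm_012_a s52_pm_012_a

theorem s54_pm_012_a : ∃ t, chk3 f_pm_012_a t 16 7 1 = true := ex3_b k2_pm_012_a s53_pm_012_a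

theorem s55_pm_012_a : ∃ t, chk3 f_pm_012_a t 16 3 1 = true := ex3_b k1_pm_012_a s54_pm_012_a

theorem s56_pm_012_a : ∃ t, chk3 f_pm_012_a t 8 3 1 = true := ex3_a s55_pm_012_a s42_pm_012_a

theorem s57_pm_012_a : ∃ t, chk3 f_pm_012_a t 4 3 1 = true := ex3_a s56_pm_012_a s36_pm_012_a

theorem s58_pm_012_a : ∃ t, chk3 f_pm_012_a t 4 1 1 = true := ex3_b k0_pm_012_a s57_pm_012_a

theorem s59_pm_012_a : ∃ t, chk3 f_pm_012_a t 2 1 1 = true := ex3_a s58_pm_012_a k27_pm_012_a

theorem s60_pm_012_a : ∃ t, chk3 f_pm_012_a t 1 1 1 = true := ex3_a s59_pm_012_a s32_pm_012_a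

theorem c_pm_012_a : CertB 0 536870912 0 536870912 536870912 50465866 3 eng mog cd0q0 cd3q2a pd1 false true false .pnp 0 1 2
    ndB0q0 ndB3q2a pcB1 cut_pm_012_a xt_pm_012_a :=
  certB2 (fam := false) (s1 := true) (s2 := false) (a := 0) (b := 1) (c := 2) (cn := .pnp) (n1 := ndB0q0) (n2 := ndB3q2a) (pc := pcB1) (cut := cut_pm_012_a) (xt := xt_pm_012_a) (P1 := 0) (W1 := 536870912) (P2 := 0) (W2 := 536870912) (P3 := 536870912) (W3 := 50465866) (N0 := 3) (En := eng) (mo := mog) (C1 := cd0q0) (C2 := cd3q2a) (C3 := pd1)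
    rfl (fun _ => rfl) s60_pm_012_a

noncomputable def cut_pm_012_b : Cut := Cut.of [[⟨0, 0, 0, 67108864⟩, ⟨1, 1, 0, 67108864⟩, ⟨2, 1, 0, 67108864⟩], [⟨0, 0, 1, 20971520⟩, ⟨1, 1, 2, 20971520⟩, ⟨2, 1, 0, 33554432⟩]]

noncomputable def f_pm_012_b : ℕ → ℕ → ℕ → ℕ → Bool := onCell 0 536870912 536870912 536870912 536870912 50465866
    (rowB 3 eng mog cd0q0 cd3q2b pd1 1 false true false .pnp 0 1 2 (qsf 0 536870912 1239849684 370763052 1) ndB0q0 ndB3q2b pcB1 cut_pm_012_b Ext.none)

def k0_pm_012_b : ∃ t, chk3 f_pm_012_b t 2 1 1 = true :=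
  ⟨(b (l 1) (a (l 1) (b (l 1) (a (b (l 1) (a (b (l 1) (a (l 1) (b (l 1) (b (l 1) (a (l 1) (l 16402144)))))) (b (b (l 1) (a (l 1) (l 16423072))) (b (a (b (l 1) (l 16412400)) (l 16415056)) (a (b (l 16396952) (a (l 16387960) (l 16374536))) (b (l 16371432) (l 16355912))))))) (b (a (b (l 1) (a (l 1) (l 46203838695))) (b (a (l 1) (l 16451240)) (a (l 16424584) (l 16407968)))) (a (b (a (b (l 16426992) (l 16399896)) (b (l 16406208) (l 16379664))) (b (a (l 16371448) (l 16351848)) (a (a (l 16346888) (l 16336704)) (l 16322792)))) (b (b (l 16379880) (l 16354320)) (b (a (l 16335000) (l 16320792)) (a (b (l 16313888) (l 16299456)) (b (l 16300304) (l 16286304))))))))))), by decide +kernel⟩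

def k1_pm_012_b : ∃ t, chk3 f_pm_012_b t 3 1 1 = true :=
  ⟨(b (b (l 1) (a (l 1) (b (a (l 1) (b (a (l 1) (l 16491176)) (a (l 98280455031) (l 16513944)))) (a (a (l 173442352535) (b (l 16506096) (l 16477040))) (a (l 16491912) (l 16512568)))))) (a (b (a (b (l 1) (a (b (l 1) (l 108480977399)) (b (l 69289419879) (l 16439472)))) (b (a (b (l 1) (l 111702240103)) (b (l 16473848) (l 16455104))) (a (b (l 16447688) (l 16419024)) (b (l 16432256) (l 16405736))))) (a (b (a (b (l 16470672) (l 16387160)) (b (l 16404592) (l 16365608))) (b (a (b (l 16353080) (l 16329048)) (b (l 16333792) (l 16311568))) (a (b (a (l 16309032) (l 16299424)) (a (b (l 16289200) (l 16275656)) (b (l 16280312) (l 16267480)))) (b (a (l 16291848) (l 16286520)) (a (b (l 16274000) (l 16262160)) (c (l 16291912) (l 16236912))))))) (b (a (b (l 16386456) (l 16350392)) (b (l 16375944) (l 16344600))) (a (b (b (l 16321752) (l 16302440)) (b (l 16282712) (a (l 16262312) (l 16262552)))) (b (l 16311976) (a (l 16274792) (l 16279264))))))) (b (a (b (a (b (l 16463792)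 (l 16446536)) (l 16458288)) (a (b (l 16425792) (l 16402040)) (b (l 16432680) (l 16414288)))) (b (a (l 16473696) (l 16502744)) (a (b (l 16455696) (l 16444056)) (b (l 16494880) (l 16489408))))) (a (b (a (b (l 16377128) (l 16351384)) (b (l 16395536) (l 16374824))) (a (b (l 16323248) (b (l 16299344) (b (l 16284728) (l 16272832)))) (b (b (l 16356672) (l 16339144)) (b (l 16316480) (l 16289824))))) (b (a (b (l 16430960) (l 16410936)) (b (l 16477528) (l 16449744))) (a (b (l 16437776) (b (l 16339712) (l 16315704))) (b (l 16410920) (a (l 16358512) (l 16384152))))))))), by decide +kernel⟩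

theorem s2_pm_012_b : ∃ t, chk3 f_pm_012_b t 1 1 1 = true := ex3_a k0_pm_012_b k1_pm_012_b

theorem c_pm_012_b : CertB 0 536870912 1239849684 370763052 536870912 50465866 3 eng mog cd0q0 cd3q2b pd1 false true false .pnp 0 1 2
    ndB0q0 ndB3q2b pcB1 cut_pm_012_b Ext.none :=
  certB1 (fam := false) (s1 := true) (s2 := false) (a := 0) (b := 1) (c := 2) (cn := .pnp) (n1 := ndB0q0) (n2 := ndB3q2b) (pc := pcB1) (cut := cut_pm_012_b) (xt := Ext.none) (P1 := 0) (W1 := 536870912) (P2 := 1239849684) (W2 := 370763052) (P3 := 536870912) (W3 := 50465866) (N0 := 3) (En := eng) (mo := mog) (C1 := cd0q0) (C2 := cd3q2b) (C3 := pd1)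
    rfl (fun _ => rfl) s2_pm_012_b

noncomputable def cut_pm_022_a : Cut := Cut.of [[⟨0, 0, 0, 67108864⟩, ⟨1, 1, 0, 67108864⟩, ⟨2, 1, 0, 67108864⟩]]

noncomputable def f_pm_022_a : ℕ → ℕ → ℕ → ℕ → Bool := onCell 1073741824 536870912 0 536870912 536870912 50465866
    (rowB 3 eng mog cd0q0 cd3q2a pd2 2 false true false .pp 0 2 2 (qsf 0 536870912 0 536870912 2) ndB0q0 ndB3q2a pcB2 cut_pm_022_a Ext.none)

def k0_pm_022_a : ∃ t, chk3 f_pm_022_a t 1 1 1 = true :=
  ⟨(a (a (b (a (b (a (b (a (b (a (l 16389176) (l 16394120)) (l 16390360)) (l 16401080)) (a (b (l 16391496) (l 16395224)) (l 16404272))) (b (a (l 16410720) (l 16420128)) (l 16461784))) (a (b (a (l 16406648) (l 16418512)) (a (b (l 16424304) (l 16440984)) (l 16445752))) (b (a (l 16429960) (l 16441008)) (a (l 16458296) (l 16470312))))) (b (a (b (l 16433640) (l 16439376)) (b (l 16449832) (l 16456576))) (a (b (l 16477608) (a (l 16481688) (l 16492304))) (b (a (l 16470704) (l 16478888)) (a (b (l 16492248) (l 16511432)) (l 16551976)))))) (b (a (a (b (a (b (l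 16461760) (l 16487016)) (b (l 16475672) (l 16501488))) (a (b (l 16538128) (a (l 16548536) (l 16556432))) (b (l 16532120) (a (l 16564144) (l 16571656))))) (b (a (b (l 16489008) (l 16515296)) (b (l 16501688) (l 16528392))) (a (b (l 16546368) (a (l 16578976) (l 16586096))) (b (l 16559832) (a (l 16592992) (l 16599616)))))) (a (a (b (b (l 16513624) (l 16540656)) (b (l 16593288) (b (l 16599056) (l 4)))) (b (b (l 16524672) (l 16551760)) (l 4))) (b (a (b (l 16534280) (l 4)) (l 4)) (l 4)))) (a (b (a (b (a (a (l 16610344) (l 16618448)) (a (l 16626352) (b (l 16601992) (l 16624136)))) (l 6)) (b (a (b (a (l 16609448) (l 16616680)) (a (l 16652648) (l 16639000))) (b (l 16668984) (l 4))) (a (l 6) (l 4)))) (a (l 6) (l 4))) (l 4)))) (b (a (a (b (b (a (l 16459752) (l 16464832)) (a (l 16467000) (b (l 16468864) (l 16475224)))) (b (a (l 16496048) (l 16558080)) (a (l 77543900903) (l 1)))) (b (b (l 1) (l 1)) (l 1))) (l 1)) (l 4))) (l 1)), by decide +kernel⟩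

theorem c_pm_022_a : CertB 0 536870912 0 536870912 536870912 50465866 3 eng mog cd0q0 cd3q2a pd2 false true false .pp 0 2 2
    ndB0q0 ndB3q2a pcB2 cut_pm_022_a Ext.none :=
  certB2 (fam := false) (s1 := true) (s2 := false) (a := 0) (b := 2) (c := 2) (cn := .pp) (n1 := ndB0q0) (n2 := ndB3q2a) (pc := pcB2) (cut := cut_pm_022_a) (xt := Ext.none) (P1 := 0) (W1 := 536870912) (P2 := 0) (W2 := 536870912) (P3 := 536870912) (W3 := 50465866) (N0 := 3) (En := eng) (mo := mog) (C1 := cd0q0) (C2 := cd3q2a) (C3 := pd2)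
    rfl (fun _ => rfl) k0_pm_022_a

noncomputable def cut_pm_022_b : Cut := Cut.of [[⟨0, 0, 0, 67108864⟩, ⟨1, 1, 0, 67108864⟩, ⟨2, 1, 0, 67108864⟩]]

noncomputable def f_pm_022_b : ℕ → ℕ → ℕ → ℕ → Bool := onCell 1073741824 536870912 1239849684 370763052 536870912 50465866
    (rowB 3 eng mog cd0q0 cd3q2b pd2 2 false true false .pp 0 2 2 (qsf 0 536870912 1239849684 370763052 2) ndB0q0 ndB3q2b pcB2 cut_pm_022_b Ext.none)

def k0_pm_022_b : ∃ t, chk3 f_pm_022_b t 2 2 1 = true :=
  ⟨(a (b (a (b (a (a (b (a (b (l 16401736) (l 16362272)) (l 16417760)) (a (b (l 16345304) (l 16329984)) (l 16340984))) (b (a (l 16380240) (l 16384600)) (l 16346304))) (b (a (l 16391056) (l 16399544)) (a (l 16353336) (l 16360288)))) (a (b (a (a (l 16351712) (l 16312544)) (l 16316392)) (a (a (l 16288072) (l 16290120)) (l 16292536))) (b (l 16365784) (a (l 16295792) (l 16298816))))) (b (a (b (a (l 16407776) (l 16415792)) (l 16370608)) (b (l 16500280) (l 16383744))) (a (b (l 16334128) (l 16303072)) (a (l 16324376) (l 16328728))))) (a (b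 (a (b (a (a (l 16271368) (l 16272872)) (l 16274712)) (a (a (l 16259632) (l 16260720)) (l 16261896))) (a (b (l 16276480) (l 16262656)) (b (l 16277384) (l 16262520)))) (b (a (a (a (l 16253176) (l 16254064)) (l 16254808)) (l 16317296)) (a (a (a (l 16249816) (l 16250568)) (l 16250952)) (l 16250344)))) (b (a (b (l 16278768) (l 16260688)) (b (l 16280624) (l 16257896))) (a (b (l 16249312) (l 16244976)) (l 16364160))))) (b (a (a (b (b (a (l 16436344) (l 16441256)) (l 16394792)) (l 16418520)) (b (a (b (a (l 16444000) (l 16466248)) (l 16400368)) (b (l 148209264263) (l 16401864))) (a (l 16339056) (l 16340224)))) (a (a (b (l 156262459863) (l 16339736)) (b (l 1) (l 16336024))) (l 4))) (a (a (b (l 16311152) (l 16292264)) (b (a (l 16269696) (l 16269248)) (a (l 16222440) (l 16217992)))) (a (b (l 16350056) (l 16210928)) (b (l 4) (l 16238528)))))), by decide +kernel⟩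

def k1_pm_022_b : ∃ t, chk3 f_pm_022_b t 2 3 1 = true :=
  ⟨(a (b (a (b (a (b (a (l 16250104) (l 16250448)) (a (l 16254192) (l 16252952))) (b (l 16248968) (l 16250912))) (a (b (a (l 16261144) (l 16257216)) (a (l 16261312) (l 16254336))) (b (l 16254136) (l 16246448)))) (b (a (b (l 16243584) (l 16245344)) (l 16232808)) (a (b (l 16246616) (l 16239656)) (l 16231552)))) (a (b (b (a (a (l 16268136) (l 16255664)) (l 16243096)) (a (a (l 16283320) (l 16266024)) (l 16245784))) (b (a (a (a (l 16314864) (l 16302232)) (l 16285360)) (l 16256488)) (a (a (l 16384176) (l 16314160)) (l 16276184)))) (b (a (l 16228984) (l 16220072)) (a (l 16381656) (l 16211952))))) (b (a (a (b (l 16215888) (l 16216640)) (b (l 16323648) (l 16212672))) (b (a (l 16176936) (l 16156288)) (a (l 16164056) (l 16132424)))) (a (a (b (l 16206152) (l 16198336)) (b (l 16187000) (l 16181592))) (b (a (l 16157160) (l 16116728)) (l 16197864))))), by decide +kernel⟩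

def k2_pm_022_b : ∃ t, chk3 f_pm_022_b t 3 1 1 = true :=
  ⟨(a (b (l 4) (a (b (a (b (l 4) (l 16096256)) (l 4)) (a (b (l 16071552) (l 16068768)) (b (l 16015496) (l 16007256)))) (l 4))) (l 4)), by decide +kernel⟩

theorem s3_pm_022_b : ∃ t, chk3 f_pm_022_b t 2 1 1 = true := ex3_b k0_pm_022_b k1_pm_022_b

theorem s4_pm_022_b : ∃ t, chk3 f_pm_022_b t 1 1 1 = true := ex3_a s3_pm_022_b k2_pm_022_b

theorem c_pm_022_b : CertB 0 536870912 1239849684 370763052 536870912 50465866 3 eng mog cd0q0 cd3q2b pd2 false true false .pp 0 2 2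
    ndB0q0 ndB3q2b pcB2 cut_pm_022_b Ext.none :=
  certB2 (fam := false) (s1 := true) (s2 := false) (a := 0) (b := 2) (c := 2) (cn := .pp) (n1 := ndB0q0) (n2 := ndB3q2b) (pc := pcB2) (cut := cut_pm_022_b) (xt := Ext.none) (P1 := 0) (W1 := 536870912) (P2 := 1239849684) (W2 := 370763052) (P3 := 536870912) (W3 := 50465866) (N0 := 3) (En := eng) (mo := mog) (C1 := cd0q0) (C2 := cd3q2b) (C3 := pd2)
    rfl (fun _ => rfl) s4_pm_022_b

noncomputable def f_pm_023 : ℕ → ℕ → ℕ → ℕ → Bool := onCell 0 536870912 1073741824 536870912 536870912 50465866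
    (rowB 3 eng mog cd0q0 cd3q3 pd2 1 false true false .up 0 2 3 (qsf 0 536870912 1610612736 536870912 2) ndB0q0 ndB3q3 pcB2 Cut.none Ext.none)

def k0_pm_023 : ∃ t, chk3 f_pm_023 t 1 1 1 = true :=
  ⟨(a (b (b (l 1) (a (l 1) (b (l 1) (a (l 1) (l 16153544))))) (b (a (b (l 1) (l 4)) (b (a (l 276520604903) (l 16078400)) (a (l 176125499095) (l 15994736)))) (a (l 4) (b (a (l 4) (l 16257008)) (l 4))))) (b (a (b (a (l 1) (b (l 1) (l 193843199303))) (b (a (l 213707553927) (b (l 16225256) (l 16214336))) (a (l 16173032) (l 16197496)))) (b (a (b (a (l 1) (l 193843248551)) (b (l 16270064) (l 16265768))) (b (a (a (l 98817082503) (l 100427761847)) (a (l 103112105431) (b (l 16411440) (l 16417960)))) (a (l 16336016) (l 16429464)))) (b (a (b (l 16262304) (l 16275624)) (b (l 16460696) (l 16504352))) (a (l 16386728) (l 16565392))))) (b (a (b (a (l 16125008) (l 16324528)) (a (l 16281080) (l 16470136))) (a (b (l 16505824) (l 16594600)) (l 16697512))) (a (b (l 16558808) (l 16606544)) (b (l 16686712) (l 16925704)))))), by decide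 +kernel⟩

theorem c_pm_023 : CertB 0 536870912 1610612736 536870912 536870912 50465866 3 eng mog cd0q0 cd3q3 pd2 false true false .up 0 2 3
    ndB0q0 ndB3q3 pcB2 Cut.none Ext.none :=
  certB1 (fam := false) (s1 := true) (s2 := false) (a := 0) (b := 2) (c := 3) (cn := .up) (n1 := ndB0q0) (n2 := ndB3q3) (pc := pcB2) (cut := Cut.none) (xt := Ext.none) (P1 := 0) (W1 := 536870912) (P2 := 1610612736) (W2 := 536870912) (P3 := 536870912) (W3 := 50465866) (N0 := 3) (En := eng) (mo := mog) (C1 := cd0q0) (C2 := cd3q3) (C3 := pd2)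
    rfl (fun _ => rfl) k0_pm_023

noncomputable def f_pm_033 : ℕ → ℕ → ℕ → ℕ → Bool := onCell 1610612736 536870912 1610612736 536870912 536870912 50465866
    (rowB 3 eng mog cd0q0 cd3q3 pd3 2 false true false .pnn 0 3 3 (qsf 0 536870912 1610612736 536870912 3) ndB0q0 ndB3q3 pcB3 Cut.none Ext.none)

def k0_pm_033 : ∃ t, chk3 f_pm_033 t 1 1 1 = true :=
  ⟨(b (l 4) (a (a (a (b (b (l 16599216) (l 16666544)) (b (l 16708920) (l 16734648))) (b (l 4) (b (l 16704448) (l 16727888)))) (b (l 4) (a (b (l 4) (l 16725784)) (l 4)))) (l 4))), by decide +kernel⟩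

theorem c_pm_033 : CertB 0 536870912 1610612736 536870912 536870912 50465866 3 eng mog cd0q0 cd3q3 pd3 false true false .pnn 0 3 3
    ndB0q0 ndB3q3 pcB3 Cut.none Ext.none :=
  certB2 (fam := false) (s1 := true) (s2 := false) (a := 0) (b := 3) (c := 3) (cn := .pnn) (n1 := ndB0q0) (n2 := ndB3q3) (pc := pcB3) (cut := Cut.none) (xt := Ext.none) (P1 := 0) (W1 := 536870912) (P2 := 1610612736) (W2 := 536870912) (P3 := 536870912) (W3 := 50465866) (N0 := 3) (En := eng) (mo := mog) (C1 := cd0q0) (C2 := cd3q3) (C3 := pd3)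
    rfl (fun _ => rfl) k0_pm_033

noncomputable def f_pm_101 : ℕ → ℕ → ℕ → ℕ → Bool := onCell 536870912 536870912 536870912 536870912 536870912 50465866
    (rowB 3 eng mog cd0q1 cd3q1 pd0 0 false true false .npn 1 0 1 (qsf 536870912 536870912 536870912 536870912 0) ndB0q1 ndB3q1 pcB0 Cut.none Ext.none)

def k0_pm_101 : ∃ t, chk3 f_pm_101 t 1 1 1 = true :=
  ⟨(l 4), by decide +kernel⟩

theorem c_pm_101 : CertB 536870912 536870912 536870912 536870912 536870912 50465866 3 eng mog cd0q1 cd3q1 pd0 false true false .npn 1 0 1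
    ndB0q1 ndB3q1 pcB0 Cut.none Ext.none :=
  certB0 (fam := false) (s1 := true) (s2 := false) (a := 1) (b := 0) (c := 1) (cn := .npn) (n1 := ndB0q1) (n2 := ndB3q1) (pc := pcB0) (cut := Cut.none) (xt := Ext.none) (P1 := 536870912) (W1 := 536870912) (P2 := 536870912) (W2 := 536870912) (P3 := 536870912) (W3 := 50465866) (N0 := 3) (En := eng) (mo := mog) (C1 := cd0q1) (C2 := cd3q1) (C3 := pd0)
    rfl k0_pm_101

noncomputable def cut_pm_102_a : Cut := Cut.of [[⟨0, 1, 0, 67108864⟩, ⟨1, 0, 0, 67108864⟩, ⟨2, 1, 0, 67108864⟩], [⟨0, 0, 1, 20971520⟩, ⟨1, 1, 2, 20971520⟩, ⟨2, 1, 0, 33554432⟩]]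

noncomputable def xt_pm_102_a : Ext := extD2 3 ⟨7, 3, 3, 10, 1741, 1000, 23, 25, 19, 50, 3, 16⟩ eng cd0q1 cd3q2a pd0 false true false .npp 1 0 2 rfl ndB0q1 ndB3q2a pcB0

noncomputable def f_pm_102_a : ℕ → ℕ → ℕ → ℕ → Bool := onCell 536870912 536870912 0 536870912 536870912 50465866
    (rowB 3 eng mog cd0q1 cd3q2a pd0 0 false true false .npp 1 0 2 (qsf 536870912 536870912 0 536870912 0) ndB0q1 ndB3q2a pcB0 cut_pm_102_a xt_pm_102_a)

def k0_pm_102_a : ∃ t, chk3 f_pm_102_a t 2 2 1 = true :=
  ⟨(a (b (l 2) (a (l 2) (a (l 2) (l 16591064)))) (a (b (l 16644328) (a (l 16625680) (l 16654544))) (b (l 16695072) (a (l 16679264) (l 16702392))))), by decide +kernel⟩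

def k1_pm_102_a : ∃ t, chk3 f_pm_102_a t 4 6 1 = true :=
  ⟨(a (l 2) (b (a (l 2) (l 16604984)) (a (l 16549504) (b (l 16618504) (l 16633144))))), by decide +kernel⟩

def k2_pm_102_a : ∃ t, chk3 f_pm_102_a t 8 14 1 = true :=
  ⟨(a (l 2) (b (l 16530000) (b (l 16551480) (l 16568784)))), by decide +kernel⟩

def k3_pm_102_a : ∃ t, chk3 f_pm_102_a t 16 30 1 = true :=
  ⟨(a (l 2) (b (l 16544608) (b (l 16559056) (l 141685851068858415)))), by decide +kernel⟩

def k4_pm_102_a : ∃ t, chk3 f_pm_102_a t 16 62 1 = true :=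
  ⟨(a (a (l 2) (b (l 141523810536767535) (l 141823702356738095))) (a (b (l 141590124850708527) (l 141893040328392751)) (b (l 141677055009505327) (c (l 141899225163153455) (l 141705436142010415))))), by decide +kernel⟩

def k5_pm_102_a : ∃ t, chk3 f_pm_102_a t 16 126 1 = true :=
  ⟨(b (a (a (l 141672725666578479) (l 141735878884114479)) (a (l 141807415879548975) (l 141982925446332463))) (a (a (c (l 141816143261810735) (l 141649292302925871)) (a (l 141781852222160943) (l 141816211970326575))) (a (c (l 141880327306379311) (l 141777797761138735)) (a (l 141938051634675759) (l 141855244682936367))))), by decide +kernel⟩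

def k6_pm_102_a : ∃ t, chk3 f_pm_102_a t 16 127 2 = true :=
  ⟨(c (a (l 14) (a (c (b (a (l 142288589770424495) (l 142381017484509359)) (a (b (l 142344664875188399) (a (l 14) (b (l 142395860895662255) (c (l 142447606673195183) (l 14))))) (b (l 142435855638380719) (a (c (l 142483065929859247) (l 14)) (b (l 142485814707994799) (l 142436680285962415)))))) (l 14)) (b (a (l 142406718571167919) (l 142496122627457199)) (a (b (a (l 142438260817903791) (l 142482928486318255)) (a (c (b (l 142530138778960047) (l 142548349444063407)) (l 14)) (c (l 142582915347300527) (b (l 142445613801177263) (c (l 142495985188831407) (l 14)))))) (b (l 142548830477025455) (a (b (l 142553709561282735) (l 142571576628936879)) (l 142470627723919535))))))) (a (b (a (a (l 141824870626803759) (l 141856962631876655)) (a (l 141891047502200879) (l 14))) (a (b (a (l 141874142501929007) (l 141906715543470127)) (c (l 14) (a (b (l 141875929204457519) (a (b (l 141880395970740271) (a (a (l 141882732432949295) (l 141931660701532207)) (c (l 141923895406985263)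 (l 141880670846959663)))) (b (l 141896132735565871) (c (l 14) (a (l 141888504869617711) (l 141896476331261999)))))) (b (l 141908296087486511) (a (a (b (l 141908296086503471) (c (l 14) (l 141927056500768815))) (l 14)) (l 14)))))) (l 14))) (l 14))), by decide +kernel⟩

def k7_pm_102_a : ∃ t, chk3 f_pm_102_a t 32 127 3 = true :=
  ⟨(b (a (a (l 141692241983717423) (l 141721172891975727)) (a (l 141752027945959471) (l 141784875865194543))) (a (a (b (l 141915649011810351) (c (b (l 141805491713507375) (b (c (l 141885962232365103) (l 141792847323103279)) (a (c (a (l 141837446280118319) (l 141845005424787503)) (l 141838064738238511)) (a (c (l 141852633288966191) (l 141804117320007727)) (c (l 141905478568869935) (l 141811607745183791)))))) (b (l 141708597214920751) (c (a (l 141740414342742063) (l 141754639278653487)) (a (l 141690661423349807) (l 141704405322760239)))))) (a (b (l 141757525502312495) (b (l 141869675693097007) (c (a (c (a (l 141907402715103279) (l 141900118451716143)) (l 141815456037290031)) (b (l 141843974630850607)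 (c (a (l 141874348649955375) (l 141878334380785711)) (l 141827000912461871)))) (c (l 141814425227722799) (l 141718561539129391))))) (b (l 141772712511111215) (b (l 141885000140881967) (b (c (l 141856000542769199) (l 141755395191488559)) (a (c (c (a (l 141882388831092783) (l 141886512000876591)) (l 141834834935087151)) (l 141758762446323759)) (c (c (a (l 141935646427938863) (l 141939838317215791)) (l 141842806396698671)) (l 141856412824944687)))))))) (a (b (c (l 141845555181912111) (l 141746392939741231)) (c (b (l 141936608493584431) (b (a (l 141872424502444079) (l 141889329498554415)) (c (c (l 14) (a (a (l 141888642304147503) (l 141897026082734127)) (a (l 141905616019767343) (l 14)))) (a (a (l 141850915297296431) (l 141904172894126127)) (b (l 141869744439443503) (a (l 141869400841699375) (l 141922933316485167))))))) (b (l 141767764701642799) (c (a (a (l 141796214574170159) (l 141804117316272175)) (a (l 141812157497360431) (l 141820335117418543))) (a (l 141748248361697327) (l 141763778967896111)))))) (b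 (c (l 141880052369014831) (l 141778553664012335)) (c (c (l 14) (b (l 141878196938653743) (a (b (l 141881083156725807) (a (a (l 141882388826619951) (l 141886649435389999)) (a (l 141891047483129903) (l 141940456788148271)))) (b (l 141898744067211311) (c (l 14) (a (l 141888985897107503) (l 141897850712113199))))))) (b (l 141800200303886383) (b (c (l 141927606225731631) (l 141784394817011759)) (c (a (a (l 141832361029009455) (l 141840744807563311)) (a (l 141849266025087023) (l 141857993401057327))) (a (l 141783295304630319) (l 141844799240962095)))))))))), by decide +kernel⟩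

def k8_pm_102_a : ∃ t, chk3 f_pm_102_a t 33 127 3 = true :=
  ⟨(c (c (l 14) (a (b (l 141862941215080495) (a (b (l 141890910046912559) (b (l 141914343393525807) (a (a (b (l 141912281807913007) (c (l 14) (l 141906852966072367))) (l 14)) (l 14)))) (l 14))) (l 14))) (b (a (l 141786868725760047) (a (l 141842737675665455) (l 141882388824424495))) (b (a (a (l 141812707253518383) (l 141848784988799023)) (a (l 141886993028300847) (l 141927193933021231))) (a (b (a (l 141924651285889071) (c (l 141898331746238511) (l 141843287425613871))) (b (a (a (l 141836759075094575) (l 141854488705040431)) (a (l 141872699371405359) (l 141891459793715247))) (a (a (a (c (l 141911800753815599) (l 141812501090467887)) (c (b (l 141873798885244975) (l 141922589714546735)) (l 141821091027468335))) (c (a (a (l 141882457541607471) (l 141886993028333615)) (a (l 141891597234552879) (l 141896201440772143))) (c (l 141848097790394415) (l 141820335111962671)))) (c (c (l 14) (a (a (l 141889398209560623) (l 141898744060969007)) (a (l 141908227351347247)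 (l 14)))) (a (a (l 141847685472337967) (l 141856756445790255)) (a (l 141911044834951215) (a (l 141873042966233135) (l 141877715891945519)))))))) (c (l 14) (a (b (l 141881014428663855) (a (b (l 141882320098525231) (a (b (l 141883007293194287) (l 141931729403002927)) (a (l 141892078266482735) (l 141896888631181359)))) (c (l 14) (a (l 141886099669450799) (l 141940937814540335))))) (b (l 141920871735918639) (a (a (c (l 14) (l 141905822164598831)) (l 14)) (l 14))))))))), by decide +kernel⟩

def k9_pm_102_a : ∃ t, chk3 f_pm_102_a t 34 15 1 = true :=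
  ⟨(b (b (l 16570072) (b (l 16565984) (l 141674718573379631))) (a (b (b (l 141698976556482607) (l 141917504519782447)) (b (b (l 141927606304063535) (a (l 141949733981306927) (l 142221931845943343))) (b (a (b (l 142002441831071791) (l 142060441076908079)) (c (l 142543332911300783) (l 14))) (c (c (a (b (l 142634661119688879) (a (l 142648336298819759) (l 142690392626528431))) (b (l 142718430177624239) (c (l 142813744113352879) (l 142690942379704495)))) (b (l 142065801241165999) (b (a (l 142228597678866607) (l 142495847740326063)) (c (a (a (l 142468153788956847) (l 142511584506445999)) (a (l 142554465468022959) (l 142596865393164463))) (a (l 14) (a (l 14) (l 142472414392205487))))))) (l 14))))) (c (b (b (l 142324804926685359) (l 142445957389549743)) (b (b (l 142539896933859503) (l 142604218377584815)) (b (a (l 142627995322532015) (l 142710664868528303)) (b (a (l 142678229270626479) (l 142759799304814767)) (a (c (l 142833466604077231) (b (l 142580853749039279) (a (l 142396960429015215) (l 142618855627243695))))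 (c (l 142912494017167535) (a (l 142651703543087279) (l 142692591639412911)))))))) (b (l 142001548402638895) (c (c (b (l 142260346037092527) (b (l 142360882653020335) (a (l 14) (b (l 142455028355154095) (b (l 142480592006004911) (a (l 142476537556582575) (l 142518731323211951))))))) (l 14)) (l 14)))))), by decide +kernel⟩

def k10_pm_102_a : ∃ t, chk3 f_pm_102_a t 35 15 1 = true :=
  ⟨(b (b (l 16605880) (b (l 16621664) (b (l 16567112) (l 16583360)))) (a (b (b (l 142252099694444591) (l 142371671609458735)) (c (b (b (l 142706335537479855) (l 142768183079649455)) (b (a (l 142791341549289647) (l 142870025364816047)) (c (a (a (l 142954412905431215) (l 142992552222163119)) (l 143048970923098287)) (a (b (l 142720216873337007) (a (b (l 142724752360308911) (l 142741245016801455)) (l 142772856003264687))) (b (l 142799725322748079) (l 142831748562878639)))))) (b (l 142093357699072047) (c (b (l 142110812409299119) (a (b (l 142478599137558703) (a (b (l 142482722307686575) (c (b (l 142556252164407471) (l 142564635920924847))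 (l 14))) (c (l 142593291969183919) (a (l 142461762861170863) (l 142482722305491119))))) (b (l 142561818439418031) (b (l 142586351297970351) (c (l 142662423775936687) (a (l 142522236012265647) (l 142563398986498223))))))) (l 14))))) (b (b (l 142426097441620143) (c (l 142777803804033199) (l 142301715157958831))) (b (b (l 142090471561281711) (a (l 142110949971050671) (l 142731418141294767))) (c (b (a (l 142946785034584239) (l 143021620558626991)) (c (a (l 143122500776902831) (l 143194175204475055)) (a (b (l 142877309626433711) (l 142908576995147951)) (l 142968294231015599)))) (b (l 142157472980533423) (a (b (c (l 142643113595535535) (l 142404656957096111)) (c (a (c (l 142714169551306927) (l 142595903304777903)) (l 142694928091693231)) (c (b (l 142488975773958319) (a (b (l 142480591996649647) (l 142488769616183471)) (l 142525740701401263))) (l 14)))) (c (b (l 142722484605894831) (a (l 142734235639677103) (l 142772993431765167))) (b (l 142487738819887279) (c (a (l 142558313739141295) (l 142598445921009839))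 (a (l 14) (c (l 142510278812434607) (l 14))))))))))))), by decide +kernel⟩

def k11_pm_102_a : ∃ t, chk3 f_pm_102_a t 9 14 1 = true :=
  ⟨(a (b (a (l 16582872) (l 16613224)) (a (l 16611224) (a (l 16633864) (l 16647960)))) (b (a (l 16640952) (l 16666240)) (a (l 16667896) (l 16693448)))), by decide +kernel⟩

def k12_pm_102_a : ∃ t, chk3 f_pm_102_a t 9 30 1 = true :=
  ⟨(b (a (a (c (l 16665416) (l 16610176)) (l 16666416)) (a (l 16692888) (l 16718240))) (a (a (c (b (l 16679784) (l 142802130495684719)) (b (l 16625504) (l 142339648307560623))) (a (l 142773543170916463) (a (l 16689152) (l 16695752)))) (a (a (l 16705592) (l 16718464)) (l 16737648)))), by decide +kernel⟩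

def k13_pm_102_a : ∃ t, chk3 f_pm_102_a t 36 31 1 = true :=
  ⟨(a (b (b (l 142593635556475055) (c (l 142933384727707823) (l 142472964125376687))) (b (c (a (l 143007807938445487) (l 143083055778906287)) (a (l 142548761726501039) (l 142631018955047087))) (c (a (b (l 143094669375881391) (c (l 143263994205782191) (l 143041686645801135))) (b (l 143167924351172783) (c (a (l 143316702053859503) (l 143357040392700079)) (a (b (l 143081543949009071) (l 143112055403167919)) (l 143139474477678767))))) (a (b (l 142639196577874095) (c (a (l 142796083179667631) (l 142834153776824495)) (b (l 142568896536936623) (b (l 142592055005773999) (c (l 142665516121538735) (a (l 142529176671158447) (l 142569171414024367))))))) (b (b (l 142704480091979951) (a (l 142713757224370351) (l 142754782759125167))) (a (b (c (l 142857312244089007) (l 142628888651120815)) (c (a (l 142877515775197359) (l 142899024974938287)) (a (b (l 142641464318673071) (c (l 142714375699955887) (b (l 142595078661374127) (a (l 142597758721786031) (l 142608272803578031)))))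 (b (l 142662698640654511) (b (l 142675617904951471) (l 142684963755622575)))))) (b (c (l 142900055765663919) (b (l 142664554065264815) (l 142682077535371439))) (c (l 142935033986138287) (c (l 142766739949043887) (a (l 142639883767234735) (c (l 142694996798095535) (l 142638165778055343)))))))))))) (b (b (l 142760898791932015) (c (l 143089377966571631) (l 142642082787377327))) (b (c (a (l 143160571361657007) (b (l 143211492500684911) (l 143272515407757423))) (a (b (l 142685376069288111) (l 142744062515200175)) (b (l 142771550307631279) (l 142837383579500719)))) (b (c (a (l 143249494382706863) (l 143337249166721135)) (a (a (b (l 142767083546050735) (l 142800549938004143)) (l 142832779376738479)) (l 142908095934677167))) (c (c (l 143464792546639983) (a (l 143207850366730415) (l 143299384722718895))) (b (c (l 143021276940665007) (a (l 142750797022331055) (l 142854769606721711))) (b (c (l 143048421096177839) (a (l 142779178171711663) (l 142883219475611823))) (a (c (l 143017840968188079) (c (a (l 142827762854052015)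 (l 142879165030498479)) (b (l 142738015195414703) (a (c (l 142749079035216047) (a (l 142679672349032623) (a (l 142699807158845615) (l 142713207458906287)))) (c (l 142801718162555055) (b (l 142744268667142319) (a (a (l 142729081660604591) (l 142742413241188527)) (a (l 142755813541232815) (l 142769145121816751))))))))) (c (l 143115353920192687) (a (c (l 142930361048531119) (b (l 142817386203447471) (c (l 142854219850940591) (a (a (l 142780071520239791) (l 142793334381346991)) (l 142813331752206511))))) (c (l 142981282188640431) (a (l 142861778992562351) (l 142888029836804271))))))))))))), by decide +kernel⟩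

def k14_pm_102_a : ∃ t, chk3 f_pm_102_a t 37 31 1 = true :=
  ⟨(a (b (b (a (l 142882669725630575) (l 142964308477542511)) (a (a (l 142969531163770991) (l 143012755721420911)) (l 143081406488952943))) (c (b (l 143372021222490223) (c (l 143602987431510255) (b (l 143366729816653935) (l 143435036989259887)))) (b (l 142951320488018095) (c (a (b (l 143113086173167791) (l 143184623162065071)) (l 143244340394999983)) (b (l 142952969752232111) (b (l 142828862388142255) (a (a (c (l 143022582600188079) (l 142917647935586479)) (l 143021483084791983)) (l 143097967874474159)))))))) (b (b (l 143096456051671151) (l 143217196195233903)) (c (b (l 143544369694540015) (c (l 143770319380431087) (l 143578454556721391))) (b (l 143146689990770863) (b (l 143252792883331247) (c (l 143421705392963759) (a (l 143180018942050479) (l 143280005796724911)))))))), by decide +kernel⟩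

def k15_pm_102_a : ∃ t, chk3 f_pm_102_a t 19 31 1 = true :=
  ⟨(c (b (a (l 143612814295843055) (l 143932772226924783)) (b (a (l 143795333259870447) (l 144114603996397807)) (a (a (b (l 143809558197453039) (l 143876147382747375)) (b (l 143973591612555503) (l 144039905919959279))) (b (l 144210467684434159) (a (l 144198854093504751) (l 144352648305901871)))))) (b (a (a (l 143138787242492015) (l 143325360651665519)) (l 143596252873015535)) (a (b (a (l 143338005044215919) (l 143524715892490351)) (b (a (l 143444039217381487) (l 143630612626751599)) (a (c (l 143606629533630703) (c (l 143472420365435055) (a (l 143333332116504751) (l 143432631776690351)))) (b (l 143685038462926959) (c (l 143804885256012015) (b (l 143629925429641327) (c (l 143689986265121007) (a (l 143559487952634031) (l 143656176272523439))))))))) (c (b (l 143873948334981359) (a (a (l 143883225470304495) (l 143969537147060463)) (a (l 144054543153643759) (l 144138106051100911)))) (b (l 143717474051752175) (b (l 143825363651576047) (a (b (l 143789217202389231)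 (a (c (l 143819316341391599) (a (l 143718229970141423) (l 143765577697591535))) (c (l 143910026065789167) (a (l 143812581827625199) (l 143859173640782063))))) (b (l 143971255127032047) (a (c (l 143999361400553711) (a (l 143905421856506095) (l 143951326474830063))) (c (l 144087184906682607) (a (l 143996818776244463) (l 144041967480242415)))))))))))), by decide +kernel⟩

def k16_pm_102_a : ∃ t, chk3 f_pm_102_a t 5 6 1 = true :=
  ⟨(a (b (a (l 16643920) (l 16674976)) (a (b (l 16664296) (l 16679616)) (b (l 16697728) (l 16717520)))) (b (l 16774728) (a (l 16840752) (l 16782712)))), by decide +kernel⟩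

def k17_pm_102_a : ∃ t, chk3 f_pm_102_a t 10 7 1 = true :=
  ⟨(b (a (b (l 16700920) (c (l 16747520) (l 16709824))) (b (l 16739576) (l 16768192))) (b (a (a (b (l 16742800) (l 16762432)) (c (l 16790648) (l 16760240))) (a (b (l 16785312) (l 16805184)) (l 16854960))) (a (b (a (c (l 144231564557271343) (l 143937926168264943)) (c (l 16820472) (b (l 16788248) (l 16800544)))) (b (a (a (l 144194799628435695) (l 144345707623940399)) (a (c (l 16832408) (l 144366804501578031)) (l 144587531507597615))) (a (c (a (a (l 144431950593179951) (l 144504243493962031)) (b (l 144575917918224687) (l 144640376799740207))) (b (a (l 144158240856670447) (l 144319662935032111)) (a (c (a (l 144255272779415855) (l 144335193544196399)) (b (l 144147039578669295) (a (c (l 144173565303652591) (a (l 144086703867347183) (l 144131027937525999))) (c (l 144257815396581679) (a (l 144174733532348655) (l 144217820651782383)))))) (b (l 144372714381656367) (c (l 144467890876580143) (a (a (l 144289632518619439) (l 144330726772867375)) (a (l 144371133832249647)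 (l 144410991135736111)))))))) (b (a (c (l 606908112792289320824111) (l 144469402700923183)) (l 144684494708457775)) (c (a (l 607175302414753644324143) (l 607543372693266487862639)) (b (a (l 144521973111177519) (l 144637559295721775)) (a (c (l 144610896132210991) (a (l 144469608859697455) (l 144542107921088815))) (a (l 144646561548255535) (l 144698719643074863))))))))) (b (a (c (l 16837864) (l 16817328)) (l 145056748125012335)) (a (c (b (l 16854456) (a (l 144897525132575087) (l 16875328))) (b (l 144636734665556271) (a (a (a (l 144684907026448687) (l 144710195799638319)) (l 144747441764483375)) (b (l 16851584) (l 144853956976722287))))) (c (a (b (l 16865872) (l 16877480)) (l 16878832)) (b (l 16856784) (a (l 144912024948261231) (l 16874808))))))))), by decide +kernel⟩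

def k18_pm_102_a : ∃ t, chk3 f_pm_102_a t 11 7 1 = true :=
  ⟨(b (a (b (l 16772952) (l 16802192)) (b (l 16805368) (a (l 16826552) (l 16861072)))) (b (a (a (l 16830016) (l 16846552)) (a (b (l 16852112) (a (l 16867064) (l 16869864))) (b (l 16879816) (l 16867984)))) (a (b (a (l 16861752) (b (l 16872112) (l 16881864))) (a (a (c (l 16885952) (l 16877824)) (b (l 16883296) (b (l 16892344) (l 16919072)))) (a (b (l 16890048) (a (l 16898864) (l 16899360))) (b (l 16892072) (a (a (l 16899296) (l 16898880)) (l 16897760)))))) (b (a (a (b (l 16879032) (l 16884936)) (l 16880296)) (l 16876912)) (a (b (a (l 16890328) (l 16887472)) (l 16914760)) (l 16928352)))))), by decide +kernel⟩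

def k19_pm_102_a : ∃ t, chk3 f_pm_102_a t 6 2 1 = true :=
  ⟨(a (b (l 16741344) (a (l 16723752) (l 16741080))) (b (a (l 16773784) (b (l 16750648) (l 16930592))) (a (b (l 16760440) (l 16836616)) (b (a (l 16773288) (l 16767680)) (l 16770144))))), by decide +kernel⟩

def k20_pm_102_a : ∃ t, chk3 f_pm_102_a t 14 2 1 = true :=
  ⟨(a (b (a (b (l 16725400) (l 16740728)) (b (l 16706416) (l 16722696))) (b (l 16747912) (a (l 16768192) (l 16756232)))) (b (a (b (a (b (l 16687424) (l 16695176)) (b (l 16678120) (l 16685520))) (a (l 16707928) (l 16697496))) (b (a (b (a (l 16671304) (l 16656328)) (l 16676128)) (b (b (a (c (l 16656624) (l 89824969383)) (a (c (b (l 162302548119) (l 101636134119)) (b (l 157470706023) (l 105931097543))) (l 176261187575))) (a (l 16663928) (c (a (l 16661768) (l 109152326983)) (a (l 16659144) (l 113984160903))))) (a (l 16669240) (c (l 16666208) (l 16662912))))) (a (b (l 16683840) (l 16692008)) (b (a (l 16676752) (l 16671976)) (l 16682472))))) (a (b (l 16720904) (l 16740056)) (b (a (l 16705984)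 (b (l 16691432) (l 16700688))) (b (l 16716080) (l 16726616)))))), by decide +kernel⟩

def k21_pm_102_a : ∃ t, chk3 f_pm_102_a t 15 2 1 = true :=
  ⟨(b (a (a (b (a (b (a (b (l 3) (a (l 140827709079) (l 3))) (l 3)) (c (a (b (l 120963491815) (l 108078594455)) (l 146196419927)) (a (b (a (l 107004841527) (l 171966221639)) (l 16660088)) (l 175187444711)))) (l 3)) (a (b (a (b (l 16665136) (l 16668992)) (b (a (l 108615467735) (l 141901460903)) (c (l 16665528) (l 16662480)))) (a (l 16675104) (b (l 16667936) (l 16672112)))) (b (a (b (l 3) (l 144585812087)) (l 3)) (a (b (a (l 16664072) (l 137606500599)) (l 16666912)) (b (l 3) (l 125258464711)))))) (l 3)) (l 3)) (a (a (b (a (b (l 16681304) (a (l 16693512) (l 16688200))) (b (a (l 16673496) (b (l 106467995831) (l 16670392))) (a (l 16682944) (l 16677592)))) (a (b (l 16721912) (l 16711752)) (b (l 16690568) (a (l 16704224) (l 16699208))))) (b (a (b (a (b (l 131700914887) (l 119352898503)) (l 3)) (a (b (l 95193713031) (l 16674624)) (b (l 131700922247) (l 110226101319))))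 (l 3)) (a (b (a (l 16682488) (b (l 96267462839) (l 16679760))) (a (l 16693672) (l 16688304))) (b (a (b (l 131700931511) (a (l 16675840) (l 130627201863))) (l 3)) (a (b (a (l 16681352) (l 16678792)) (l 16685888)) (b (l 132237813735) (a (l 16682024) (l 131164085655)))))))) (l 3))), by decide +kernel⟩

def k22_pm_102_a : ∃ t, chk3 f_pm_102_a t 6 3 1 = true :=
  ⟨(b (b (a (a (l 16746088) (l 16845840)) (a (l 16845800) (l 16756688))) (a (a (b (l 16773400) (l 16798768)) (b (l 16784872) (l 16802216))) (a (l 16783360) (l 16790080)))) (a (b (a (b (a (l 16845504) (l 16889928)) (a (l 16950176) (l 16843616))) (b (l 16819904) (l 16901616))) (a (b (l 16880280) (b (l 16893032) (a (l 16882960) (l 16880112)))) (b (l 16895000) (b (l 16886552) (a (l 16876736) (l 16872424)))))) (b (a (b (l 16806728) (l 16887296)) (a (l 16864512) (l 16834568))) (b (a (a (l 16845200) (l 16838072)) (a (b (l 16824816) (l 16832552)) (b (l 16813824) (l 16822888)))) (a (a (b (l 16857592) (l 16866800)) (b (l 16850080) (b (l 16856936) (l 16861768))))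 (b (a (l 16841112) (a (l 16834288) (b (l 16827792) (l 16833840)))) (a (a (b (l 16850392) (l 16855296)) (b (l 16845928) (c (l 16859456) (l 16844344)))) (a (b (l 16842680) (b (l 16847568) (a (l 16851488) (l 16850320)))) (b (l 16840192) (c (l 16854064) (l 16839792))))))))))), by decide +kernel⟩

def k23_pm_102_a : ∃ t, chk3 f_pm_102_a t 7 6 1 = true :=
  ⟨(a (a (b (a (l 16769552) (l 16769640)) (b (l 16760128) (l 16761936))) (b (a (l 16759216) (l 16764032)) (a (b (l 16769912) (l 16766880)) (b (l 16759304) (a (l 16770400) (l 16766304)))))) (a (a (b (b (a (l 16723184) (a (l 16715760) (l 16710592))) (l 16730232)) (b (l 16742712) (l 16755688))) (b (a (b (a (l 16726696) (l 16700312)) (a (l 16717840) (b (l 16709824) (l 16716072)))) (b (b (a (l 16691928) (a (l 16688016) (l 92509388567))) (a (l 16698144) (l 16692992))) (a (b (l 16704552) (l 16711176)) (b (l 16699456) (l 16706064))))) (a (b (l 16728504) (l 16742440)) (b (a (b (l 16717712) (l 16724480)) (b (l 16712776) (l 16719744))) (a (l 16735360) (b (l 16726736) (l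 16734368))))))) (b (a (a (b (a (b (l 132774698103) (a (l 89825040359) (l 131164100183))) (l 3)) (b (a (b (l 84993206727) (l 16696128)) (a (l 131700978919) (l 3))) (a (l 16701160) (a (c (l 16698768) (l 16696624)) (l 133311601319))))) (l 3)) (l 3)) (a (b (a (a (b (l 16707960) (l 16714936)) (b (a (l 16704448) (a (l 16702728) (l 93583160519))) (b (l 16708568) (l 16712160)))) (a (b (b (l 153712693927) (l 141901540407)) (a (b (l 98415008135) (l 16708880)) (b (l 151565221687) (l 133311618759)))) (l 3))) (a (b (a (b (l 16720280) (l 16724032)) (l 16717728)) (a (l 16750736) (l 16725456))) (a (a (b (l 16714488) (l 16722160)) (b (b (l 85530112375) (l 16714216)) (l 16720008))) (b (a (b (l 149954619319) (l 131701016919)) (l 3)) (a (b (c (l 88214480967) (l 16715184)) (l 16719824)) (b (l 148344017463) (c (l 126869190183) (l 131701027031)))))))) (l 3))))), by decide +kernel⟩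

def k24_pm_102_a : ∃ t, chk3 f_pm_102_a t 14 7 1 = true :=
  ⟨(b (a (b (l 16876632) (a (l 16790880) (l 16845624))) (b (a (l 16785256) (b (l 16770312) (l 16765280))) (a (l 16776640) (l 16792416)))) (a (b (a (b (l 16804128) (b (l 16875096) (l 16817792))) (b (l 16797184) (b (l 16805712) (l 16812040)))) (b (a (a (l 16828120) (l 16825256)) (l 16820664)) (a (b (l 16836024) (a (c (l 16851048) (l 16837272)) (c (l 16847736) (l 16834464)))) (b (a (l 16831344) (l 16828112)) (a (c (l 16844200) (l 16831464)) (b (l 16832800) (c (l 16842192) (l 16830000)))))))) (b (a (b (l 16790928) (a (l 16803792) (l 16800728))) (b (l 16784472) (l 16795456))) (b (a (b (a (l 16813224) (l 16809968)) (l 16817240)) (b (a (l 16806280) (l 16802560)) (a (l 16812232) (l 16808824)))) (b (a (a (l 16824856) (l 16821504)) (a (l 16818008) (l 16814320))) (a (a (b (l 16829472) (c (l 16838464) (l 16826960))) (b (l 16826040) (c (l 16834592) (l 16823856)))) (a (a (c (l 16830008) (l 16819976)) (c (l 16827936) (l 16818336))) (a (c (l 16825800) (l 16816656))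 (c (l 16823608) (l 16814936)))))))))), by decide +kernel⟩

def k25_pm_102_a : ∃ t, chk3 f_pm_102_a t 15 14 1 = true :=
  ⟨(a (a (b (a (l 16770264) (l 16806912)) (a (l 16768480) (b (l 16771928) (l 16769360)))) (b (a (l 16757240) (b (l 16744544) (l 16752568))) (a (b (l 16767992) (l 16772544)) (a (b (l 16762592) (l 16770000)) (l 16762680))))) (a (a (b (a (b (l 16737824) (l 16746016)) (b (a (l 16734440) (l 16732320)) (l 16741616))) (b (a (l 16754328) (l 16750056)) (a (l 16762768) (l 16758672)))) (b (a (b (l 16729056) (a (b (l 16736296) (l 16740448)) (b (l 16734136) (l 16738344)))) (b (a (l 16725856) (b (c (l 89288234151) (l 87140746199)) (l 16725760))) (b (l 16730952) (l 16735152)))) (a (b (b (l 16743600) (l 16747928)) (l 16754512)) (b (a (b (l 16740464) (l 16744760)) (b (l 16738352) (l 16742688))) (b (a (l 16749152) (l 16747072)) (l 6)))))) (a (b (a (b (a (b (l 146196545335) (a (a (l 16724448) (l 100562525111)) (l 141364714055))) (l 3)) (a (b (a (l 16728328) (a (l 16727552) (l 97341305671))) (l 16732016))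 (b (c (l 141901591719) (l 147270298183)) (c (a (l 95730703543) (l 137606631607)) (a (l 94120086791) (l 142975338215)))))) (l 3)) (a (b (a (b (l 16736272) (l 16740608)) (a (b (l 16734728) (l 16739072)) (b (b (l 115058058743) (l 16734776)) (l 16738048)))) (a (b (l 16745016) (l 6)) (l 6))) (b (a (a (b (b (l 3) (l 135459156119)) (a (l 16737288) (l 6))) (b (l 3) (l 6))) (l 3)) (l 6)))) (l 3)))), by decide +kernel⟩

def k26_pm_102_a : ∃ t, chk3 f_pm_102_a t 15 15 1 = true :=
  ⟨(a (b (a (b (l 16777624) (a (l 16789864) (l 16785872))) (a (b (l 16772576) (l 16781648)) (b (a (l 16771544) (l 16794208)) (l 16777240)))) (a (b (b (l 16796584) (a (b (l 16803224) (l 16806360)) (l 16821360))) (b (a (l 16810432) (b (l 16804944) (l 6))) (a (b (l 16814696) (c (l 16832168) (l 16824144))) (l 6)))) (b (a (b (l 16789960) (l 6)) (l 6)) (l 6)))) (a (b (a (b (a (b (l 16769000) (l 16772672)) (l 16767416)) (l 6)) (l 6)) (l 6)) (l 6))), by decide +kernel⟩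

theorem s27_pm_102_a : ∃ t, chk3 f_pm_102_a t 15 7 1 = true := ex3_b k25_pm_102_a k26_pm_102_a

theorem s28_pm_102_a : ∃ t, chk3 f_pm_102_a t 7 7 1 = true := ex3_a k24_pm_102_a s27_pm_102_a

theorem s29_pm_102_a : ∃ t, chk3 f_pm_102_a t 7 3 1 = true := ex3_b k23_pm_102_a s28_pm_102_a

theorem s30_pm_102_a : ∃ t, chk3 f_pm_102_a t 3 3 1 = true := ex3_a k22_pm_102_a s29_pm_102_a

theorem s31_pm_102_a : ∃ t, chk3 f_pm_102_a t 7 2 1 = true := ex3_a k20_pm_102_a k21_pm_102_a

theorem s32_pm_102_a : ∃ t, chk3 f_pm_102_a t 3 2 1 = true := ex3_a k19_pm_102_a s31_pm_102_a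

theorem s33_pm_102_a : ∃ t, chk3 f_pm_102_a t 3 1 1 = true := ex3_b s32_pm_102_a s30_pm_102_a

theorem s34_pm_102_a : ∃ t, chk3 f_pm_102_a t 5 7 1 = true := ex3_a k17_pm_102_a k18_pm_102_a

theorem s35_pm_102_a : ∃ t, chk3 f_pm_102_a t 5 3 1 = true := ex3_b k16_pm_102_a s34_pm_102_a

theorem s36_pm_102_a : ∃ t, chk3 f_pm_102_a t 18 31 1 = true := ex3_a k13_pm_102_a k14_pm_102_a

theorem s37_pm_102_a : ∃ t, chk3 f_pm_102_a t 9 31 1 = true := ex3_a s36_pm_102_a k15_pm_102_a

theorem s38_pm_102_a : ∃ t, chk3 f_pm_102_a t 9 15 1 = true := ex3_b k12_pm_102_a s37_pm_102_a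

theorem s39_pm_102_a : ∃ t, chk3 f_pm_102_a t 9 7 1 = true := ex3_b k11_pm_102_a s38_pm_102_a

theorem s40_pm_102_a : ∃ t, chk3 f_pm_102_a t 17 15 1 = true := ex3_a k9_pm_102_a k10_pm_102_a

theorem s41_pm_102_a : ∃ t, chk3 f_pm_102_a t 16 127 3 = true := ex3_a k7_pm_102_a k8_pm_102_a

theorem s42_pm_102_a : ∃ t, chk3 f_pm_102_a t 16 127 1 = true := ex3_c k6_pm_102_a s41_pm_102_a

theorem s43_pm_102_a : ∃ t, chk3 f_pm_102_a t 16 63 1 = true := ex3_b k5_pm_102_a s42_pm_102_a

theorem s44_pm_102_a : ∃ t, chk3 f_pm_102_a t 16 31 1 = true := ex3_b k4_pm_102_a s43_pm_102_a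

theorem s45_pm_102_a : ∃ t, chk3 f_pm_102_a t 16 15 1 = true := ex3_b k3_pm_102_a s44_pm_102_a

theorem s46_pm_102_a : ∃ t, chk3 f_pm_102_a t 8 15 1 = true := ex3_a s45_pm_102_a s40_pm_102_a

theorem s47_pm_102_a : ∃ t, chk3 f_pm_102_a t 8 7 1 = true := ex3_b k2_pm_102_a s46_pm_102_a

theorem s48_pm_102_a : ∃ t, chk3 f_pm_102_a t 4 7 1 = true := ex3_a s47_pm_102_a s39_pm_102_a

theorem s49_pm_102_a : ∃ t, chk3 f_pm_102_a t 4 3 1 = true := ex3_b k1_pm_102_a s48_pm_102_a

theorem s50_pm_102_a : ∃ t, chk3 f_pm_102_a t 2 3 1 = true := ex3_a s49_pm_102_a s35_pm_102_a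

theorem s51_pm_102_a : ∃ t, chk3 f_pm_102_a t 2 1 1 = true := ex3_b k0_pm_102_a s50_pm_102_a

theorem s52_pm_102_a : ∃ t, chk3 f_pm_102_a t 1 1 1 = true := ex3_a s51_pm_102_a s33_pm_102_a

theorem c_pm_102_a : CertB 536870912 536870912 0 536870912 536870912 50465866 3 eng mog cd0q1 cd3q2a pd0 false true false .npp 1 0 2
    ndB0q1 ndB3q2a pcB0 cut_pm_102_a xt_pm_102_a :=
  certB0 (fam := false) (s1 := true) (s2 := false) (a := 1) (b := 0) (c := 2) (cn := .npp) (n1 := ndB0q1) (n2 := ndB3q2a) (pc := pcB0) (cut := cut_pm_102_a) (xt := xt_pm_102_a) (P1 := 536870912) (W1 := 536870912) (P2 := 0) (W2 := 536870912) (P3 := 536870912) (W3 := 50465866) (N0 := 3) (En := eng) (mo := mog) (C1 := cd0q1) (C2 := cd3q2a) (C3 := pd0)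
    rfl s52_pm_102_a

noncomputable def cut_pm_102_b : Cut := Cut.of [[⟨0, 1, 0, 67108864⟩, ⟨1, 0, 0, 67108864⟩, ⟨2, 1, 0, 67108864⟩], [⟨0, 0, 1, 20971520⟩, ⟨1, 1, 2, 20971520⟩, ⟨2, 1, 0, 33554432⟩]]

noncomputable def xt_pm_102_b : Ext := extD2 3 ⟨7, 3, 3, 10, 1741, 1000, 23, 25, 19, 50, 3, 16⟩ eng cd0q1 cd3q2b pd0 false true false .npp 1 0 2 rfl ndB0q1 ndB3q2b pcB0

noncomputable def f_pm_102_b : ℕ → ℕ → ℕ → ℕ → Bool := onCell 536870912 536870912 0 536870912 536870912 50465866
    (rowB 3 eng mog cd0q1 cd3q2b pd0 1 false true false .npp 1 0 2 (qsf 536870912 536870912 1239849684 370763052 0) ndB0q1 ndB3q2b pcB0 cut_pm_102_b xt_pm_102_b)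

def k0_pm_102_b : ∃ t, chk3 f_pm_102_b t 2 1 1 = true :=
  ⟨(b (l 1) (b (l 1) (a (l 1) (a (b (l 1) (a (l 344167690359) (l 16820144))) (b (l 236257137159) (a (l 16694152) (l 16759832))))))), by decide +kernel⟩

def k1_pm_102_b : ∃ t, chk3 f_pm_102_b t 3 2 1 = true :=
  ⟨(a (l 1) (b (l 1) (a (b (l 1) (a (a (l 1) (b (l 1) (l 55331194615))) (a (b (l 1) (a (b (l 1) (l 16685728)) (b (l 47278021639) (l 16670512)))) (a (b (l 1) (b (c (a (l 16694328) (b (l 16668528) (l 16662312))) (b (l 34929953191) (l 16662984))) (c (l 16657368) (l 16653648)))) (a (b (l 1) (b (b (b (a (l 1) (c (l 53720412023) (a (l 16658944) (l 50499182807)))) (c (l 16658960) (l 16656648))) (a (l 16665512) (c (l 16652480) (l 16650040)))) (c (b (l 16648608) (l 16642912)) (l 16663672)))) (a (b (l 1) (b (b (c (l 401746969623) (l 410873781687)) (c (l 123110964391) (l 126332186551))) (c (b (l 129553404455) (l 16637176)) (l 132774632535)))) (l 3))))))) (b (l 3) (l 3))))), by decide +kernel⟩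

def k2_pm_102_b : ∃ t, chk3 f_pm_102_b t 6 3 1 = true :=
  ⟨(b (a (b (l 1) (b (l 207802779687) (a (l 16743240) (l 16770032)))) (b (a (b (l 1) (l 138546395447)) (b (l 97207218743) (l 16826776))) (a (b (l 16769992) (l 16760824)) (b (l 16726664) (l 16715336))))) (a (b (a (l 16760504) (l 16775496)) (a (l 16784200) (l 16779704))) (b (a (l 16751984) (l 16705080)) (a (l 16750880) (l 16701104))))), by decide +kernel⟩

def k3_pm_102_b : ∃ t, chk3 f_pm_102_b t 14 3 1 = true :=
  ⟨(a (b (b (b (a (l 16722368) (l 16712360)) (a (l 16700288) (l 16670040))) (b (l 16689408) (l 16656400))) (b (a (l 16659880) (l 16625680)) (b (l 16635704) (l 16641512)))) (b (b (a (b (a (l 16668104) (l 16674104)) (a (l 16647176) (l 16632016))) (b (a (b (c (l 16646064) (l 16641824)) (l 16632920)) (a (b (c (l 16634584) (l 16631024)) (c (l 16623784) (l 16619856))) (b (c (a (l 86066842679) (l 140290797943)) (a (l 16625656) (l 137606438391))) (c (b (l 126332128103) (l 124721503911)) (l 127405871415))))) (a (b (l 16622304) (l 16611928)) (a (b (c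 (l 16613136) (l 16609016)) (l 16600512)) (b (c (b (l 16608136) (l 16602736)) (l 16601872)) (c (b (l 16597280) (l 16591736)) (l 16591000))))))) (a (b (a (l 16629400) (l 16613264)) (a (l 16615640) (l 16597456))) (b (c (a (l 16599456) (b (l 16587680) (l 16577272))) (a (l 16594584) (b (l 16584104) (l 16573984)))) (a (l 16599968) (b (l 16565304) (l 16555280)))))) (b (a (b (b (l 16597000) (l 16591528)) (l 16585656)) (b (a (l 16563784) (b (l 16546832) (l 16540664))) (b (l 16547120) (l 16545616)))) (a (b (b (l 16582288) (l 16583368)) (l 16601728)) (b (a (l 16560064) (c (l 16549976) (l 16544024))) (c (l 16599184) (l 16581928))))))), by decide +kernel⟩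

def k4_pm_102_b : ∃ t, chk3 f_pm_102_b t 120 3 1 = true :=
  ⟨(b (b (b (l 3) (a (a (b (c (c (l 136532630775) (l 139753871207)) (l 137069515159)) (c (b (l 140827588663) (l 16585792)) (l 142975074535))) (l 3)) (l 3))) (b (a (b (a (c (l 114520892631) (l 16574608)) (c (l 137069447639) (l 140290686871))) (b (c (l 142975019671) (l 142975017863)) (c (l 143511876407) (l 16558888)))) (l 3)) (a (b (c (b (l 16554720) (l 16548912)) (l 93582870951)) (c (l 16540640) (l 16539856))) (a (b (c (b (l 141364364183) (l 143511839927)) (l 144048728455)) (c (b (l 144585569095) (l 145122426567)) (b (l 143511829815) (l 16530392)))) (l 3))))) (b (b (a (b (c (l 16531312) (l 16531024)) (l 16525104)) (b (b (c (a (l 16525320) (l 145122405767)) (l 144048673319)) (a (l 16521888) (c (l 146196138343) (l 145122402967)))) (b (a (l 16518616) (c (l 146733001143) (l 145122394423))) (c (l 3010225290982130569192767519) (l 93045909687))))) (a (b (l 16521680) (l 16521248)) (b (a (l 16513936) (c (l 141577136729784351) (a (l 16510200) (l 141651697362190367))))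 (a (c (l 16513248) (l 16513584)) (b (l 141700075875483679) (l 141701381548064799)))))) (b (b (a (l 16528840) (c (l 141185160868266015) (l 141386371489415199))) (c (l 141739383503568927) (l 16541472))) (b (b (l 16564616) (l 16577424)) (l 16597288))))), by decide +kernel⟩

def k5_pm_102_b : ∃ t, chk3 f_pm_102_b t 121 3 1 = true :=
  ⟨(b (l 3) (a (b (b (b (l 3) (b (l 3) (b (l 3) (l 2700740281160784538374963231)))) (b (b (c (l 2691068874603618809191776287) (l 2778111533616011060553695263)) (c (l 2739425907388193805695025183) (a (l 2894168412298986324269727775) (l 3)))) (b (c (l 2845811379514281928981676063) (a (l 141493161521545247) (l 3))) (a (c (l 141232783425912863) (l 141314353446453279)) (b (l 2536326369692998501626904607) (l 2526654963136096036758667295)))))) (b (b (b (c (a (l 141320469497905183) (l 2749097313945149322020782111)) (a (l 141369260322406431) (l 2391255271339063436678021151))) (a (l 141438804456833055) (c (l 141293119166054431) (l 2333226831997628856270553119)))) (b (c (l 141526559257591839)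 (l 1230686484509192258473558047)) (c (l 141656301658505247) (l 141588338070388767)))) (b (b (c (l 141795596068765727) (l 141685163836293151)) (c (l 141944511207342111) (l 141793878073098271))) (c (l 142181249854636063) (l 141977977589809183))))) (b (l 3) (b (b (l 3) (a (c (b (l 2575011995920630832438804511) (l 2613697622148442795926126623)) (b (l 2507312150022182805159624735) (l 2458955117237672267541020703))) (l 3))) (b (a (c (b (l 2652383248376244176616636447) (l 141878471786856479)) (b (a (l 141628813860503583) (l 2487969336908520880689905695)) (a (l 141739864560386079) (l 1511157274660006198103670815)))) (b (l 3) (c (l 2778111533616282571363745823) (l 2575011995920788749816659999)))) (b (a (c (l 142039069238378527) (l 141854763551227935)) (c (l 2700740281161005265490837535) (l 2526654963136299309082525727))) (a (l 142091639601168415) (c (l 2681397468047239986923356191) (l 2478297930351848282536706079))))))))), by decide +kernel⟩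

def k6_pm_102_b : ∃ t, chk3 f_pm_102_b t 61 3 1 = true :=
  ⟨(b (l 3) (b (l 3) (l 3))), by decide +kernel⟩

def k7_pm_102_b : ∃ t, chk3 f_pm_102_b t 31 3 1 = true :=
  ⟨(l 3), by decide +kernel⟩

theorem s8_pm_102_b : ∃ t, chk3 f_pm_102_b t 60 3 1 = true := ex3_a k4_pm_102_b k5_pm_102_b

theorem s9_pm_102_b : ∃ t, chk3 f_pm_102_b t 30 3 1 = true := ex3_a s8_pm_102_b k6_pm_102_b

theorem s10_pm_102_b : ∃ t, chk3 f_pm_102_b t 15 3 1 = true := ex3_a s9_pm_102_b k7_pm_102_b

theorem s11_pm_102_b : ∃ t, chk3 f_pm_102_b t 7 3 1 = true := ex3_a k3_pm_102_b s10_pm_102_b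

theorem s12_pm_102_b : ∃ t, chk3 f_pm_102_b t 3 3 1 = true := ex3_a k2_pm_102_b s11_pm_102_b

theorem s13_pm_102_b : ∃ t, chk3 f_pm_102_b t 3 1 1 = true := ex3_b k1_pm_102_b s12_pm_102_b

theorem s14_pm_102_b : ∃ t, chk3 f_pm_102_b t 1 1 1 = true := ex3_a k0_pm_102_b s13_pm_102_b

theorem c_pm_102_b : CertB 536870912 536870912 1239849684 370763052 536870912 50465866 3 eng mog cd0q1 cd3q2b pd0 false true false .npp 1 0 2
    ndB0q1 ndB3q2b pcB0 cut_pm_102_b xt_pm_102_b :=
  certB1 (fam := false) (s1 := true) (s2 := false) (a := 1) (b := 0) (c := 2) (cn := .npp) (n1 := ndB0q1) (n2 := ndB3q2b) (pc := pcB0) (cut := cut_pm_102_b) (xt := xt_pm_102_b) (P1 := 536870912) (W1 := 536870912) (P2 := 1239849684) (W2 := 370763052) (P3 := 536870912) (W3 := 50465866) (N0 := 3) (En := eng) (mo := mog) (C1 := cd0q1) (C2 := cd3q2b) (C3 := pd0)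
    rfl (fun _ => rfl) s14_pm_102_b

noncomputable def cut_pm_112_a : Cut := Cut.of [[⟨0, 0, 1, 20971520⟩, ⟨1, 1, 2, 20971520⟩, ⟨2, 1, 0, 33554432⟩]]

noncomputable def xt_pm_112_a : Ext := extD2 3 ⟨7, 3, 3, 10, 1741, 1000, 23, 25, 19, 50, 3, 16⟩ eng cd0q1 cd3q2a pd1 false true false .dn 1 1 2 rfl ndB0q1 ndB3q2a pcB1

noncomputable def f_pm_112_a : ℕ → ℕ → ℕ → ℕ → Bool := onCell 536870912 536870912 0 536870912 536870912 50465866
    (rowB 3 eng mog cd0q1 cd3q2a pd1 2 false true false .dn 1 1 2 (qsf 536870912 536870912 0 536870912 1) ndB0q1 ndB3q2a pcB1 cut_pm_112_a xt_pm_112_a)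

def k0_pm_112_a : ∃ t, chk3 f_pm_112_a t 1 1 1 = true :=
  ⟨(a (a (b (b (a (l 16598448) (a (l 16483800) (l 16491664))) (a (a (l 16610080) (l 16526176)) (a (l 16473528) (b (l 16433088) (l 16386176))))) (a (b (a (b (l 16597496) (l 16567496)) (b (l 16490456) (l 16468568))) (b (a (b (l 16543048) (a (l 16556168) (l 16523672))) (b (l 16463176) (a (l 16493216) (l 16465592)))) (b (a (a (b (l 16559416) (a (l 141627851833491503) (l 141558926173552687))) (b (l 16532904) (a (b (l 16545392) (l 141355791381594159)) (l 201896625911)))) (a (a (l 202433470727) (l 1)) (l 1))) (a (a (a (a (c (b (l 141677467349352495) (c (l 6) (b (l 141765565714137135) (b (l 141828306603917359) (b (l 141860329884106799) (a (b (l 141884244266434607) (a (c (l 6) (b (l 141873180423815215) (c (l 141890085420318767) (l 141866789508612143)))) (l 1))) (l 1))))))) (b (l 141542777106087983) (b (l 141644000907034671) (b (l 141696777471967279) (a (b (l 141730793618751535) (a (b (l 141747973490851887) (c (c (b (l 141826451161464879) (l 141831467683938351))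 (l 141781302447407151)) (l 141708116177420335))) (b (l 141740964102111279) (l 1)))) (b (l 141716843560714287) (l 1))))))) (b (b (l 141540234504552495) (l 141616581851594799)) (b (c (l 141772162790998063) (l 141615276156633135)) (b (c (l 141839164289220655) (l 141669220953227311)) (l 1))))) (b (b (l 141492886768664623) (c (l 141637541309595695) (l 141502988508676143))) (a (b (c (l 141741582613725231) (l 141588200674050095)) (l 1)) (l 1)))) (b (b (a (l 141435849582100527) (l 1)) (l 1)) (l 1))) (l 1))))) (b (a (b (l 16345216) (l 16453584)) (b (l 16337512) (l 16405344))) (b (a (b (l 16422848) (l 1)) (l 1)) (l 1))))) (b (a (b (a (l 16494424) (l 376916715031)) (a (b (l 16448424) (l 16413280)) (l 1))) (l 1)) (b (l 1) (l 1)))) (l 1)), by decide +kernel⟩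

theorem c_pm_112_a : CertB 536870912 536870912 0 536870912 536870912 50465866 3 eng mog cd0q1 cd3q2a pd1 false true false .dn 1 1 2
    ndB0q1 ndB3q2a pcB1 cut_pm_112_a xt_pm_112_a :=
  certB2 (fam := false) (s1 := true) (s2 := false) (a := 1) (b := 1) (c := 2) (cn := .dn) (n1 := ndB0q1) (n2 := ndB3q2a) (pc := pcB1) (cut := cut_pm_112_a) (xt := xt_pm_112_a) (P1 := 536870912) (W1 := 536870912) (P2 := 0) (W2 := 536870912) (P3 := 536870912) (W3 := 50465866) (N0 := 3) (En := eng) (mo := mog) (C1 := cd0q1) (C2 := cd3q2a) (C3 := pd1)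
    rfl (fun _ => rfl) k0_pm_112_a

noncomputable def cut_pm_112_b : Cut := Cut.of [[⟨0, 0, 1, 20971520⟩, ⟨1, 1, 2, 20971520⟩, ⟨2, 1, 0, 33554432⟩]]

noncomputable def xt_pm_112_b : Ext := extD2 3 ⟨7, 3, 3, 10, 1741, 1000, 23, 25, 19, 50, 3, 16⟩ eng cd0q1 cd3q2b pd1 false true false .dn 1 1 2 rfl ndB0q1 ndB3q2b pcB1

noncomputable def f_pm_112_b : ℕ → ℕ → ℕ → ℕ → Bool := onCell 536870912 536870912 1239849684 370763052 536870912 50465866
    (rowB 3 eng mog cd0q1 cd3q2b pd1 0 false true false .dn 1 1 2 (qsf 536870912 536870912 1239849684 370763052 1) ndB0q1 ndB3q2b pcB1 cut_pm_112_b xt_pm_112_b)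

def k0_pm_112_b : ∃ t, chk3 f_pm_112_b t 2 1 1 = true :=
  ⟨(b (a (b (a (b (a (b (l 16530272) (l 16538088)) (l 16550288)) (a (l 16540688) (b (l 16566992) (l 16571264)))) (b (l 16720248) (a (l 16662328) (l 16631568)))) (a (a (b (l 16540456) (l 16542856)) (l 16623552)) (b (a (b (l 16609064) (l 16615432)) (b (l 16646752) (l 16654544))) (a (l 16629440) (l 16671720))))) (b (a (b (l 16667984) (l 16687784)) (b (l 164852930743) (l 16759008))) (a (b (l 16714320) (a (b (l 16708400) (l 16721648)) (l 16760296))) (b (l 16781952) (l 16810320))))) (a (a (b (b (a (l 16545192) (l 16597728)) (a (l 16534016) (b (l 16603184) (l 16590536)))) (a (b (l 16493336) (c (l 16488888) (l 16410256))) (b (l 16567928) (l 16536712)))) (b (b (a (l 16648920) (l 16698632)) (a (b (l 16661624) (l 16654872)) (l 16717944))) (a (b (l 16641640) (l 16629160)) (b (l 16714248) (l 16707560))))) (b (a (b (a (l 16746560) (b (l 16784248) (l 16804400))) (l 16805704)) (b (a (l 16835968) (l 16859536)) (a (b (l 16871984) (l 16892024)) (b (l 16902032) (l 16930168)))))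 (a (a (b (l 16779216) (l 16772464)) (b (l 16839928) (l 16831776))) (a (l 16891680) (b (l 16949120) (l 16933408))))))), by decide +kernel⟩

def k1_pm_112_b : ∃ t, chk3 f_pm_112_b t 3 1 1 = true :=
  ⟨(a (b (b (l 1) (a (a (l 16802872) (l 87543714743)) (a (l 16799008) (l 1)))) (a (b (a (l 16887952) (b (l 16832216) (l 16900512))) (a (b (b (l 16982760) (l 16991712)) (l 16974512)) (b (l 16999752) (a (l 17006432) (l 17035832))))) (b (a (l 16812136) (b (l 16724640) (l 16773224))) (a (b (l 16957960) (l 17093944)) (b (l 16881352) (l 17025920)))))) (b (l 1) (b (b (l 1) (a (a (l 16691328) (a (a (l 16643208) (l 1)) (l 1))) (l 1))) (a (a (b (l 16781240) (l 16915888)) (a (b (a (l 16716208) (l 16691768)) (l 16819424)) (b (b (l 350073031239) (l 16675976)) (b (l 16726824) (l 16788536))))) (a (a (b (b (l 1) (b (a (a (l 16631672) (l 16617824)) (a (l 387654005543) (l 1))) (a (l 16626136) (a (l 141982032128999455) (a (l 473898921430887050411180063) (b (l 8307738232533664448728842271) (b (l 2420269491010484689355653151) (l 2381583864782820747661934623))))))))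 (a (b (b (l 16670880) (l 16696568)) (l 16739560)) (b (b (a (l 142373595755823135) (a (l 142332982522822687) (c (l 2439612304124769624725127199) (l 2275198392656906347230117919)))) (a (l 142601263433302047) (c (l 142695065530957855) (l 142382597986304031)))) (a (l 142983756124962847) (a (l 142913112478580767) (b (l 142748323129147423) (l 143009869515096095))))))) (b (l 3) (a (a (b (a (b (c (l 2768440127059721023888949279) (l 3397081553259196734344314911)) (c (l 2633040435263101771500765215) (l 2536326369693744589248380959))) (l 3)) (a (b (c (l 142918747419328543) (l 142533437258858527)) (l 142957711372779551)) (b (l 2826468566401428970476683295) (c (l 2952196851641752757231042719) (l 2961868258198295406824898591))))) (l 3)) (l 3)))) (l 3)))))), by decide +kernel⟩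

theorem s2_pm_112_b : ∃ t, chk3 f_pm_112_b t 1 1 1 = true := ex3_a k0_pm_112_b k1_pm_112_b

theorem c_pm_112_b : CertB 536870912 536870912 1239849684 370763052 536870912 50465866 3 eng mog cd0q1 cd3q2b pd1 false true false .dn 1 1 2
    ndB0q1 ndB3q2b pcB1 cut_pm_112_b xt_pm_112_b :=
  certB0 (fam := false) (s1 := true) (s2 := false) (a := 1) (b := 1) (c := 2) (cn := .dn) (n1 := ndB0q1) (n2 := ndB3q2b) (pc := pcB1) (cut := cut_pm_112_b) (xt := xt_pm_112_b) (P1 := 536870912) (W1 := 536870912) (P2 := 1239849684) (W2 := 370763052) (P3 := 536870912) (W3 := 50465866) (N0 := 3) (En := eng) (mo := mog) (C1 := cd0q1) (C2 := cd3q2b) (C3 := pd1)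
    rfl s2_pm_112_b

noncomputable def cut_pm_113 : Cut := Cut.of [[⟨0, 1, 0, 67108864⟩, ⟨1, 1, 0, 67108864⟩, ⟨2, 2, 0, 16777216⟩]]

noncomputable def xt_pm_113 : Ext := extD2 3 ⟨7, 3, 3, 10, 1741, 1000, 23, 25, 19, 50, 3, 16⟩ eng cd0q1 cd3q3 pd1 false true false .nn 1 1 3 rfl ndB0q1 ndB3q3 pcB1

noncomputable def f_pm_113 : ℕ → ℕ → ℕ → ℕ → Bool := onCell 536870912 536870912 536870912 536870912 536870912 50465866
    (rowB 3 eng mog cd0q1 cd3q3 pd1 1 false true false .nn 1 1 3 (qsf 536870912 536870912 1610612736 536870912 1) ndB0q1 ndB3q3 pcB1 cut_pm_113 xt_pm_113)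

def k0_pm_113 : ∃ t, chk3 f_pm_113 t 2 1 1 = true :=
  ⟨(b (b (l 1) (a (l 1) (b (l 1) (a (l 1) (l 16948248))))) (a (b (a (l 1) (b (l 1) (a (l 1) (l 16740856)))) (a (b (a (l 1) (l 16588352)) (a (b (l 16497880) (l 16477016)) (b (l 16574120) (l 16575440)))) (a (b (l 16667096) (a (l 16648296) (l 16690688))) (b (l 16742784) (a (l 16728224) (l 16761288)))))) (b (a (b (l 16835904) (a (l 16803616) (l 16859208))) (b (l 16935904) (a (l 16905568) (l 16937944)))) (a (a (b (l 16803928) (l 16804408)) (b (l 16856088) (l 16853024))) (b (a (l 16897432) (l 16924000)) (a (l 16889544) (l 16910600))))))), by decide +kernel⟩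

def k1_pm_113 : ∃ t, chk3 f_pm_113 t 6 2 1 = true :=
  ⟨(b (a (l 1) (b (l 1) (l 16914024))) (a (b (b (l 1) (l 17039928)) (l 16993000)) (b (b (l 17071944) (l 17141920)) (l 17083808)))), by decide +kernel⟩

def k2_pm_113 : ∃ t, chk3 f_pm_113 t 14 2 1 = true :=
  ⟨(b (b (a (l 1) (a (l 1) (b (l 1) (l 16710840)))) (a (l 16903664) (a (l 16859192) (b (l 16793056) (l 16863896))))) (b (a (b (l 17022184) (l 17085568)) (b (b (l 16925184) (l 16951880)) (b (l 16976952) (l 16999576)))) (a (l 17127216) (b (l 16919600) (l 17034752))))), by decide +kernel⟩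

def k3_pm_113 : ∃ t, chk3 f_pm_113 t 15 2 1 = true :=
  ⟨(a (b (b (a (b (l 1) (a (l 16692072) (a (l 37614207751) (b (l 142442796282675231) (l 142836146651316255))))) (a (b (l 1) (a (b (b (l 1) (a (l 142531719293976607) (c (l 2932854038527482802725601439) (l 2981211071312017323383668767)))) (a (l 142636791439589407) (b (c (l 142930498422210719) (l 3155296389336673045837529119)) (l 3319710300804665722085638303)))) (a (b (l 3) (b (l 3) (l 3542152651613274186148921503))) (l 3)))) (l 3))) (a (b (b (l 16704696) (l 16783464)) (a (l 16839776) (l 16760880))) (b (a (b (a (b (l 142716987126382751) (l 143241179332952159)) (a (b (l 3077925136881448447873859743) (l 3290696081133689428235190367)) (l 3))) (a (a (l 16767144) (l 16695320)) (a (c (l 143604568013586527) (l 2555669182808224275652673695)) (b (l 4712392845000854596023599199) (l 2797454346731471030605906015))))) (l 3)) (b (b (a (b (l 2004399009064466775385784415) (l 2004399009064545459202457695)) (l 3)) (a (a (l 16804704) (l 143771487652937823)) (l 3281024674577619912283914335)))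 (a (a (l 16825512) (c (l 16836672) (l 143833816221319391))) (a (c (l 162839765479) (b (l 2536326369695093071810379999) (l 2458955117239926198169092319))) (l 3))))))) (b (a (b (c (l 16900104) (l 16868392)) (l 16929608)) (b (a (b (a (l 16850824) (l 16842480)) (l 16870056)) (b (a (c (l 161766030167) (b (l 2923182631972107353639059679) (l 161229092855))) (l 3)) (a (b (l 160155375511) (l 16862808)) (c (l 384567529127) (l 347523366727))))) (a (c (l 16917456) (l 16887848)) (b (a (l 16879016) (c (l 16888200) (l 175187846055))) (c (l 16910048) (l 130090707751)))))) (b (a (l 16964128) (b (b (l 16916648) (l 16924328)) (l 16933024))) (a (l 16978216) (b (l 16941480) (l 16946600)))))) (b (l 3) (a (a (b (l 3) (b (b (l 312626886007) (l 162303053639)) (b (l 156397461143) (l 16923952)))) (l 3)) (l 3)))), by decide +kernel⟩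

def k4_pm_113 : ∃ t, chk3 f_pm_113 t 3 3 1 = true :=
  ⟨(a (b (a (b (l 16901880) (a (l 16956104) (l 16965496))) (a (b (l 17014576) (l 16975384)) (l 17057752))) (a (b (a (l 16936208) (l 16939440)) (l 17021008)) (a (l 17051144) (l 17133752)))) (b (a (b (a (l 17081096) (a (l 17059752) (l 17017712))) (a (l 17007760) (l 17021432))) (b (a (b (a (l 16981776) (l 16948904)) (l 16815232)) (a (b (a (l 162839981607) (l 287930856535)) (b (l 181630421607) (l 191294110151))) (l 3))) (a (b (a (l 16973048) (l 16940976)) (l 16947488)) (a (b (a (l 16919184) (l 213842713831)) (a (l 16912976) (l 16900408))) (b (l 3) (a (l 237464999479) (l 3))))))) (a (b (a (l 16947624) (l 16943984)) (l 16888488)) (b (a (a (l 16934592) (l 16995440)) (a (b (b (l 16899264) (l 16892256)) (l 16877776)) (b (b (l 253034171415) (l 263771576471)) (b (l 273435235223) (a (l 16856096) (l 279877654103)))))) (b (a (l 16873152) (a (l 16852200) (a (l 16836512) (b (l 293299401927) (a (l 16795760) (l 303499916791)))))) (a (l 16839344) (a (l 16816992) (a (b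 (l 16814400) (l 16797080)) (a (b (l 16807232) (l 16791416)) (b (b (l 316384797079) (l 370608744343)) (b (a (l 16792280) (c (l 383493629239) (l 371145592023))) (l 6)))))))))))), by decide +kernel⟩

theorem s5_pm_113 : ∃ t, chk3 f_pm_113 t 7 2 1 = true := ex3_a k2_pm_113 k3_pm_113

theorem s6_pm_113 : ∃ t, chk3 f_pm_113 t 3 2 1 = true := ex3_a k1_pm_113 s5_pm_113

theorem s7_pm_113 : ∃ t, chk3 f_pm_113 t 3 1 1 = true := ex3_b s6_pm_113 k4_pm_113

theorem s8_pm_113 : ∃ t, chk3 f_pm_113 t 1 1 1 = true := ex3_a k0_pm_113 s7_pm_113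

theorem c_pm_113 : CertB 536870912 536870912 1610612736 536870912 536870912 50465866 3 eng mog cd0q1 cd3q3 pd1 false true false .nn 1 1 3
    ndB0q1 ndB3q3 pcB1 cut_pm_113 xt_pm_113 :=
  certB1 (fam := false) (s1 := true) (s2 := false) (a := 1) (b := 1) (c := 3) (cn := .nn) (n1 := ndB0q1) (n2 := ndB3q3) (pc := pcB1) (cut := cut_pm_113) (xt := xt_pm_113) (P1 := 536870912) (W1 := 536870912) (P2 := 1610612736) (W2 := 536870912) (P3 := 536870912) (W3 := 50465866) (N0 := 3) (En := eng) (mo := mog) (C1 := cd0q1) (C2 := cd3q3) (C3 := pd1)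
    rfl (fun _ => rfl) s8_pm_113

noncomputable def cut_pm_123 : Cut := Cut.of [[⟨0, 1, 0, 67108864⟩, ⟨1, 1, 0, 67108864⟩, ⟨2, 2, 0, 16777216⟩]]

noncomputable def f_pm_123 : ℕ → ℕ → ℕ → ℕ → Bool := onCell 536870912 536870912 1073741824 536870912 536870912 50465866
    (rowB 3 eng mog cd0q1 cd3q3 pd2 1 false true false .npn 1 2 3 (qsf 536870912 536870912 1610612736 536870912 2) ndB0q1 ndB3q3 pcB2 cut_pm_123 Ext.none)

def k0_pm_123 : ∃ t, chk3 f_pm_123 t 1 1 1 = true :=
  ⟨(a (b (a (b (a (b (a (a (b (l 16449920) (l 16479912)) (b (l 16483344) (l 16536600))) (b (b (l 16455312) (l 16592464)) (l 16608192))) (a (a (l 16532952) (l 16578408)) (l 16635520))) (b (a (b (a (l 16655784) (l 16695152)) (l 16685224)) (b (l 16745456) (l 16744360))) (a (l 16696152) (l 16741624)))) (b (a (a (b (l 16595856) (l 16618976)) (l 16664544)) (b (l 16722640) (l 16724064))) (a (l 16674432) (l 16730432)))) (b (b (a (a (l 16793968) (l 16832784)) (l 16910896)) (a (l 16789376) (l 16818992))) (a (b (l 16786792) (l 16754096)) (b (l 16777728)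 (l 16756856))))) (a (b (a (l 16776392) (l 16739576)) (b (a (l 16735832) (l 16749032)) (a (l 16748656) (b (l 16760288) (l 2))))) (b (a (b (l 16749152) (l 16749120)) (b (l 16748352) (l 16776056))) (a (b (l 16769984) (l 2)) (l 2))))) (b (a (b (a (b (l 16870792) (l 16809888)) (b (l 16852712) (a (l 16792992) (l 16781360)))) (b (a (b (b (l 16778192) (l 16788768)) (l 16757152)) (b (b (l 16759352) (l 16751640)) (l 16741968))) (a (l 16744976) (a (l 16748384) (l 2))))) (b (b (a (a (l 16831952) (l 16811680)) (a (b (l 16803408) (l 16769928)) (a (b (l 16782544) (l 1024450537815)) (b (a (b (l 16780056) (l 1004049325655)) (b (b (l 6) (l 1075989974871)) (l 2))) (l 2))))) (a (b (l 16769288) (l 429060766855)) (b (a (l 916539515591) (l 2)) (l 2)))) (a (b (b (a (l 577237296487) (l 2)) (l 2)) (l 2)) (l 2)))) (a (b (a (b (l 441408961047) (l 2)) (l 2)) (l 2)) (l 2)))), by decide +kernel⟩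

theorem c_pm_123 : CertB 536870912 536870912 1610612736 536870912 536870912 50465866 3 eng mog cd0q1 cd3q3 pd2 false true false .npn 1 2 3
    ndB0q1 ndB3q3 pcB2 cut_pm_123 Ext.none :=
  certB1 (fam := false) (s1 := true) (s2 := false) (a := 1) (b := 2) (c := 3) (cn := .npn) (n1 := ndB0q1) (n2 := ndB3q3) (pc := pcB2) (cut := cut_pm_123) (xt := Ext.none) (P1 := 536870912) (W1 := 536870912) (P2 := 1610612736) (W2 := 536870912) (P3 := 536870912) (W3 := 50465866) (N0 := 3) (En := eng) (mo := mog) (C1 := cd0q1) (C2 := cd3q3) (C3 := pd2)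
    rfl (fun _ => rfl) k0_pm_123

noncomputable def f_pm_133 : ℕ → ℕ → ℕ → ℕ → Bool := onCell 536870912 536870912 1610612736 536870912 536870912 50465866
    (rowB 3 eng mog cd0q1 cd3q3 pd3 0 false true false .dn 1 3 3 (qsf 536870912 536870912 1610612736 536870912 3) ndB0q1 ndB3q3 pcB3 Cut.none Ext.none)

def k0_pm_133 : ∃ t, chk3 f_pm_133 t 1 1 1 = true :=
  ⟨(a (b (l 1) (a (b (l 1) (a (b (l 1) (l 16830672)) (l 1))) (l 1))) (l 1)), by decide +kernel⟩

theorem c_pm_133 : CertB 536870912 536870912 1610612736 536870912 536870912 50465866 3 eng mog cd0q1 cd3q3 pd3 false true false .dn 1 3 3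
    ndB0q1 ndB3q3 pcB3 Cut.none Ext.none :=
  certB0 (fam := false) (s1 := true) (s2 := false) (a := 1) (b := 3) (c := 3) (cn := .dn) (n1 := ndB0q1) (n2 := ndB3q3) (pc := pcB3) (cut := Cut.none) (xt := Ext.none) (P1 := 536870912) (W1 := 536870912) (P2 := 1610612736) (W2 := 536870912) (P3 := 536870912) (W3 := 50465866) (N0 := 3) (En := eng) (mo := mog) (C1 := cd0q1) (C2 := cd3q3) (C3 := pd3)
    rfl k0_pm_133

noncomputable def cut_pm_202_a : Cut := Cut.of [[⟨0, 1, 0, 67108864⟩, ⟨1, 0, 0, 67108864⟩, ⟨2, 1, 0, 67108864⟩]]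

noncomputable def f_pm_202_a : ℕ → ℕ → ℕ → ℕ → Bool := onCell 0 536870912 0 536870912 536870912 50465866
    (rowB 3 eng mog cd0q2 cd3q2a pd0 0 false true false .pp 2 0 2 (qsf 0 536870912 0 536870912 0) ndB0q2 ndB3q2a pcB0 cut_pm_202_a Ext.none)

def k0_pm_202_a : ∃ t, chk3 f_pm_202_a t 1 1 1 = true :=
  ⟨(a (l 3) (b (l 3) (a (l 3) (b (l 3) (a (l 3) (b (l 3) (l 6))))))), by decide +kernel⟩

theorem c_pm_202_a : CertB 0 536870912 0 536870912 536870912 50465866 3 eng mog cd0q2 cd3q2a pd0 false true false .pp 2 0 2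
    ndB0q2 ndB3q2a pcB0 cut_pm_202_a Ext.none :=
  certB0 (fam := false) (s1 := true) (s2 := false) (a := 2) (b := 0) (c := 2) (cn := .pp) (n1 := ndB0q2) (n2 := ndB3q2a) (pc := pcB0) (cut := cut_pm_202_a) (xt := Ext.none) (P1 := 0) (W1 := 536870912) (P2 := 0) (W2 := 536870912) (P3 := 536870912) (W3 := 50465866) (N0 := 3) (En := eng) (mo := mog) (C1 := cd0q2) (C2 := cd3q2a) (C3 := pd0)
    rfl k0_pm_202_a

noncomputable def cut_pm_202_b : Cut := Cut.of [[⟨0, 1, 0, 67108864⟩, ⟨1, 0, 0, 67108864⟩, ⟨2, 1, 0, 67108864⟩]]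

noncomputable def f_pm_202_b : ℕ → ℕ → ℕ → ℕ → Bool := onCell 0 536870912 1239849684 370763052 536870912 50465866
    (rowB 3 eng mog cd0q2 cd3q2b pd0 0 false true false .pp 2 0 2 (qsf 0 536870912 1239849684 370763052 0) ndB0q2 ndB3q2b pcB0 cut_pm_202_b Ext.none)

def k0_pm_202_b : ∃ t, chk3 f_pm_202_b t 1 1 1 = true :=
  ⟨(l 3), by decide +kernel⟩

theorem c_pm_202_b : CertB 0 536870912 1239849684 370763052 536870912 50465866 3 eng mog cd0q2 cd3q2b pd0 false true false .pp 2 0 2
    ndB0q2 ndB3q2b pcB0 cut_pm_202_b Ext.none :=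
  certB0 (fam := false) (s1 := true) (s2 := false) (a := 2) (b := 0) (c := 2) (cn := .pp) (n1 := ndB0q2) (n2 := ndB3q2b) (pc := pcB0) (cut := cut_pm_202_b) (xt := Ext.none) (P1 := 0) (W1 := 536870912) (P2 := 1239849684) (W2 := 370763052) (P3 := 536870912) (W3 := 50465866) (N0 := 3) (En := eng) (mo := mog) (C1 := cd0q2) (C2 := cd3q2b) (C3 := pd0)
    rfl k0_pm_202_b

noncomputable def f_pm_203 : ℕ → ℕ → ℕ → ℕ → Bool := onCell 0 536870912 0 536870912 536870912 50465866
    (rowB 3 eng mog cd0q2 cd3q3 pd0 1 false true false .up 2 0 3 (qsf 0 536870912 1610612736 536870912 0) ndB0q2 ndB3q3 pcB0 Cut.none Ext.none)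

def k0_pm_203 : ∃ t, chk3 f_pm_203 t 1 1 1 = true :=
  ⟨(l 3), by decide +kernel⟩

theorem c_pm_203 : CertB 0 536870912 1610612736 536870912 536870912 50465866 3 eng mog cd0q2 cd3q3 pd0 false true false .up 2 0 3
    ndB0q2 ndB3q3 pcB0 Cut.none Ext.none :=
  certB1 (fam := false) (s1 := true) (s2 := false) (a := 2) (b := 0) (c := 3) (cn := .up) (n1 := ndB0q2) (n2 := ndB3q3) (pc := pcB0) (cut := Cut.none) (xt := Ext.none) (P1 := 0) (W1 := 536870912) (P2 := 1610612736) (W2 := 536870912) (P3 := 536870912) (W3 := 50465866) (N0 := 3) (En := eng) (mo := mog) (C1 := cd0q2) (C2 := cd3q3) (C3 := pd0)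
    rfl (fun _ => rfl) k0_pm_203

noncomputable def cut_pm_213 : Cut := Cut.of [[⟨0, 1, 0, 67108864⟩, ⟨1, 1, 0, 67108864⟩, ⟨2, 2, 0, 16777216⟩]]

noncomputable def f_pm_213 : ℕ → ℕ → ℕ → ℕ → Bool := onCell 0 536870912 1610612736 536870912 536870912 50465866
    (rowB 3 eng mog cd0q2 cd3q3 pd1 0 false true false .pnn 2 1 3 (qsf 0 536870912 1610612736 536870912 1) ndB0q2 ndB3q3 pcB1 cut_pm_213 Ext.none)

def k0_pm_213 : ∃ t, chk3 f_pm_213 t 1 1 1 = true :=
  ⟨(a (l 3) (b (l 3) (b (l 3) (a (l 3) (b (l 3) (a (l 3) (a (l 3) (a (l 3) (b (l 3) (b (l 3) (b (l 3) (l 6)))))))))))), by decide +kernel⟩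

theorem c_pm_213 : CertB 0 536870912 1610612736 536870912 536870912 50465866 3 eng mog cd0q2 cd3q3 pd1 false true false .pnn 2 1 3
    ndB0q2 ndB3q3 pcB1 cut_pm_213 Ext.none :=
  certB0 (fam := false) (s1 := true) (s2 := false) (a := 2) (b := 1) (c := 3) (cn := .pnn) (n1 := ndB0q2) (n2 := ndB3q3) (pc := pcB1) (cut := cut_pm_213) (xt := Ext.none) (P1 := 0) (W1 := 536870912) (P2 := 1610612736) (W2 := 536870912) (P3 := 536870912) (W3 := 50465866) (N0 := 3) (En := eng) (mo := mog) (C1 := cd0q2) (C2 := cd3q3) (C3 := pd1)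
    rfl k0_pm_213

noncomputable def f_mm_001 : ℕ → ℕ → ℕ → ℕ → Bool := onCell 0 536870912 536870912 536870912 536870912 50465866
    (rowB 3 eng mog cd0q0 cd3q1 pd0 0 false false false .up 0 0 1 (qsf 0 536870912 536870912 536870912 0) ndB0q0 ndB3q1 pcB0 Cut.none Ext.none)

def k0_mm_001 : ∃ t, chk3 f_mm_001 t 1 1 1 = true :=
  ⟨(l 3), by decide +kernel⟩

theorem c_mm_001 : CertB 0 536870912 536870912 536870912 536870912 50465866 3 eng mog cd0q0 cd3q1 pd0 false false false .up 0 0 1
    ndB0q0 ndB3q1 pcB0 Cut.none Ext.none :=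
  certB0 (fam := false) (s1 := false) (s2 := false) (a := 0) (b := 0) (c := 1) (cn := .up) (n1 := ndB0q0) (n2 := ndB3q1) (pc := pcB0) (cut := Cut.none) (xt := Ext.none) (P1 := 0) (W1 := 536870912) (P2 := 536870912) (W2 := 536870912) (P3 := 536870912) (W3 := 50465866) (N0 := 3) (En := eng) (mo := mog) (C1 := cd0q0) (C2 := cd3q1) (C3 := pd0)
    rfl k0_mm_001

noncomputable def f_mm_011 : ℕ → ℕ → ℕ → ℕ → Bool := onCell 0 536870912 536870912 536870912 536870912 50465866
    (rowB 3 eng mog cd0q0 cd3q1 pd1 0 false false false .pnn 0 1 1 (qsf 0 536870912 536870912 536870912 1) ndB0q0 ndB3q1 pcB1 Cut.none Ext.none)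

def k0_mm_011 : ∃ t, chk3 f_mm_011 t 1 1 1 = true :=
  ⟨(l 3), by decide +kernel⟩

theorem c_mm_011 : CertB 0 536870912 536870912 536870912 536870912 50465866 3 eng mog cd0q0 cd3q1 pd1 false false false .pnn 0 1 1
    ndB0q0 ndB3q1 pcB1 Cut.none Ext.none :=
  certB0 (fam := false) (s1 := false) (s2 := false) (a := 0) (b := 1) (c := 1) (cn := .pnn) (n1 := ndB0q0) (n2 := ndB3q1) (pc := pcB1) (cut := Cut.none) (xt := Ext.none) (P1 := 0) (W1 := 536870912) (P2 := 536870912) (W2 := 536870912) (P3 := 536870912) (W3 := 50465866) (N0 := 3) (En := eng) (mo := mog) (C1 := cd0q0) (C2 := cd3q1) (C3 := pd1)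
    rfl k0_mm_011

noncomputable def f_mm_012_a : ℕ → ℕ → ℕ → ℕ → Bool := onCell 0 536870912 0 536870912 536870912 50465866
    (rowB 3 eng mog cd0q0 cd3q2a pd1 0 false false false .pnp 0 1 2 (qsf 0 536870912 0 536870912 1) ndB0q0 ndB3q2a pcB1 Cut.none Ext.none)

def k0_mm_012_a : ∃ t, chk3 f_mm_012_a t 1 1 1 = true :=
  ⟨(l 5), by decide +kernel⟩

theorem c_mm_012_a : CertB 0 536870912 0 536870912 536870912 50465866 3 eng mog cd0q0 cd3q2a pd1 false false false .pnp 0 1 2
    ndB0q0 ndB3q2a pcB1 Cut.none Ext.none :=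
  certB0 (fam := false) (s1 := false) (s2 := false) (a := 0) (b := 1) (c := 2) (cn := .pnp) (n1 := ndB0q0) (n2 := ndB3q2a) (pc := pcB1) (cut := Cut.none) (xt := Ext.none) (P1 := 0) (W1 := 536870912) (P2 := 0) (W2 := 536870912) (P3 := 536870912) (W3 := 50465866) (N0 := 3) (En := eng) (mo := mog) (C1 := cd0q0) (C2 := cd3q2a) (C3 := pd1)
    rfl k0_mm_012_a

noncomputable def f_mm_012_b : ℕ → ℕ → ℕ → ℕ → Bool := onCell 0 536870912 1239849684 370763052 536870912 50465866
    (rowB 3 eng mog cd0q0 cd3q2b pd1 0 false false false .pnp 0 1 2 (qsf 0 536870912 1239849684 370763052 1) ndB0q0 ndB3q2b pcB1 Cut.none Ext.none)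

def k0_mm_012_b : ∃ t, chk3 f_mm_012_b t 1 1 1 = true :=
  ⟨(l 5), by decide +kernel⟩

theorem c_mm_012_b : CertB 0 536870912 1239849684 370763052 536870912 50465866 3 eng mog cd0q0 cd3q2b pd1 false false false .pnp 0 1 2
    ndB0q0 ndB3q2b pcB1 Cut.none Ext.none :=
  certB0 (fam := false) (s1 := false) (s2 := false) (a := 0) (b := 1) (c := 2) (cn := .pnp) (n1 := ndB0q0) (n2 := ndB3q2b) (pc := pcB1) (cut := Cut.none) (xt := Ext.none) (P1 := 0) (W1 := 536870912) (P2 := 1239849684) (W2 := 370763052) (P3 := 536870912) (W3 := 50465866) (N0 := 3) (En := eng) (mo := mog) (C1 := cd0q0) (C2 := cd3q2b) (C3 := pd1)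
    rfl k0_mm_012_b

noncomputable def f_mm_022_a : ℕ → ℕ → ℕ → ℕ → Bool := onCell 0 536870912 0 536870912 536870912 50465866
    (rowB 3 eng mog cd0q0 cd3q2a pd2 0 false false false .pp 0 2 2 (qsf 0 536870912 0 536870912 2) ndB0q0 ndB3q2a pcB2 Cut.none Ext.none)

def k0_mm_022_a : ∃ t, chk3 f_mm_022_a t 1 1 1 = true :=
  ⟨(l 5), by decide +kernel⟩

theorem c_mm_022_a : CertB 0 536870912 0 536870912 536870912 50465866 3 eng mog cd0q0 cd3q2a pd2 false false false .pp 0 2 2
    ndB0q0 ndB3q2a pcB2 Cut.none Ext.none :=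
  certB0 (fam := false) (s1 := false) (s2 := false) (a := 0) (b := 2) (c := 2) (cn := .pp) (n1 := ndB0q0) (n2 := ndB3q2a) (pc := pcB2) (cut := Cut.none) (xt := Ext.none) (P1 := 0) (W1 := 536870912) (P2 := 0) (W2 := 536870912) (P3 := 536870912) (W3 := 50465866) (N0 := 3) (En := eng) (mo := mog) (C1 := cd0q0) (C2 := cd3q2a) (C3 := pd2)
    rfl k0_mm_022_a

noncomputable def f_mm_022_b : ℕ → ℕ → ℕ → ℕ → Bool := onCell 0 536870912 1239849684 370763052 536870912 50465866
    (rowB 3 eng mog cd0q0 cd3q2b pd2 0 false false false .pp 0 2 2 (qsf 0 536870912 1239849684 370763052 2) ndB0q0 ndB3q2b pcB2 Cut.none Ext.none)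

def k0_mm_022_b : ∃ t, chk3 f_mm_022_b t 1 1 1 = true :=
  ⟨(l 5), by decide +kernel⟩

theorem c_mm_022_b : CertB 0 536870912 1239849684 370763052 536870912 50465866 3 eng mog cd0q0 cd3q2b pd2 false false false .pp 0 2 2
    ndB0q0 ndB3q2b pcB2 Cut.none Ext.none :=
  certB0 (fam := false) (s1 := false) (s2 := false) (a := 0) (b := 2) (c := 2) (cn := .pp) (n1 := ndB0q0) (n2 := ndB3q2b) (pc := pcB2) (cut := Cut.none) (xt := Ext.none) (P1 := 0) (W1 := 536870912) (P2 := 1239849684) (W2 := 370763052) (P3 := 536870912) (W3 := 50465866) (N0 := 3) (En := eng) (mo := mog) (C1 := cd0q0) (C2 := cd3q2b) (C3 := pd2)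
    rfl k0_mm_022_b

noncomputable def f_mm_023 : ℕ → ℕ → ℕ → ℕ → Bool := onCell 0 536870912 1610612736 536870912 536870912 50465866
    (rowB 3 eng mog cd0q0 cd3q3 pd2 0 false false false .up 0 2 3 (qsf 0 536870912 1610612736 536870912 2) ndB0q0 ndB3q3 pcB2 Cut.none Ext.none)

def k0_mm_023 : ∃ t, chk3 f_mm_023 t 1 1 1 = true :=
  ⟨(l 5), by decide +kernel⟩

theorem c_mm_023 : CertB 0 536870912 1610612736 536870912 536870912 50465866 3 eng mog cd0q0 cd3q3 pd2 false false false .up 0 2 3
    ndB0q0 ndB3q3 pcB2 Cut.none Ext.none :=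
  certB0 (fam := false) (s1 := false) (s2 := false) (a := 0) (b := 2) (c := 3) (cn := .up) (n1 := ndB0q0) (n2 := ndB3q3) (pc := pcB2) (cut := Cut.none) (xt := Ext.none) (P1 := 0) (W1 := 536870912) (P2 := 1610612736) (W2 := 536870912) (P3 := 536870912) (W3 := 50465866) (N0 := 3) (En := eng) (mo := mog) (C1 := cd0q0) (C2 := cd3q3) (C3 := pd2)
    rfl k0_mm_023

noncomputable def f_mm_033 : ℕ → ℕ → ℕ → ℕ → Bool := onCell 0 536870912 1610612736 536870912 536870912 50465866
    (rowB 3 eng mog cd0q0 cd3q3 pd3 0 false false false .pnn 0 3 3 (qsf 0 536870912 1610612736 536870912 3) ndB0q0 ndB3q3 pcB3 Cut.none Ext.none)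

def k0_mm_033 : ∃ t, chk3 f_mm_033 t 1 1 1 = true :=
  ⟨(l 5), by decide +kernel⟩

theorem c_mm_033 : CertB 0 536870912 1610612736 536870912 536870912 50465866 3 eng mog cd0q0 cd3q3 pd3 false false false .pnn 0 3 3
    ndB0q0 ndB3q3 pcB3 Cut.none Ext.none :=
  certB0 (fam := false) (s1 := false) (s2 := false) (a := 0) (b := 3) (c := 3) (cn := .pnn) (n1 := ndB0q0) (n2 := ndB3q3) (pc := pcB3) (cut := Cut.none) (xt := Ext.none) (P1 := 0) (W1 := 536870912) (P2 := 1610612736) (W2 := 536870912) (P3 := 536870912) (W3 := 50465866) (N0 := 3) (En := eng) (mo := mog) (C1 := cd0q0) (C2 := cd3q3) (C3 := pd3)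
    rfl k0_mm_033

noncomputable def f_mm_101 : ℕ → ℕ → ℕ → ℕ → Bool := onCell 536870912 536870912 536870912 536870912 536870912 50465866
    (rowB 3 eng mog cd0q1 cd3q1 pd0 0 false false false .npn 1 0 1 (qsf 536870912 536870912 536870912 536870912 0) ndB0q1 ndB3q1 pcB0 Cut.none Ext.none)

def k0_mm_101 : ∃ t, chk3 f_mm_101 t 1 1 1 = true :=
  ⟨(l 3), by decide +kernel⟩

theorem c_mm_101 : CertB 536870912 536870912 536870912 536870912 536870912 50465866 3 eng mog cd0q1 cd3q1 pd0 false false false .npn 1 0 1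
    ndB0q1 ndB3q1 pcB0 Cut.none Ext.none :=
  certB0 (fam := false) (s1 := false) (s2 := false) (a := 1) (b := 0) (c := 1) (cn := .npn) (n1 := ndB0q1) (n2 := ndB3q1) (pc := pcB0) (cut := Cut.none) (xt := Ext.none) (P1 := 536870912) (W1 := 536870912) (P2 := 536870912) (W2 := 536870912) (P3 := 536870912) (W3 := 50465866) (N0 := 3) (En := eng) (mo := mog) (C1 := cd0q1) (C2 := cd3q1) (C3 := pd0)
    rfl k0_mm_101

noncomputable def f_mm_102_a : ℕ → ℕ → ℕ → ℕ → Bool := onCell 536870912 536870912 0 536870912 536870912 50465866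
    (rowB 3 eng mog cd0q1 cd3q2a pd0 0 false false false .npp 1 0 2 (qsf 536870912 536870912 0 536870912 0) ndB0q1 ndB3q2a pcB0 Cut.none Ext.none)

def k0_mm_102_a : ∃ t, chk3 f_mm_102_a t 1 1 1 = true :=
  ⟨(l 3), by decide +kernel⟩

theorem c_mm_102_a : CertB 536870912 536870912 0 536870912 536870912 50465866 3 eng mog cd0q1 cd3q2a pd0 false false false .npp 1 0 2
    ndB0q1 ndB3q2a pcB0 Cut.none Ext.none :=
  certB0 (fam := false) (s1 := false) (s2 := false) (a := 1) (b := 0) (c := 2) (cn := .npp) (n1 := ndB0q1) (n2 := ndB3q2a) (pc := pcB0) (cut := Cut.none) (xt := Ext.none) (P1 := 536870912) (W1 := 536870912) (P2 := 0) (W2 := 536870912) (P3 := 536870912) (W3 := 50465866) (N0 := 3) (En := eng) (mo := mog) (C1 := cd0q1) (C2 := cd3q2a) (C3 := pd0)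
    rfl k0_mm_102_a

noncomputable def f_mm_102_b : ℕ → ℕ → ℕ → ℕ → Bool := onCell 536870912 536870912 1239849684 370763052 536870912 50465866
    (rowB 3 eng mog cd0q1 cd3q2b pd0 0 false false false .npp 1 0 2 (qsf 536870912 536870912 1239849684 370763052 0) ndB0q1 ndB3q2b pcB0 Cut.none Ext.none)

def k0_mm_102_b : ∃ t, chk3 f_mm_102_b t 1 1 1 = true :=
  ⟨(l 5), by decide +kernel⟩

theorem c_mm_102_b : CertB 536870912 536870912 1239849684 370763052 536870912 50465866 3 eng mog cd0q1 cd3q2b pd0 false false false .npp 1 0 2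
    ndB0q1 ndB3q2b pcB0 Cut.none Ext.none :=
  certB0 (fam := false) (s1 := false) (s2 := false) (a := 1) (b := 0) (c := 2) (cn := .npp) (n1 := ndB0q1) (n2 := ndB3q2b) (pc := pcB0) (cut := Cut.none) (xt := Ext.none) (P1 := 536870912) (W1 := 536870912) (P2 := 1239849684) (W2 := 370763052) (P3 := 536870912) (W3 := 50465866) (N0 := 3) (En := eng) (mo := mog) (C1 := cd0q1) (C2 := cd3q2b) (C3 := pd0)
    rfl k0_mm_102_b

noncomputable def f_mm_112_a : ℕ → ℕ → ℕ → ℕ → Bool := onCell 536870912 536870912 0 536870912 536870912 50465866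
    (rowB 3 eng mog cd0q1 cd3q2a pd1 0 false false false .dn 1 1 2 (qsf 536870912 536870912 0 536870912 1) ndB0q1 ndB3q2a pcB1 Cut.none Ext.none)

def k0_mm_112_a : ∃ t, chk3 f_mm_112_a t 1 1 1 = true :=
  ⟨(l 3), by decide +kernel⟩

theorem c_mm_112_a : CertB 536870912 536870912 0 536870912 536870912 50465866 3 eng mog cd0q1 cd3q2a pd1 false false false .dn 1 1 2
    ndB0q1 ndB3q2a pcB1 Cut.none Ext.none :=
  certB0 (fam := false) (s1 := false) (s2 := false) (a := 1) (b := 1) (c := 2) (cn := .dn) (n1 := ndB0q1) (n2 := ndB3q2a) (pc := pcB1) (cut := Cut.none) (xt := Ext.none) (P1 := 536870912) (W1 := 536870912) (P2 := 0) (W2 := 536870912) (P3 := 536870912) (W3 := 50465866) (N0 := 3) (En := eng) (mo := mog) (C1 := cd0q1) (C2 := cd3q2a) (C3 := pd1)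
    rfl k0_mm_112_a

noncomputable def f_mm_112_b : ℕ → ℕ → ℕ → ℕ → Bool := onCell 536870912 536870912 1239849684 370763052 536870912 50465866
    (rowB 3 eng mog cd0q1 cd3q2b pd1 0 false false false .dn 1 1 2 (qsf 536870912 536870912 1239849684 370763052 1) ndB0q1 ndB3q2b pcB1 Cut.none Ext.none)

def k0_mm_112_b : ∃ t, chk3 f_mm_112_b t 1 1 1 = true :=
  ⟨(l 5), by decide +kernel⟩

theorem c_mm_112_b : CertB 536870912 536870912 1239849684 370763052 536870912 50465866 3 eng mog cd0q1 cd3q2b pd1 false false false .dn 1 1 2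
    ndB0q1 ndB3q2b pcB1 Cut.none Ext.none :=
  certB0 (fam := false) (s1 := false) (s2 := false) (a := 1) (b := 1) (c := 2) (cn := .dn) (n1 := ndB0q1) (n2 := ndB3q2b) (pc := pcB1) (cut := Cut.none) (xt := Ext.none) (P1 := 536870912) (W1 := 536870912) (P2 := 1239849684) (W2 := 370763052) (P3 := 536870912) (W3 := 50465866) (N0 := 3) (En := eng) (mo := mog) (C1 := cd0q1) (C2 := cd3q2b) (C3 := pd1)
    rfl k0_mm_112_b

noncomputable def f_mm_113 : ℕ → ℕ → ℕ → ℕ → Bool := onCell 536870912 536870912 1610612736 536870912 536870912 50465866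
    (rowB 3 eng mog cd0q1 cd3q3 pd1 0 false false false .nn 1 1 3 (qsf 536870912 536870912 1610612736 536870912 1) ndB0q1 ndB3q3 pcB1 Cut.none Ext.none)

def k0_mm_113 : ∃ t, chk3 f_mm_113 t 1 1 1 = true :=
  ⟨(l 5), by decide +kernel⟩

theorem c_mm_113 : CertB 536870912 536870912 1610612736 536870912 536870912 50465866 3 eng mog cd0q1 cd3q3 pd1 false false false .nn 1 1 3
    ndB0q1 ndB3q3 pcB1 Cut.none Ext.none :=
  certB0 (fam := false) (s1 := false) (s2 := false) (a := 1) (b := 1) (c := 3) (cn := .nn) (n1 := ndB0q1) (n2 := ndB3q3) (pc := pcB1) (cut := Cut.none) (xt := Ext.none) (P1 := 536870912) (W1 := 536870912) (P2 := 1610612736) (W2 := 536870912) (P3 := 536870912) (W3 := 50465866) (N0 := 3) (En := eng) (mo := mog) (C1 := cd0q1) (C2 := cd3q3) (C3 := pd1)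
    rfl k0_mm_113

noncomputable def f_mm_123 : ℕ → ℕ → ℕ → ℕ → Bool := onCell 536870912 536870912 1610612736 536870912 536870912 50465866
    (rowB 3 eng mog cd0q1 cd3q3 pd2 0 false false false .npn 1 2 3 (qsf 536870912 536870912 1610612736 536870912 2) ndB0q1 ndB3q3 pcB2 Cut.none Ext.none)

def k0_mm_123 : ∃ t, chk3 f_mm_123 t 1 1 1 = true :=
  ⟨(l 5), by decide +kernel⟩

theorem c_mm_123 : CertB 536870912 536870912 1610612736 536870912 536870912 50465866 3 eng mog cd0q1 cd3q3 pd2 false false false .npn 1 2 3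
    ndB0q1 ndB3q3 pcB2 Cut.none Ext.none :=
  certB0 (fam := false) (s1 := false) (s2 := false) (a := 1) (b := 2) (c := 3) (cn := .npn) (n1 := ndB0q1) (n2 := ndB3q3) (pc := pcB2) (cut := Cut.none) (xt := Ext.none) (P1 := 536870912) (W1 := 536870912) (P2 := 1610612736) (W2 := 536870912) (P3 := 536870912) (W3 := 50465866) (N0 := 3) (En := eng) (mo := mog) (C1 := cd0q1) (C2 := cd3q3) (C3 := pd2)
    rfl k0_mm_123

noncomputable def f_mm_133 : ℕ → ℕ → ℕ → ℕ → Bool := onCell 536870912 536870912 1610612736 536870912 536870912 50465866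
    (rowB 3 eng mog cd0q1 cd3q3 pd3 0 false false false .dn 1 3 3 (qsf 536870912 536870912 1610612736 536870912 3) ndB0q1 ndB3q3 pcB3 Cut.none Ext.none)

def k0_mm_133 : ∃ t, chk3 f_mm_133 t 1 1 1 = true :=
  ⟨(l 5), by decide +kernel⟩

theorem c_mm_133 : CertB 536870912 536870912 1610612736 536870912 536870912 50465866 3 eng mog cd0q1 cd3q3 pd3 false false false .dn 1 3 3
    ndB0q1 ndB3q3 pcB3 Cut.none Ext.none :=
  certB0 (fam := false) (s1 := false) (s2 := false) (a := 1) (b := 3) (c := 3) (cn := .dn) (n1 := ndB0q1) (n2 := ndB3q3) (pc := pcB3) (cut := Cut.none) (xt := Ext.none) (P1 := 536870912) (W1 := 536870912) (P2 := 1610612736) (W2 := 536870912) (P3 := 536870912) (W3 := 50465866) (N0 := 3) (En := eng) (mo := mog) (C1 := cd0q1) (C2 := cd3q3) (C3 := pd3)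
    rfl k0_mm_133

noncomputable def f_mm_202_a : ℕ → ℕ → ℕ → ℕ → Bool := onCell 0 536870912 0 536870912 536870912 50465866
    (rowB 3 eng mog cd0q2 cd3q2a pd0 0 false false false .pp 2 0 2 (qsf 0 536870912 0 536870912 0) ndB0q2 ndB3q2a pcB0 Cut.none Ext.none)

def k0_mm_202_a : ∃ t, chk3 f_mm_202_a t 1 1 1 = true :=
  ⟨(l 3), by decide +kernel⟩

theorem c_mm_202_a : CertB 0 536870912 0 536870912 536870912 50465866 3 eng mog cd0q2 cd3q2a pd0 false false false .pp 2 0 2
    ndB0q2 ndB3q2a pcB0 Cut.none Ext.none :=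
  certB0 (fam := false) (s1 := false) (s2 := false) (a := 2) (b := 0) (c := 2) (cn := .pp) (n1 := ndB0q2) (n2 := ndB3q2a) (pc := pcB0) (cut := Cut.none) (xt := Ext.none) (P1 := 0) (W1 := 536870912) (P2 := 0) (W2 := 536870912) (P3 := 536870912) (W3 := 50465866) (N0 := 3) (En := eng) (mo := mog) (C1 := cd0q2) (C2 := cd3q2a) (C3 := pd0)
    rfl k0_mm_202_a

noncomputable def f_mm_202_b : ℕ → ℕ → ℕ → ℕ → Bool := onCell 0 536870912 1239849684 370763052 536870912 50465866
    (rowB 3 eng mog cd0q2 cd3q2b pd0 0 false false false .pp 2 0 2 (qsf 0 536870912 1239849684 370763052 0) ndB0q2 ndB3q2b pcB0 Cut.none Ext.none)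

def k0_mm_202_b : ∃ t, chk3 f_mm_202_b t 1 1 1 = true :=
  ⟨(l 3), by decide +kernel⟩

theorem c_mm_202_b : CertB 0 536870912 1239849684 370763052 536870912 50465866 3 eng mog cd0q2 cd3q2b pd0 false false false .pp 2 0 2
    ndB0q2 ndB3q2b pcB0 Cut.none Ext.none :=
  certB0 (fam := false) (s1 := false) (s2 := false) (a := 2) (b := 0) (c := 2) (cn := .pp) (n1 := ndB0q2) (n2 := ndB3q2b) (pc := pcB0) (cut := Cut.none) (xt := Ext.none) (P1 := 0) (W1 := 536870912) (P2 := 1239849684) (W2 := 370763052) (P3 := 536870912) (W3 := 50465866) (N0 := 3) (En := eng) (mo := mog) (C1 := cd0q2) (C2 := cd3q2b) (C3 := pd0)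
    rfl k0_mm_202_b

noncomputable def f_mm_203 : ℕ → ℕ → ℕ → ℕ → Bool := onCell 0 536870912 0 536870912 536870912 50465866
    (rowB 3 eng mog cd0q2 cd3q3 pd0 1 false false false .up 2 0 3 (qsf 0 536870912 1610612736 536870912 0) ndB0q2 ndB3q3 pcB0 Cut.none Ext.none)

def k0_mm_203 : ∃ t, chk3 f_mm_203 t 1 1 1 = true :=
  ⟨(l 3), by decide +kernel⟩

theorem c_mm_203 : CertB 0 536870912 1610612736 536870912 536870912 50465866 3 eng mog cd0q2 cd3q3 pd0 false false false .up 2 0 3
    ndB0q2 ndB3q3 pcB0 Cut.none Ext.none :=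
  certB1 (fam := false) (s1 := false) (s2 := false) (a := 2) (b := 0) (c := 3) (cn := .up) (n1 := ndB0q2) (n2 := ndB3q3) (pc := pcB0) (cut := Cut.none) (xt := Ext.none) (P1 := 0) (W1 := 536870912) (P2 := 1610612736) (W2 := 536870912) (P3 := 536870912) (W3 := 50465866) (N0 := 3) (En := eng) (mo := mog) (C1 := cd0q2) (C2 := cd3q3) (C3 := pd0)
    rfl (fun _ => rfl) k0_mm_203

noncomputable def f_mm_213 : ℕ → ℕ → ℕ → ℕ → Bool := onCell 0 536870912 1610612736 536870912 536870912 50465866
    (rowB 3 eng mog cd0q2 cd3q3 pd1 0 false false false .pnn 2 1 3 (qsf 0 536870912 1610612736 536870912 1) ndB0q2 ndB3q3 pcB1 Cut.none Ext.none)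

def k0_mm_213 : ∃ t, chk3 f_mm_213 t 1 1 1 = true :=
  ⟨(b (l 3) (a (l 3) (l 5))), by decide +kernel⟩

theorem c_mm_213 : CertB 0 536870912 1610612736 536870912 536870912 50465866 3 eng mog cd0q2 cd3q3 pd1 false false false .pnn 2 1 3
    ndB0q2 ndB3q3 pcB1 Cut.none Ext.none :=
  certB0 (fam := false) (s1 := false) (s2 := false) (a := 2) (b := 1) (c := 3) (cn := .pnn) (n1 := ndB0q2) (n2 := ndB3q3) (pc := pcB1) (cut := Cut.none) (xt := Ext.none) (P1 := 0) (W1 := 536870912) (P2 := 1610612736) (W2 := 536870912) (P3 := 536870912) (W3 := 50465866) (N0 := 3) (En := eng) (mo := mog) (C1 := cd0q2) (C2 := cd3q3) (C3 := pd1)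
    rfl k0_mm_213

end Pool.Agent.Strip051.G.I5000_5470.Tab.C.BB03

namespace Pool.Agent.Strip051.G.I5000_5470.Tab.C.BB04

open Pool.Agent.Strip051.PB Pool.Agent.Strip051.PB.T
open Pool.Agent.Strip051.G.I5000_5470.Tab

noncomputable def f_pp_001 : ℕ → ℕ → ℕ → ℕ → Bool := onCell 0 536870912 0 536870912 536870912 50465866
    (rowB 3 eng mog cd0q0 cd4q1 pd0 1 false true true .up 0 0 1 (qsf 0 536870912 536870912 536870912 0) ndB0q0 ndB4q1 pcB0 Cut.none Ext.none)

def k0_pp_001 : ∃ t, chk3 f_pp_001 t 1 1 1 = true :=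
  ⟨(l 3), by decide +kernel⟩

theorem c_pp_001 : CertB 0 536870912 536870912 536870912 536870912 50465866 3 eng mog cd0q0 cd4q1 pd0 false true true .up 0 0 1
    ndB0q0 ndB4q1 pcB0 Cut.none Ext.none :=
  certB1 (fam := false) (s1 := true) (s2 := true) (a := 0) (b := 0) (c := 1) (cn := .up) (n1 := ndB0q0) (n2 := ndB4q1) (pc := pcB0) (cut := Cut.none) (xt := Ext.none) (P1 := 0) (W1 := 536870912) (P2 := 536870912) (W2 := 536870912) (P3 := 536870912) (W3 := 50465866) (N0 := 3) (En := eng) (mo := mog) (C1 := cd0q0) (C2 := cd4q1) (C3 := pd0)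
    rfl (fun _ => rfl) k0_pp_001

noncomputable def cut_pp_011 : Cut := Cut.of [[⟨0, 0, 0, 67108864⟩, ⟨1, 1, 0, 67108864⟩, ⟨2, 1, 0, 67108864⟩]]

noncomputable def f_pp_011 : ℕ → ℕ → ℕ → ℕ → Bool := onCell 0 536870912 536870912 536870912 536870912 50465866
    (rowB 3 eng mog cd0q0 cd4q1 pd1 1 false true true .pnn 0 1 1 (qsf 0 536870912 536870912 536870912 1) ndB0q0 ndB4q1 pcB1 cut_pp_011 Ext.none)

def k0_pp_011 : ∃ t, chk3 f_pp_011 t 1 1 1 = true :=
  ⟨(b (l 3) (a (b (l 3) (a (b (l 3) (a (b (l 3) (a (l 6) (l 3))) (l 3))) (l 3))) (l 3))), by decide +kernel⟩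

theorem c_pp_011 : CertB 0 536870912 536870912 536870912 536870912 50465866 3 eng mog cd0q0 cd4q1 pd1 false true true .pnn 0 1 1
    ndB0q0 ndB4q1 pcB1 cut_pp_011 Ext.none :=
  certB1 (fam := false) (s1 := true) (s2 := true) (a := 0) (b := 1) (c := 1) (cn := .pnn) (n1 := ndB0q0) (n2 := ndB4q1) (pc := pcB1) (cut := cut_pp_011) (xt := Ext.none) (P1 := 0) (W1 := 536870912) (P2 := 536870912) (W2 := 536870912) (P3 := 536870912) (W3 := 50465866) (N0 := 3) (En := eng) (mo := mog) (C1 := cd0q0) (C2 := cd4q1) (C3 := pd1)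
    rfl (fun _ => rfl) k0_pp_011

noncomputable def f_pp_012 : ℕ → ℕ → ℕ → ℕ → Bool := onCell 0 536870912 536870912 536870912 536870912 50465866
    (rowB 3 eng mog cd0q0 cd4q2 pd1 1 false true true .pnp 0 1 2 (qsf 0 536870912 1073741824 536870912 1) ndB0q0 ndB4q2 pcB1 Cut.none Ext.none)

def k0_pp_012 : ∃ t, chk3 f_pp_012 t 1 1 1 = true :=
  ⟨(l 3), by decide +kernel⟩

theorem c_pp_012 : CertB 0 536870912 1073741824 536870912 536870912 50465866 3 eng mog cd0q0 cd4q2 pd1 false true true .pnp 0 1 2
    ndB0q0 ndB4q2 pcB1 Cut.none Ext.none :=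
  certB1 (fam := false) (s1 := true) (s2 := true) (a := 0) (b := 1) (c := 2) (cn := .pnp) (n1 := ndB0q0) (n2 := ndB4q2) (pc := pcB1) (cut := Cut.none) (xt := Ext.none) (P1 := 0) (W1 := 536870912) (P2 := 1073741824) (W2 := 536870912) (P3 := 536870912) (W3 := 50465866) (N0 := 3) (En := eng) (mo := mog) (C1 := cd0q0) (C2 := cd4q2) (C3 := pd1)
    rfl (fun _ => rfl) k0_pp_012

noncomputable def f_pp_022 : ℕ → ℕ → ℕ → ℕ → Bool := onCell 1073741824 536870912 1073741824 536870912 536870912 50465866
    (rowB 3 eng mog cd0q0 cd4q2 pd2 2 false true true .pp 0 2 2 (qsf 0 536870912 1073741824 536870912 2) ndB0q0 ndB4q2 pcB2 Cut.none Ext.none)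

def k0_pp_022 : ∃ t, chk3 f_pp_022 t 4 2 1 = true :=
  ⟨(a (l 3) (a (l 3) (a (l 3) (b (b (l 1) (l 3)) (a (b (l 3) (b (l 3) (a (l 3) (l 16518568)))) (a (b (b (l 3) (c (l 16544272) (l 16513368))) (b (l 16542536) (l 16514640))) (b (b (l 16598880) (c (l 16541664) (l 16507472))) (b (l 16527488) (l 16511320))))))))), by decide +kernel⟩

def k1_pp_022 : ∃ t, chk3 f_pp_022 t 5 2 1 = true :=
  ⟨(a (a (a (b (b (l 1) (b (l 1) (a (a (l 16521232) (l 1)) (l 1)))) (b (b (a (a (l 16582240) (a (l 16546224) (l 16564120))) (b (a (l 16499664) (l 16493504)) (a (l 16492952) (l 16487224)))) (a (a (l 16582992) (l 16587992)) (b (l 16505984) (l 16486304)))) (a (b (a (b (l 16500928) (l 16503224)) (b (l 16495784) (l 16498416))) (a (l 16507248) (l 16503088))) (b (b (l 16488768) (l 16491968)) (l 16497728))))) (a (b (l 1) (a (b (b (b (l 16487376) (l 16481544)) (b (l 16477160) (l 16479120))) (b (l 16567984) (l 16492864))) (b (b (b (l 1) (l 16475024)) (b (l 16470792) (l 16472848))) (b (l 16561800) (l 16486712))))) (b (l 1) (b (a (b (b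 (l 1) (l 16509752)) (b (l 16505312) (l 16465392))) (b (b (l 1) (b (l 1) (a (l 16502488) (b (l 1) (l 16562816))))) (a (b (b (l 16478744) (l 16458296)) (l 16460296)) (b (b (l 16571584) (l 16582880)) (b (l 16563496) (l 16523392)))))) (a (b (a (l 16556144) (l 16573216)) (a (l 16481056) (l 16477656))) (a (b (a (l 16528872) (l 16549512)) (l 16475832)) (b (c (l 16569944) (l 16486760)) (c (l 16499568) (l 16474752))))))))) (b (l 1) (b (b (b (l 1) (l 16453976)) (b (a (c (l 16441184) (l 16444712)) (l 16523120)) (a (c (l 16446000) (l 16447840)) (l 16423584)))) (b (b (l 16441568) (l 16448160)) (b (l 16455376) (l 16463040)))))) (b (l 1) (b (b (l 1) (b (l 1) (a (l 16385384) (l 1)))) (b (a (b (l 16436032) (l 16403576)) (b (l 1) (l 16354936))) (a (b (l 16413696) (l 16424272)) (b (l 16368048) (l 16381648))))))), by decide +kernel⟩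

def k2_pp_022 : ∃ t, chk3 f_pp_022 t 4 3 1 = true :=
  ⟨(b (a (l 3) (a (l 3) (b (a (l 3) (b (a (a (l 3) (l 16521000)) (a (l 16519136) (l 16516712))) (a (a (l 16523488) (l 16522456)) (a (l 16522608) (l 16520392))))) (a (b (l 3) (a (l 3) (l 16507032))) (b (a (a (l 16560416) (l 16520216)) (a (l 16542888) (l 16520232))) (a (l 16574072) (a (l 16512960) (l 16511792)))))))) (a (l 3) (a (l 3) (b (a (b (l 16529416) (l 16491304)) (a (b (l 16495856) (l 16479784)) (b (l 16500560) (l 16487400)))) (b (a (l 153175463655) (a (l 16463040) (l 16473520))) (a (a (b (l 16466088) (l 16451816)) (b (l 16449128) (l 16466312))) (b (l 16458512) (l 16485976)))))))), by decide +kernel⟩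

def k3_pp_022 : ∃ t, chk3 f_pp_022 t 5 3 1 = true :=
  ⟨(b (a (a (a (b (a (b (a (l 16512992) (l 16509816)) (l 16516656)) (b (l 16506064) (l 16513816))) (b (a (l 16517968) (l 16517976)) (a (l 16512000) (l 16515136)))) (a (b (b (a (l 16502624) (l 16496472)) (a (l 16511928) (l 16505680))) (b (a (l 16517776) (l 16511600)) (l 16512728))) (a (b (b (l 16489616) (l 16499528)) (b (l 16506408) (l 16506472))) (b (a (b (l 16487136) (l 16498360)) (b (l 16531488) (l 16522904))) (a (b (l 16506512) (l 16508216)) (b (l 16511416) (l 16514544))))))) (b (b (l 16475024) (l 16491016)) (b (l 16504376) (l 16511760)))) (b (b (a (l 16440656) (b (l 16395560) (l 16409600))) (a (l 16462664) (l 16430608))) (b (a (l 16482192) (l 16455992)) (l 16507368)))) (a (b (a (a (a (l 16561824) (a (l 16503760) (l 16506976))) (a (b (l 16508696) (l 16500368)) (a (l 16501128) (a (l 16505328) (l 16514168))))) (b (l 16516672) (l 16518704))) (a (a (b (a (l 16482136) (l 16490664)) (b (a (l 16474456) (l 16483920)) (a (l 16500848) (l 16509024)))) (a (b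 (l 16491648) (l 16604000)) (a (b (l 16491520) (l 16501152)) (b (a (l 16498456) (l 16509888)) (a (l 16509456) (l 16605720)))))) (b (l 16519448) (l 16637704)))) (b (b (a (l 16507768) (l 16493104)) (l 16513568)) (b (l 16523792) (b (l 16530624) (l 16556880)))))), by decide +kernel⟩

def k4_pp_022 : ∃ t, chk3 f_pp_022 t 3 1 1 = true :=
  ⟨(b (a (b (l 1) (a (b (l 1) (b (l 1) (a (b (l 1) (l 16335576)) (l 1)))) (l 1))) (l 1)) (b (a (b (a (b (a (b (l 16352592) (l 16369808)) (l 16317512)) (a (l 16395568) (l 74120978471))) (b (l 1) (a (l 16319520) (l 1)))) (a (b (a (l 16426944) (l 16396680)) (a (l 16451912) (l 16427568))) (b (a (l 61772949671) (l 16330344)) (a (l 16401784) (l 16374160))))) (b (l 1) (a (b (l 1) (a (l 16339088) (l 1))) (l 1)))) (a (b (a (b (a (l 16474800) (l 16456096)) (l 16489288)) (b (a (l 16436328) (l 16415216)) (a (l 16468232) (l 16453144)))) (b (a (l 16510592) (a (l 16497448) (l 16487928))) (a (b (l 16526288) (l 16558232)) (b (a (l 16519152) (l 16512992)) (a (l 16557232) (l 16554040)))))) (b (a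 (a (b (a (l 16396112) (l 16374608)) (a (l 16438520) (l 16418560))) (b (l 16319456) (l 55867176759))) (a (b (l 1) (l 165388755399)) (l 1))) (a (b (a (l 16467328) (l 16405288)) (b (a (l 16493656) (l 16452616)) (a (l 16537392) (l 16502992)))) (b (a (l 88616289559) (l 186863627287)) (a (b (b (l 16405672) (l 16418920)) (l 16469536)) (b (b (l 16368480) (l 64994049975)) (a (l 16445728) (l 16437288)))))))))), by decide +kernel⟩

theorem s5_pp_022 : ∃ t, chk3 f_pp_022 t 2 3 1 = true := ex3_a k2_pp_022 k3_pp_022

theorem s6_pp_022 : ∃ t, chk3 f_pp_022 t 2 2 1 = true := ex3_a k0_pp_022 k1_pp_022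

theorem s7_pp_022 : ∃ t, chk3 f_pp_022 t 2 1 1 = true := ex3_b s6_pp_022 s5_pp_022

theorem s8_pp_022 : ∃ t, chk3 f_pp_022 t 1 1 1 = true := ex3_a s7_pp_022 k4_pp_022

theorem c_pp_022 : CertB 0 536870912 1073741824 536870912 536870912 50465866 3 eng mog cd0q0 cd4q2 pd2 false true true .pp 0 2 2
    ndB0q0 ndB4q2 pcB2 Cut.none Ext.none :=
  certB2 (fam := false) (s1 := true) (s2 := true) (a := 0) (b := 2) (c := 2) (cn := .pp) (n1 := ndB0q0) (n2 := ndB4q2) (pc := pcB2) (cut := Cut.none) (xt := Ext.none) (P1 := 0) (W1 := 536870912) (P2 := 1073741824) (W2 := 536870912) (P3 := 536870912) (W3 := 50465866) (N0 := 3) (En := eng) (mo := mog) (C1 := cd0q0) (C2 := cd4q2) (C3 := pd2)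
    rfl (fun _ => rfl) s8_pp_022

noncomputable def f_pp_023 : ℕ → ℕ → ℕ → ℕ → Bool := onCell 1073741824 536870912 0 1230186008 536870912 50465866
    (rowB 3 eng mog cd0q0 cd4q3 pd2 2 false true true .up 0 2 3 (qsf 0 536870912 0 1230186008 2) ndB0q0 ndB4q3 pcB2 Cut.none Ext.none)

def k0_pp_023 : ∃ t, chk3 f_pp_023 t 1 2 1 = true :=
  ⟨(a (l 2) (a (l 2) (a (b (l 2) (l 16748112)) (b (l 217533846743) (a (l 16745720) (l 16892344)))))), by decide +kernel⟩

def k1_pp_023 : ∃ t, chk3 f_pp_023 t 1 6 1 = true :=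
  ⟨(a (a (l 2) (a (l 2) (b (l 2) (b (l 2) (l 16880696))))) (a (b (a (l 2) (l 16922176)) (a (b (l 16716168) (l 16692320)) (b (l 16712512) (l 16690400)))) (a (b (l 16732056) (b (l 16712072) (l 16692192))) (a (b (l 16731792) (l 16703184)) (b (l 16736472) (l 16919616)))))), by decide +kernel⟩

def k2_pp_023 : ∃ t, chk3 f_pp_023 t 2 7 1 = true :=
  ⟨(a (b (l 2) (a (l 3) (b (a (a (l 3) (b (l 2) (a (l 3) (l 264844751255)))) (a (a (b (l 16649440) (a (l 16580144) (l 16573584))) (l 16580072)) (a (l 16569072) (l 16557728)))) (a (a (l 3) (b (b (a (l 3) (l 253570422567)) (l 243906702967)) (b (l 233706198999) (l 3)))) (b (a (a (b (a (l 16521648) (l 16514608)) (l 16495640)) (b (l 16504816) (l 16480624))) (b (l 16487392) (l 16461520))) (a (a (b (l 16484048) (l 16509112)) (b (l 16462088) (l 16489392))) (b (l 16434248) (l 16459960)))))))) (b (b (a (a (l 2) (l 16707184)) (a (l 16682888) (l 16667568))) (a (a (a (l 16677512) (a (l 16664464) (a (l 16658944) (a (l 16657208) (l 16656832))))) (b (l 16661696) (l 16620848))) (b (l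 16631544) (l 16596296)))) (b (a (a (a (l 16542640) (a (b (l 16584976) (l 16513664)) (a (l 16545448) (a (l 16545288) (l 16568040))))) (b (l 16568840) (l 16549552))) (a (l 16628272) (l 16580400))) (a (a (a (b (b (l 16479304) (l 16508840)) (a (l 16434000) (l 16447776))) (a (b (l 16490264) (l 16455720)) (a (b (l 16499824) (l 16462376)) (b (a (l 16512784) (l 16528528)) (a (l 16474408) (l 16490296)))))) (b (l 16546432) (l 16507968))) (b (a (l 16565112) (l 16577096)) (b (l 16542080) (l 16517120))))))), by decide +kernel⟩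

def k3_pp_023 : ∃ t, chk3 f_pp_023 t 3 7 1 = true :=
  ⟨(b (a (a (b (a (l 16657912) (l 16655584)) (l 16609456)) (b (l 16660952) (l 16625512))) (a (b (l 16664752) (l 16631808)) (b (a (l 16663544) (l 16669568)) (a (l 16628488) (l 16782080))))) (a (b (a (b (l 16584880) (l 16598472)) (b (l 16602208) (l 16609432))) (b (a (a (l 16583880) (l 16588888)) (a (l 16590248) (l 16589864))) (a (a (l 16537488) (l 16539952)) (a (l 16538168) (l 16531352))))) (b (a (b (l 16603936) (l 16594424)) (a (l 16587680) (b (l 16605336) (l 16583224)))) (a (b (b (l 16583528) (l 16550368)) (a (l 16512520) (b (l 16498328) (l 16453328)))) (b (a (l 16529888) (b (l 16549528) (l 16492976))) (a (b (l 16466416) (l 16415248)) (b (l 16442264) (a (l 16388232) (l 16379328))))))))), by decide +kernel⟩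

theorem s4_pp_023 : ∃ t, chk3 f_pp_023 t 1 7 1 = true := ex3_a k2_pp_023 k3_pp_023

theorem s5_pp_023 : ∃ t, chk3 f_pp_023 t 1 3 1 = true := ex3_b k1_pp_023 s4_pp_023

theorem s6_pp_023 : ∃ t, chk3 f_pp_023 t 1 1 1 = true := ex3_b k0_pp_023 s5_pp_023

theorem c_pp_023 : CertB 0 536870912 0 1230186008 536870912 50465866 3 eng mog cd0q0 cd4q3 pd2 false true true .up 0 2 3
    ndB0q0 ndB4q3 pcB2 Cut.none Ext.none :=
  certB2 (fam := false) (s1 := true) (s2 := true) (a := 0) (b := 2) (c := 3) (cn := .up) (n1 := ndB0q0) (n2 := ndB4q3) (pc := pcB2) (cut := Cut.none) (xt := Ext.none) (P1 := 0) (W1 := 536870912) (P2 := 0) (W2 := 1230186008) (P3 := 536870912) (W3 := 50465866) (N0 := 3) (En := eng) (mo := mog) (C1 := cd0q0) (C2 := cd4q3) (C3 := pd2)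
    rfl (fun _ => rfl) s6_pp_023

noncomputable def f_pp_033 : ℕ → ℕ → ℕ → ℕ → Bool := onCell 1610612736 536870912 0 1230186008 536870912 50465866
    (rowB 3 eng mog cd0q0 cd4q3 pd3 2 false true true .pnn 0 3 3 (qsf 0 536870912 0 1230186008 3) ndB0q0 ndB4q3 pcB3 Cut.none Ext.none)

def k0_pp_033 : ∃ t, chk3 f_pp_033 t 1 1 1 = true :=
  ⟨(b (b (a (a (a (l 16786096) (l 16737456)) (a (l 16733960) (l 16730616))) (l 4)) (a (a (a (b (l 16744960) (l 16743080)) (b (l 16739288) (l 16740160))) (a (b (l 16735152) (l 16733864)) (b (l 16730640) (l 16730760)))) (a (a (b (l 16725264) (l 16728904)) (a (l 16725600) (l 4))) (l 4)))) (b (b (a (a (a (a (l 16732024) (l 16740048)) (l 16842792)) (a (l 16728720) (l 16728712))) (a (a (l 16735304) (a (l 16746816) (l 16754632))) (l 4))) (a (a (a (a (l 16809520) (b (l 16728632) (l 16711800))) (a (b (l 16733520) (l 16721872)) (l 16720952))) (a (b (l 16718200) (l 16707744)) (b (l 16720744) (l 16711408)))) (a (a (b (l 16735376) (l 16732256)) (a (l 412350881847) (l 1))) (l 1)))) (a (a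 (b (a (b (a (l 16667288) (l 16687880)) (a (l 16638456) (l 16663264))) (b (a (l 16702056) (l 16699336)) (a (l 16681048) (l 16680360)))) (b (a (a (b (l 16615856) (l 16600040)) (b (l 16642888) (l 16627584))) (a (b (l 16662584) (a (l 16647544) (l 16648536))) (l 227129655351))) (a (b (a (b (l 16571464) (l 16493728)) (b (a (l 16591184) (l 16605832)) (l 103112066519))) (a (b (l 94522047751) (l 142840288647)) (b (l 162704613751) (l 1)))) (b (a (b (a (l 73584391127) (l 1)) (l 1)) (l 1)) (l 1))))) (b (a (b (b (l 16699288) (l 16691272)) (b (l 16683616) (l 16675440))) (b (l 16697984) (l 1))) (b (a (b (l 236256500823) (l 1)) (l 1)) (l 1)))) (l 1)))), by decide +kernel⟩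

theorem c_pp_033 : CertB 0 536870912 0 1230186008 536870912 50465866 3 eng mog cd0q0 cd4q3 pd3 false true true .pnn 0 3 3
    ndB0q0 ndB4q3 pcB3 Cut.none Ext.none :=
  certB2 (fam := false) (s1 := true) (s2 := true) (a := 0) (b := 3) (c := 3) (cn := .pnn) (n1 := ndB0q0) (n2 := ndB4q3) (pc := pcB3) (cut := Cut.none) (xt := Ext.none) (P1 := 0) (W1 := 536870912) (P2 := 0) (W2 := 1230186008) (P3 := 536870912) (W3 := 50465866) (N0 := 3) (En := eng) (mo := mog) (C1 := cd0q0) (C2 := cd4q3) (C3 := pd3)
    rfl (fun _ => rfl) k0_pp_033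

noncomputable def f_pp_101 : ℕ → ℕ → ℕ → ℕ → Bool := onCell 536870912 536870912 536870912 536870912 536870912 50465866
    (rowB 3 eng mog cd0q1 cd4q1 pd0 0 false true true .npn 1 0 1 (qsf 536870912 536870912 536870912 536870912 0) ndB0q1 ndB4q1 pcB0 Cut.none Ext.none)

def k0_pp_101 : ∃ t, chk3 f_pp_101 t 1 1 1 = true :=
  ⟨(a (l 3) (l 5)), by decide +kernel⟩

theorem c_pp_101 : CertB 536870912 536870912 536870912 536870912 536870912 50465866 3 eng mog cd0q1 cd4q1 pd0 false true true .npn 1 0 1
    ndB0q1 ndB4q1 pcB0 Cut.none Ext.none :=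
  certB0 (fam := false) (s1 := true) (s2 := true) (a := 1) (b := 0) (c := 1) (cn := .npn) (n1 := ndB0q1) (n2 := ndB4q1) (pc := pcB0) (cut := Cut.none) (xt := Ext.none) (P1 := 536870912) (W1 := 536870912) (P2 := 536870912) (W2 := 536870912) (P3 := 536870912) (W3 := 50465866) (N0 := 3) (En := eng) (mo := mog) (C1 := cd0q1) (C2 := cd4q1) (C3 := pd0)
    rfl k0_pp_101

noncomputable def f_pp_102 : ℕ → ℕ → ℕ → ℕ → Bool := onCell 536870912 536870912 1073741824 536870912 536870912 50465866
    (rowB 3 eng mog cd0q1 cd4q2 pd0 0 false true true .npp 1 0 2 (qsf 536870912 536870912 1073741824 536870912 0) ndB0q1 ndB4q2 pcB0 Cut.none Ext.none)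

def k0_pp_102 : ∃ t, chk3 f_pp_102 t 1 1 1 = true :=
  ⟨(l 3), by decide +kernel⟩

theorem c_pp_102 : CertB 536870912 536870912 1073741824 536870912 536870912 50465866 3 eng mog cd0q1 cd4q2 pd0 false true true .npp 1 0 2
    ndB0q1 ndB4q2 pcB0 Cut.none Ext.none :=
  certB0 (fam := false) (s1 := true) (s2 := true) (a := 1) (b := 0) (c := 2) (cn := .npp) (n1 := ndB0q1) (n2 := ndB4q2) (pc := pcB0) (cut := Cut.none) (xt := Ext.none) (P1 := 536870912) (W1 := 536870912) (P2 := 1073741824) (W2 := 536870912) (P3 := 536870912) (W3 := 50465866) (N0 := 3) (En := eng) (mo := mog) (C1 := cd0q1) (C2 := cd4q2) (C3 := pd0)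
    rfl k0_pp_102

noncomputable def f_pp_112 : ℕ → ℕ → ℕ → ℕ → Bool := onCell 536870912 536870912 1073741824 536870912 536870912 50465866
    (rowB 3 eng mog cd0q1 cd4q2 pd1 0 false true true .dn 1 1 2 (qsf 536870912 536870912 1073741824 536870912 1) ndB0q1 ndB4q2 pcB1 Cut.none Ext.none)

def k0_pp_112 : ∃ t, chk3 f_pp_112 t 1 1 1 = true :=
  ⟨(l 3), by decide +kernel⟩

theorem c_pp_112 : CertB 536870912 536870912 1073741824 536870912 536870912 50465866 3 eng mog cd0q1 cd4q2 pd1 false true true .dn 1 1 2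
    ndB0q1 ndB4q2 pcB1 Cut.none Ext.none :=
  certB0 (fam := false) (s1 := true) (s2 := true) (a := 1) (b := 1) (c := 2) (cn := .dn) (n1 := ndB0q1) (n2 := ndB4q2) (pc := pcB1) (cut := Cut.none) (xt := Ext.none) (P1 := 536870912) (W1 := 536870912) (P2 := 1073741824) (W2 := 536870912) (P3 := 536870912) (W3 := 50465866) (N0 := 3) (En := eng) (mo := mog) (C1 := cd0q1) (C2 := cd4q2) (C3 := pd1)
    rfl k0_pp_112

noncomputable def cut_pp_113 : Cut := Cut.of [[⟨0, 1, 0, 67108864⟩, ⟨1, 1, 0, 67108864⟩, ⟨2, 2, 0, 16777216⟩]]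

noncomputable def f_pp_113 : ℕ → ℕ → ℕ → ℕ → Bool := onCell 536870912 536870912 0 1230186008 536870912 50465866
    (rowB 3 eng mog cd0q1 cd4q3 pd1 2 false true true .nn 1 1 3 (qsf 536870912 536870912 0 1230186008 1) ndB0q1 ndB4q3 pcB1 cut_pp_113 Ext.none)

def k0_pp_113 : ∃ t, chk3 f_pp_113 t 1 1 1 = true :=
  ⟨(b (a (l 2) (a (l 2) (a (l 3) (a (l 3) (b (b (l 6) (l 3)) (l 3)))))) (b (a (l 3) (a (l 3) (l 3))) (a (b (l 3) (l 3)) (l 3)))), by decide +kernel⟩

theorem c_pp_113 : CertB 536870912 536870912 0 1230186008 536870912 50465866 3 eng mog cd0q1 cd4q3 pd1 false true true .nn 1 1 3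
    ndB0q1 ndB4q3 pcB1 cut_pp_113 Ext.none :=
  certB2 (fam := false) (s1 := true) (s2 := true) (a := 1) (b := 1) (c := 3) (cn := .nn) (n1 := ndB0q1) (n2 := ndB4q3) (pc := pcB1) (cut := cut_pp_113) (xt := Ext.none) (P1 := 536870912) (W1 := 536870912) (P2 := 0) (W2 := 1230186008) (P3 := 536870912) (W3 := 50465866) (N0 := 3) (En := eng) (mo := mog) (C1 := cd0q1) (C2 := cd4q3) (C3 := pd1)
    rfl (fun _ => rfl) k0_pp_113

noncomputable def cut_pp_123 : Cut := Cut.of [[⟨0, 1, 0, 67108864⟩, ⟨1, 1, 0, 67108864⟩, ⟨2, 2, 0, 16777216⟩]]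

noncomputable def f_pp_123 : ℕ → ℕ → ℕ → ℕ → Bool := onCell 1073741824 536870912 0 1230186008 536870912 50465866
    (rowB 3 eng mog cd0q1 cd4q3 pd2 2 false true true .npn 1 2 3 (qsf 536870912 536870912 0 1230186008 2) ndB0q1 ndB4q3 pcB2 cut_pp_123 Ext.none)

def k0_pp_123 : ∃ t, chk3 f_pp_123 t 1 4 1 = true :=
  ⟨(a (a (a (a (b (l 6) (b (l 6) (a (l 3) (a (a (l 3) (b (a (a (l 302962998903) (b (l 16791816) (l 293299334807))) (a (b (l 16791584) (l 16794192)) (b (l 16770456) (l 16794008)))) (a (l 3) (l 294909945431)))) (a (b (a (b (l 16791392) (l 16793712)) (l 16792304)) (a (b (l 16796464) (l 243370345847)) (b (l 16775040) (l 16798864)))) (b (l 16791504) (a (l 16817944) (l 16796824)))))))) (b (a (l 6) (l 16773256)) (a (b (l 6) (a (l 16818912) (l 16790784))) (l 16783144)))) (a (b (l 16770096) (l 16776272)) (b (l 16765232) (l 16789176)))) (a (a (a (l 16761136) (l 16759040)) (l 16798192)) (l 16755272))) (a (a (l 16755912) (l 16754296)) (a (l 16750840) (l 16789256)))), by decide +kernel⟩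

def k1_pp_123 : ∃ t, chk3 f_pp_123 t 1 5 1 = true :=
  ⟨(a (a (a (a (b (a (l 3) (a (l 3) (b (a (b (l 275582603367) (l 3)) (b (a (b (c (l 16780784) (l 16785160)) (l 288467474071)) (l 16812872)) (a (l 272898218119) (b (l 16828056) (l 16820840))))) (l 3)))) (l 3)) (b (a (a (b (a (b (l 16802000) (a (b (l 16806392) (l 16809640)) (l 16807448))) (l 16824872)) (a (b (a (l 280951357927) (l 199883861607)) (l 275045766727)) (b (a (l 16833992) (l 16812352)) (a (l 224579933991) (l 16839416))))) (b (l 16801576) (b (l 16810744) (a (b (l 16815840) (l 16818440)) (l 16815664))))) (b (l 16797216) (a (l 16809464) (l 16805800)))) (a (b (a (b (a (l 3) (l 276656387575)) (l 3)) (b (a (a (l 256792202167) (l 16822056)) (l 16820512)) (a (l 277193297735) (b (l 16824112) (l 271824592423))))) (a (l 3) (a (l 3) (b (b (l 272898340567) (l 274508942791)) (a (l 3) (l 298131242423)))))) (a (b (a (b (l 16818776) (l 16823312)) (b (l 16816496) (l 16821208))) (a (b (b (l 16826368) (l 16849608)) (b (a (l 16831480) (l 16830192)) (l 277730168311)))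 (b (l 16825392) (b (l 16828232) (l 16830344))))) (b (b (l 16812936) (l 16817536)) (a (b (l 16823184) (l 16827184)) (l 16822976))))))) (a (a (b (l 16795120) (b (l 16808224) (a (l 16881904) (l 16814632)))) (b (l 16829464) (b (l 16799096) (l 16808096)))) (b (l 16882008) (b (l 16787776) (l 16859184))))) (a (a (b (a (l 16769512) (l 16997216)) (a (l 16782088) (l 16778168))) (b (l 16762072) (l 16769512))) (b (l 16758264) (l 16988864)))) (a (a (b (l 16755464) (l 16750192)) (b (l 16753200) (l 16747560))) (a (b (l 16751080) (l 16745384)) (a (l 16955360) (b (l 16747280) (l 1)))))), by decide +kernel⟩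

def k2_pp_123 : ∃ t, chk3 f_pp_123 t 4 6 1 = true :=
  ⟨(a (b (a (l 3) (a (l 3) (b (a (b (a (b (l 276656430231) (a (l 3) (l 328196009863))) (a (b (l 16833136) (l 16835328)) (b (l 16831944) (l 16834144)))) (b (a (l 3) (a (l 331417238711) (l 16836448))) (a (l 3) (a (l 3) (l 270750832007))))) (a (b (b (l 16830240) (a (l 16832944) (l 16831856))) (b (a (l 16835344) (l 16834168)) (a (l 16837888) (l 16836792)))) (b (l 16829296) (b (l 16832776) (l 16856096))))) (b (a (l 3) (b (a (a (l 16841248) (l 16840032)) (a (l 16838960) (l 16837952))) (a (a (l 16844840) (l 16843496)) (a (l 16842328) (l 16841288))))) (b (a (l 3) (a (a (l 3) (l 16847048)) (a (l 16845736) (l 16844656)))) (a (l 3) (a (l 3) (l 311016198903)))))))) (a (l 3) (a (l 3) (b (a (l 3) (a (l 3) (b (c (l 304036925879) (l 304036900567)) (l 3)))) (l 3))))) (a (b (a (b (a (b (l 16826288) (l 16831088)) (b (l 16821808) (l 16826848))) (a (a (b (l 16838176) (a (l 16866184) (l 16843976))) (l 16839592)) (b (l 16832968) (l 16839008)))) (b (l 16817360) (a (l 16831056)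 (l 16825560)))) (a (b (a (a (a (b (l 16851104) (l 302963161303)) (b (l 16849712) (l 194515233415))) (b (l 16847432) (a (l 16850256) (l 16848608)))) (b (l 16843344) (l 16885848))) (a (b (a (l 294373223543) (l 254644766583)) (a (l 3) (l 319069265639))) (b (a (a (l 16844016) (l 16841952)) (l 16838520)) (a (l 294910059703) (a (l 16831456) (l 16829032)))))) (b (a (l 16837392) (l 16829952)) (a (b (l 16831976) (l 16843816)) (l 16839904))))) (b (a (b (l 16809264) (l 16817408)) (b (l 16800616) (l 16806064))) (b (a (l 16818152) (l 16802784)) (a (a (l 16809680) (l 16800840)) (l 16787792)))))), by decide +kernel⟩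

def k3_pp_123 : ∃ t, chk3 f_pp_123 t 5 6 1 = true :=
  ⟨(a (a (a (b (l 16920248) (b (l 16788528) (l 16772456))) (b (b (l 16910688) (l 17035608)) (a (b (l 16778600) (l 16762144)) (b (l 16773272) (a (l 16757344) (l 16754688)))))) (b (b (l 16771360) (l 16767536)) (b (l 16758592) (l 16741000)))) (b (b (l 16753176) (l 16745576)) (b (l 16796416) (l 16922640)))), by decide +kernel⟩

def k4_pp_123 : ∃ t, chk3 f_pp_123 t 3 6 1 = true :=
  ⟨(a (b (a (b (l 16741256) (l 16732112)) (b (l 16738816) (l 16728208))) (b (a (l 16716144) (l 16712400)) (a (l 16734128) (l 1)))) (a (b (l 425772600311) (l 1)) (l 1))), by decide +kernel⟩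

def k5_pp_123 : ∃ t, chk3 f_pp_123 t 1 7 1 = true :=
  ⟨(a (a (b (a (l 3) (a (b (a (a (l 3) (b (a (l 299204992087) (l 299204979895)) (b (l 298131223639) (l 296520585191)))) (a (b (c (l 16821616) (a (l 16800928) (l 16796376))) (a (b (l 16799872) (l 16788144)) (l 16788952))) (b (l 16800520) (l 16781744)))) (b (a (l 3) (a (a (l 16766728) (l 16761096)) (l 16752720))) (a (l 3) (a (l 269140017447) (l 16713816))))) (b (a (b (l 16786352) (l 16766744)) (b (l 16768048) (l 16747312))) (a (b (l 16736752) (a (l 16702344) (l 16691384))) (b (l 16716112) (l 16675168)))))) (a (l 3) (b (a (a (l 3) (a (b (l 323900782567) (l 3)) (b (a (l 16665200) (l 16658880)) (l 264307896791)))) (a (a (b (l 16649424) (l 52646549463)) (l 35466655095)) (a (l 53183372471) (l 16567992)))) (a (a (l 3) (l 1)) (l 1))))) (b (a (a (a (b (l 16741360) (l 16698456)) (a (b (l 16729720) (l 16664424)) (b (a (l 16724664) (a (l 16722552) (l 16721344))) (a (l 16658896) (a (l 16657160) (l 16656784)))))) (b (l 16707184) (l 141230835431))) (b (a (l 16682832)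 (l 16667456)) (l 1))) (b (a (a (a (l 66068260007) (l 1)) (l 1)) (l 1)) (l 1)))) (l 1)), by decide +kernel⟩

theorem s6_pp_123 : ∃ t, chk3 f_pp_123 t 2 6 1 = true := ex3_a k2_pp_123 k3_pp_123

theorem s7_pp_123 : ∃ t, chk3 f_pp_123 t 1 6 1 = true := ex3_a s6_pp_123 k4_pp_123

theorem s8_pp_123 : ∃ t, chk3 f_pp_123 t 1 3 1 = true := ex3_b s7_pp_123 k5_pp_123

theorem s9_pp_123 : ∃ t, chk3 f_pp_123 t 1 2 1 = true := ex3_b k0_pp_123 k1_pp_123

theorem s10_pp_123 : ∃ t, chk3 f_pp_123 t 1 1 1 = true := ex3_b s9_pp_123 s8_pp_123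

theorem c_pp_123 : CertB 536870912 536870912 0 1230186008 536870912 50465866 3 eng mog cd0q1 cd4q3 pd2 false true true .npn 1 2 3
    ndB0q1 ndB4q3 pcB2 cut_pp_123 Ext.none :=
  certB2 (fam := false) (s1 := true) (s2 := true) (a := 1) (b := 2) (c := 3) (cn := .npn) (n1 := ndB0q1) (n2 := ndB4q3) (pc := pcB2) (cut := cut_pp_123) (xt := Ext.none) (P1 := 536870912) (W1 := 536870912) (P2 := 0) (W2 := 1230186008) (P3 := 536870912) (W3 := 50465866) (N0 := 3) (En := eng) (mo := mog) (C1 := cd0q1) (C2 := cd4q3) (C3 := pd2)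
    rfl (fun _ => rfl) s10_pp_123

noncomputable def f_pp_133 : ℕ → ℕ → ℕ → ℕ → Bool := onCell 1610612736 536870912 0 1230186008 536870912 50465866
    (rowB 3 eng mog cd0q1 cd4q3 pd3 2 false true true .dn 1 3 3 (qsf 536870912 536870912 0 1230186008 3) ndB0q1 ndB4q3 pcB3 Cut.none Ext.none)

def k0_pp_133 : ∃ t, chk3 f_pp_133 t 1 1 1 = true :=
  ⟨(b (b (a (a (a (l 16848568) (l 1)) (l 1)) (l 1)) (l 1)) (l 1)), by decide +kernel⟩

theorem c_pp_133 : CertB 536870912 536870912 0 1230186008 536870912 50465866 3 eng mog cd0q1 cd4q3 pd3 false true true .dn 1 3 3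
    ndB0q1 ndB4q3 pcB3 Cut.none Ext.none :=
  certB2 (fam := false) (s1 := true) (s2 := true) (a := 1) (b := 3) (c := 3) (cn := .dn) (n1 := ndB0q1) (n2 := ndB4q3) (pc := pcB3) (cut := Cut.none) (xt := Ext.none) (P1 := 536870912) (W1 := 536870912) (P2 := 0) (W2 := 1230186008) (P3 := 536870912) (W3 := 50465866) (N0 := 3) (En := eng) (mo := mog) (C1 := cd0q1) (C2 := cd4q3) (C3 := pd3)
    rfl (fun _ => rfl) k0_pp_133

noncomputable def f_pp_202 : ℕ → ℕ → ℕ → ℕ → Bool := onCell 0 536870912 1073741824 536870912 536870912 50465866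
    (rowB 3 eng mog cd0q2 cd4q2 pd0 0 false true true .pp 2 0 2 (qsf 0 536870912 1073741824 536870912 0) ndB0q2 ndB4q2 pcB0 Cut.none Ext.none)

def k0_pp_202 : ∃ t, chk3 f_pp_202 t 1 1 1 = true :=
  ⟨(l 3), by decide +kernel⟩

theorem c_pp_202 : CertB 0 536870912 1073741824 536870912 536870912 50465866 3 eng mog cd0q2 cd4q2 pd0 false true true .pp 2 0 2
    ndB0q2 ndB4q2 pcB0 Cut.none Ext.none :=
  certB0 (fam := false) (s1 := true) (s2 := true) (a := 2) (b := 0) (c := 2) (cn := .pp) (n1 := ndB0q2) (n2 := ndB4q2) (pc := pcB0) (cut := Cut.none) (xt := Ext.none) (P1 := 0) (W1 := 536870912) (P2 := 1073741824) (W2 := 536870912) (P3 := 536870912) (W3 := 50465866) (N0 := 3) (En := eng) (mo := mog) (C1 := cd0q2) (C2 := cd4q2) (C3 := pd0)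
    rfl k0_pp_202

noncomputable def f_pp_203 : ℕ → ℕ → ℕ → ℕ → Bool := onCell 0 536870912 0 1230186008 536870912 50465866
    (rowB 3 eng mog cd0q2 cd4q3 pd0 0 false true true .up 2 0 3 (qsf 0 536870912 0 1230186008 0) ndB0q2 ndB4q3 pcB0 Cut.none Ext.none)

def k0_pp_203 : ∃ t, chk3 f_pp_203 t 1 1 1 = true :=
  ⟨(b (l 2) (l 3)), by decide +kernel⟩

theorem c_pp_203 : CertB 0 536870912 0 1230186008 536870912 50465866 3 eng mog cd0q2 cd4q3 pd0 false true true .up 2 0 3
    ndB0q2 ndB4q3 pcB0 Cut.none Ext.none :=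
  certB0 (fam := false) (s1 := true) (s2 := true) (a := 2) (b := 0) (c := 3) (cn := .up) (n1 := ndB0q2) (n2 := ndB4q3) (pc := pcB0) (cut := Cut.none) (xt := Ext.none) (P1 := 0) (W1 := 536870912) (P2 := 0) (W2 := 1230186008) (P3 := 536870912) (W3 := 50465866) (N0 := 3) (En := eng) (mo := mog) (C1 := cd0q2) (C2 := cd4q3) (C3 := pd0)
    rfl k0_pp_203

noncomputable def cut_pp_213 : Cut := Cut.of [[⟨0, 1, 0, 67108864⟩, ⟨1, 1, 0, 67108864⟩, ⟨2, 2, 0, 16777216⟩]]

noncomputable def f_pp_213 : ℕ → ℕ → ℕ → ℕ → Bool := onCell 0 536870912 0 1230186008 536870912 50465866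
    (rowB 3 eng mog cd0q2 cd4q3 pd1 0 false true true .pnn 2 1 3 (qsf 0 536870912 0 1230186008 1) ndB0q2 ndB4q3 pcB1 cut_pp_213 Ext.none)

def k0_pp_213 : ∃ t, chk3 f_pp_213 t 1 1 1 = true :=
  ⟨(b (a (l 3) (b (a (l 3) (a (l 3) (b (l 6) (l 3)))) (l 3))) (l 3)), by decide +kernel⟩

theorem c_pp_213 : CertB 0 536870912 0 1230186008 536870912 50465866 3 eng mog cd0q2 cd4q3 pd1 false true true .pnn 2 1 3
    ndB0q2 ndB4q3 pcB1 cut_pp_213 Ext.none :=
  certB0 (fam := false) (s1 := true) (s2 := true) (a := 2) (b := 1) (c := 3) (cn := .pnn) (n1 := ndB0q2) (n2 := ndB4q3) (pc := pcB1) (cut := cut_pp_213) (xt := Ext.none) (P1 := 0) (W1 := 536870912) (P2 := 0) (W2 := 1230186008) (P3 := 536870912) (W3 := 50465866) (N0 := 3) (En := eng) (mo := mog) (C1 := cd0q2) (C2 := cd4q3) (C3 := pd1)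
    rfl k0_pp_213

noncomputable def f_pm_001 : ℕ → ℕ → ℕ → ℕ → Bool := onCell 0 536870912 536870912 536870912 536870912 50465866
    (rowB 3 eng mog cd0q0 cd4q1 pd0 0 false true false .up 0 0 1 (qsf 0 536870912 536870912 536870912 0) ndB0q0 ndB4q1 pcB0 Cut.none Ext.none)

def k0_pm_001 : ∃ t, chk3 f_pm_001 t 1 1 1 = true :=
  ⟨(l 4), by decide +kernel⟩

theorem c_pm_001 : CertB 0 536870912 536870912 536870912 536870912 50465866 3 eng mog cd0q0 cd4q1 pd0 false true false .up 0 0 1
    ndB0q0 ndB4q1 pcB0 Cut.none Ext.none :=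
  certB0 (fam := false) (s1 := true) (s2 := false) (a := 0) (b := 0) (c := 1) (cn := .up) (n1 := ndB0q0) (n2 := ndB4q1) (pc := pcB0) (cut := Cut.none) (xt := Ext.none) (P1 := 0) (W1 := 536870912) (P2 := 536870912) (W2 := 536870912) (P3 := 536870912) (W3 := 50465866) (N0 := 3) (En := eng) (mo := mog) (C1 := cd0q0) (C2 := cd4q1) (C3 := pd0)
    rfl k0_pm_001

noncomputable def f_pm_011 : ℕ → ℕ → ℕ → ℕ → Bool := onCell 0 536870912 536870912 536870912 536870912 50465866
    (rowB 3 eng mog cd0q0 cd4q1 pd1 0 false true false .pnn 0 1 1 (qsf 0 536870912 536870912 536870912 1) ndB0q0 ndB4q1 pcB1 Cut.none Ext.none)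

def k0_pm_011 : ∃ t, chk3 f_pm_011 t 1 1 1 = true :=
  ⟨(l 4), by decide +kernel⟩

theorem c_pm_011 : CertB 0 536870912 536870912 536870912 536870912 50465866 3 eng mog cd0q0 cd4q1 pd1 false true false .pnn 0 1 1
    ndB0q0 ndB4q1 pcB1 Cut.none Ext.none :=
  certB0 (fam := false) (s1 := true) (s2 := false) (a := 0) (b := 1) (c := 1) (cn := .pnn) (n1 := ndB0q0) (n2 := ndB4q1) (pc := pcB1) (cut := Cut.none) (xt := Ext.none) (P1 := 0) (W1 := 536870912) (P2 := 536870912) (W2 := 536870912) (P3 := 536870912) (W3 := 50465866) (N0 := 3) (En := eng) (mo := mog) (C1 := cd0q0) (C2 := cd4q1) (C3 := pd1)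
    rfl k0_pm_011

noncomputable def f_pm_012 : ℕ → ℕ → ℕ → ℕ → Bool := onCell 0 536870912 1073741824 536870912 536870912 50465866
    (rowB 3 eng mog cd0q0 cd4q2 pd1 0 false true false .pnp 0 1 2 (qsf 0 536870912 1073741824 536870912 1) ndB0q0 ndB4q2 pcB1 Cut.none Ext.none)

def k0_pm_012 : ∃ t, chk3 f_pm_012 t 1 1 1 = true :=
  ⟨(a (l 4) (b (l 4) (l 4))), by decide +kernel⟩

theorem c_pm_012 : CertB 0 536870912 1073741824 536870912 536870912 50465866 3 eng mog cd0q0 cd4q2 pd1 false true false .pnp 0 1 2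
    ndB0q0 ndB4q2 pcB1 Cut.none Ext.none :=
  certB0 (fam := false) (s1 := true) (s2 := false) (a := 0) (b := 1) (c := 2) (cn := .pnp) (n1 := ndB0q0) (n2 := ndB4q2) (pc := pcB1) (cut := Cut.none) (xt := Ext.none) (P1 := 0) (W1 := 536870912) (P2 := 1073741824) (W2 := 536870912) (P3 := 536870912) (W3 := 50465866) (N0 := 3) (En := eng) (mo := mog) (C1 := cd0q0) (C2 := cd4q2) (C3 := pd1)
    rfl k0_pm_012

noncomputable def f_pm_022 : ℕ → ℕ → ℕ → ℕ → Bool := onCell 1073741824 536870912 1073741824 536870912 536870912 50465866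
    (rowB 3 eng mog cd0q0 cd4q2 pd2 2 false true false .pp 0 2 2 (qsf 0 536870912 1073741824 536870912 2) ndB0q0 ndB4q2 pcB2 Cut.none Ext.none)

def k0_pm_022 : ∃ t, chk3 f_pm_022 t 1 1 1 = true :=
  ⟨(a (l 4) (l 4)), by decide +kernel⟩

theorem c_pm_022 : CertB 0 536870912 1073741824 536870912 536870912 50465866 3 eng mog cd0q0 cd4q2 pd2 false true false .pp 0 2 2
    ndB0q0 ndB4q2 pcB2 Cut.none Ext.none :=
  certB2 (fam := false) (s1 := true) (s2 := false) (a := 0) (b := 2) (c := 2) (cn := .pp) (n1 := ndB0q0) (n2 := ndB4q2) (pc := pcB2) (cut := Cut.none) (xt := Ext.none) (P1 := 0) (W1 := 536870912) (P2 := 1073741824) (W2 := 536870912) (P3 := 536870912) (W3 := 50465866) (N0 := 3) (En := eng) (mo := mog) (C1 := cd0q0) (C2 := cd4q2) (C3 := pd2)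
    rfl (fun _ => rfl) k0_pm_022

noncomputable def f_pm_023 : ℕ → ℕ → ℕ → ℕ → Bool := onCell 0 536870912 0 1230186008 536870912 50465866
    (rowB 3 eng mog cd0q0 cd4q3 pd2 0 false true false .up 0 2 3 (qsf 0 536870912 0 1230186008 2) ndB0q0 ndB4q3 pcB2 Cut.none Ext.none)

def k0_pm_023 : ∃ t, chk3 f_pm_023 t 1 1 1 = true :=
  ⟨(a (b (l 2) (l 4)) (a (b (l 2) (b (l 4) (l 4))) (b (b (a (l 2) (b (l 16739712) (l 16736440))) (a (b (l 16724088) (a (l 4) (l 16712800))) (b (l 16731416) (l 16721248)))) (b (b (a (b (l 4) (l 4)) (b (l 16706888) (l 16690000))) (a (l 4) (b (l 16663760) (a (l 4) (l 16635024))))) (b (a (l 4) (a (l 4) (b (l 16585528) (b (l 16540832) (l 4))))) (l 4)))))), by decide +kernel⟩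

theorem c_pm_023 : CertB 0 536870912 0 1230186008 536870912 50465866 3 eng mog cd0q0 cd4q3 pd2 false true false .up 0 2 3
    ndB0q0 ndB4q3 pcB2 Cut.none Ext.none :=
  certB0 (fam := false) (s1 := true) (s2 := false) (a := 0) (b := 2) (c := 3) (cn := .up) (n1 := ndB0q0) (n2 := ndB4q3) (pc := pcB2) (cut := Cut.none) (xt := Ext.none) (P1 := 0) (W1 := 536870912) (P2 := 0) (W2 := 1230186008) (P3 := 536870912) (W3 := 50465866) (N0 := 3) (En := eng) (mo := mog) (C1 := cd0q0) (C2 := cd4q3) (C3 := pd2)
    rfl k0_pm_023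

noncomputable def f_pm_033 : ℕ → ℕ → ℕ → ℕ → Bool := onCell 1610612736 536870912 0 1230186008 536870912 50465866
    (rowB 3 eng mog cd0q0 cd4q3 pd3 2 false true false .pnn 0 3 3 (qsf 0 536870912 0 1230186008 3) ndB0q0 ndB4q3 pcB3 Cut.none Ext.none)

def k0_pm_033 : ∃ t, chk3 f_pm_033 t 1 1 1 = true :=
  ⟨(b (b (a (a (a (l 16740312) (l 16733856)) (a (l 16731800) (l 4))) (l 4)) (a (a (a (l 16724704) (b (l 16722416) (l 4))) (l 4)) (l 4))) (b (l 4) (l 4))), by decide +kernel⟩

theorem c_pm_033 : CertB 0 536870912 0 1230186008 536870912 50465866 3 eng mog cd0q0 cd4q3 pd3 false true false .pnn 0 3 3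
    ndB0q0 ndB4q3 pcB3 Cut.none Ext.none :=
  certB2 (fam := false) (s1 := true) (s2 := false) (a := 0) (b := 3) (c := 3) (cn := .pnn) (n1 := ndB0q0) (n2 := ndB4q3) (pc := pcB3) (cut := Cut.none) (xt := Ext.none) (P1 := 0) (W1 := 536870912) (P2 := 0) (W2 := 1230186008) (P3 := 536870912) (W3 := 50465866) (N0 := 3) (En := eng) (mo := mog) (C1 := cd0q0) (C2 := cd4q3) (C3 := pd3)
    rfl (fun _ => rfl) k0_pm_033

noncomputable def f_pm_101 : ℕ → ℕ → ℕ → ℕ → Bool := onCell 536870912 536870912 536870912 536870912 536870912 50465866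
    (rowB 3 eng mog cd0q1 cd4q1 pd0 0 false true false .npn 1 0 1 (qsf 536870912 536870912 536870912 536870912 0) ndB0q1 ndB4q1 pcB0 Cut.none Ext.none)

def k0_pm_101 : ∃ t, chk3 f_pm_101 t 1 1 1 = true :=
  ⟨(l 4), by decide +kernel⟩

theorem c_pm_101 : CertB 536870912 536870912 536870912 536870912 536870912 50465866 3 eng mog cd0q1 cd4q1 pd0 false true false .npn 1 0 1
    ndB0q1 ndB4q1 pcB0 Cut.none Ext.none :=
  certB0 (fam := false) (s1 := true) (s2 := false) (a := 1) (b := 0) (c := 1) (cn := .npn) (n1 := ndB0q1) (n2 := ndB4q1) (pc := pcB0) (cut := Cut.none) (xt := Ext.none) (P1 := 536870912) (W1 := 536870912) (P2 := 536870912) (W2 := 536870912) (P3 := 536870912) (W3 := 50465866) (N0 := 3) (En := eng) (mo := mog) (C1 := cd0q1) (C2 := cd4q1) (C3 := pd0)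
    rfl k0_pm_101

noncomputable def f_pm_102 : ℕ → ℕ → ℕ → ℕ → Bool := onCell 536870912 536870912 1073741824 536870912 536870912 50465866
    (rowB 3 eng mog cd0q1 cd4q2 pd0 0 false true false .npp 1 0 2 (qsf 536870912 536870912 1073741824 536870912 0) ndB0q1 ndB4q2 pcB0 Cut.none Ext.none)

def k0_pm_102 : ∃ t, chk3 f_pm_102 t 2 1 1 = true :=
  ⟨(b (a (b (a (a (l 4) (b (b (a (l 16058056) (l 16043344)) (a (l 16026928) (l 16016920))) (b (a (l 2) (l 16008448)) (l 2)))) (b (a (b (a (l 16079432) (l 16136984)) (a (l 16050216) (l 16111800))) (b (l 16214488) (l 16193768))) (a (b (l 16056800) (l 16039128)) (b (l 16175624) (l 16160248))))) (b (a (l 2) (a (l 2) (b (l 16153232) (l 2)))) (l 2))) (b (a (b (a (a (l 16275032) (l 16319680)) (b (l 16398032) (l 16370856))) (a (b (l 16275040) (l 16264080)) (b (l 16355752) (l 16348280)))) (b (a (b (l 16688296) (l 16444280)) (b (l 16536216) (l 16515528))) (a (b (l 16425080) (l 16418176)) (l 16486280)))) (b (a (a (b (l 16256928) (l 16327416)) (b (l 16343424) (l 16349256))) (b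 (a (l 16417720) (l 16480536)) (a (l 16425896) (l 16490152)))) (a (a (l 2) (b (l 16374512) (l 2))) (b (a (l 16448728) (l 16514720)) (a (l 16479968) (l 16544488))))))) (a (l 2) (b (a (l 2) (b (a (l 2) (b (l 16579576) (l 2))) (l 2))) (l 2)))), by decide +kernel⟩

def k1_pm_102 : ∃ t, chk3 f_pm_102 t 3 1 1 = true :=
  ⟨(b (a (b (b (a (a (b (l 16578520) (l 16568616)) (b (l 16615416) (l 16604904))) (a (b (l 16643816) (l 16631584)) (b (b (l 16668088) (l 16658824)) (l 16650408)))) (a (a (b (l 16554968) (l 16541648)) (b (l 16600000) (l 16592984))) (a (b (l 16627800) (l 16628576)) (l 16648952)))) (b (a (a (b (l 16537104) (l 16545656)) (l 16589528)) (b (a (l 16628704) (l 16659872)) (a (l 16635520) (l 16673376)))) (a (a (b (l 16569304) (l 16599728)) (b (l 16616256) (l 16645824))) (b (l 16678136) (a (l 16688432) (l 16734808)))))) (b (b (a (b (a (b (l 16682416) (l 16672488)) (l 16690400)) (a (l 16665008) (l 16680736))) (a (b (b (l 16707552) (l 16699408)) (l 16701136)) (b (b (l 16780256) (l 16732480)) (a (l 16730352)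 (l 16735440))))) (a (a (l 16669072) (b (l 16687232) (l 16704544))) (a (b (l 16721024) (a (l 16737624) (l 16764680))) (b (a (l 16751512) (l 16744704)) (l 16764256))))) (b (a (b (a (l 16689072) (l 16727144)) (a (l 16711560) (l 16762680))) (a (b (l 16784112) (l 16806560)) (b (l 16779536) (l 16789288)))) (a (a (l 16772216) (l 16972544)) (a (b (l 16816048) (l 16815928)) (l 16776672)))))) (a (b (a (b (b (a (l 16634272) (l 16680896)) (a (l 16673328) (l 16719192))) (b (l 237934591719) (l 2))) (b (b (l 16749616) (a (l 16765816) (l 16823368))) (a (l 16823408) (l 16888976)))) (b (a (l 2) (a (l 2) (l 16970016))) (l 2))) (b (a (b (a (b (l 16849832) (l 16884088)) (l 16865520)) (a (l 16934464) (l 16906592))) (b (a (l 16819200) (b (l 16747448) (l 16732664))) (a (a (l 16858520) (l 16824248)) (l 16757256)))) (a (b (a (l 17010664) (l 16976160)) (b (l 17061560) (l 2))) (b (l 16863264) (b (l 16917528) (l 16932752))))))), by decide +kernel⟩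

theorem s2_pm_102 : ∃ t, chk3 f_pm_102 t 1 1 1 = true := ex3_a k0_pm_102 k1_pm_102

theorem c_pm_102 : CertB 536870912 536870912 1073741824 536870912 536870912 50465866 3 eng mog cd0q1 cd4q2 pd0 false true false .npp 1 0 2
    ndB0q1 ndB4q2 pcB0 Cut.none Ext.none :=
  certB0 (fam := false) (s1 := true) (s2 := false) (a := 1) (b := 0) (c := 2) (cn := .npp) (n1 := ndB0q1) (n2 := ndB4q2) (pc := pcB0) (cut := Cut.none) (xt := Ext.none) (P1 := 536870912) (W1 := 536870912) (P2 := 1073741824) (W2 := 536870912) (P3 := 536870912) (W3 := 50465866) (N0 := 3) (En := eng) (mo := mog) (C1 := cd0q1) (C2 := cd4q2) (C3 := pd0)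
    rfl s2_pm_102

noncomputable def f_pm_112 : ℕ → ℕ → ℕ → ℕ → Bool := onCell 536870912 536870912 1073741824 536870912 536870912 50465866
    (rowB 3 eng mog cd0q1 cd4q2 pd1 2 false true false .dn 1 1 2 (qsf 536870912 536870912 1073741824 536870912 1) ndB0q1 ndB4q2 pcB1 Cut.none Ext.none)

def k0_pm_112 : ∃ t, chk3 f_pm_112 t 2 1 1 = true :=
  ⟨(b (a (b (a (b (a (b (l 4) (l 16129152)) (l 4)) (a (b (l 16005424) (l 16095912)) (b (a (l 16013440) (l 16015936)) (l 15998384)))) (b (l 4) (a (b (l 4) (l 16023992)) (l 4)))) (a (b (a (b (l 16198808) (l 16298240)) (b (l 16080208) (l 16199680))) (a (l 16460096) (b (l 16322408) (l 16440592)))) (b (b (a (l 15990536) (l 15990736)) (a (l 16076952) (l 16022720))) (a (b (l 16221672) (l 16355576)) (b (l 16124264) (l 16254152)))))) (b (l 4) (a (b (b (l 4) (a (l 16058264) (l 4))) (a (b (l 16104904) (l 16197976)) (b (l 16086040) (l 16169136)))) (b (l 4) (a (l 70027254119) (l 4)))))) (a (b (a (b (a (l 16650432) (l 16600464)) (a (l 16826880) (l 16776040))) (b (b (l 16440144)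 (l 16559368)) (b (l 16662088) (l 16741816)))) (b (a (a (l 17006248) (l 16964552)) (l 16858184)) (a (b (a (l 17003888) (l 17094768)) (l 17018592)) (b (l 16973432) (l 17074408))))) (b (a (b (a (b (l 16298640) (l 16441240)) (b (l 16257592) (l 16354576))) (a (l 16619328) (l 16548584))) (b (a (l 16325544) (l 16226112)) (b (l 16392040) (l 16489784)))) (b (a (a (l 16781904) (l 16740448)) (l 16661464)) (a (b (l 16855104) (a (l 16937544) (l 16889608))) (b (l 16781448) (l 16844264))))))), by decide +kernel⟩

def k1_pm_112 : ∃ t, chk3 f_pm_112 t 3 1 1 = true :=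
  ⟨(b (l 4) (b (a (a (b (b (l 4) (l 16201208)) (a (l 16331936) (l 16302704))) (b (l 4) (a (l 16227288) (l 4)))) (l 4)) (a (b (a (a (l 16552376) (b (l 16396656) (l 16526224))) (a (l 16375360) (b (l 16271744) (l 16348984)))) (b (a (l 16677160) (a (l 16563488) (l 16473648))) (a (l 16753904) (b (l 16611216) (l 16694496))))) (b (a (a (l 16240176) (l 4)) (l 4)) (a (a (b (l 16366896) (l 16447600)) (b (l 16289904) (b (l 16365808) (l 16485256)))) (b (b (l 4) (l 38351486791)) (b (a (l 16277984) (l 4)) (a (l 16373128) (l 16282536))))))))), by decide +kernel⟩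

theorem s2_pm_112 : ∃ t, chk3 f_pm_112 t 1 1 1 = true := ex3_a k0_pm_112 k1_pm_112

theorem c_pm_112 : CertB 536870912 536870912 1073741824 536870912 536870912 50465866 3 eng mog cd0q1 cd4q2 pd1 false true false .dn 1 1 2
    ndB0q1 ndB4q2 pcB1 Cut.none Ext.none :=
  certB2 (fam := false) (s1 := true) (s2 := false) (a := 1) (b := 1) (c := 2) (cn := .dn) (n1 := ndB0q1) (n2 := ndB4q2) (pc := pcB1) (cut := Cut.none) (xt := Ext.none) (P1 := 536870912) (W1 := 536870912) (P2 := 1073741824) (W2 := 536870912) (P3 := 536870912) (W3 := 50465866) (N0 := 3) (En := eng) (mo := mog) (C1 := cd0q1) (C2 := cd4q2) (C3 := pd1)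
    rfl (fun _ => rfl) s2_pm_112

noncomputable def cut_pm_113 : Cut := Cut.of [[⟨0, 1, 0, 67108864⟩, ⟨1, 1, 0, 67108864⟩, ⟨2, 2, 0, 16777216⟩]]

noncomputable def f_pm_113 : ℕ → ℕ → ℕ → ℕ → Bool := onCell 536870912 536870912 0 1230186008 536870912 50465866
    (rowB 3 eng mog cd0q1 cd4q3 pd1 0 false true false .nn 1 1 3 (qsf 536870912 536870912 0 1230186008 1) ndB0q1 ndB4q3 pcB1 cut_pm_113 Ext.none)

def k0_pm_113 : ∃ t, chk3 f_pm_113 t 1 1 1 = true :=
  ⟨(b (a (l 2) (a (l 2) (a (b (l 2) (b (l 262093652983) (l 16856000))) (b (a (l 2) (b (l 6) (a (l 568110239191) (b (l 6) (l 16799000))))) (b (a (l 16819400) (a (l 16820088) (b (l 16813440) (l 16831400)))) (a (l 16856112) (b (l 16850440) (l 16875112)))))))) (b (a (a (l 2) (a (l 2) (b (l 2) (b (l 2) (l 16873344))))) (a (b (a (l 2) (l 16883488)) (a (a (l 16890928) (l 16893560)) (l 16902896))) (a (b (a (l 16889872) (l 16896576)) (a (l 16924568) (l 17132088))) (b (a (l 16925888) (l 16920704)) (a (l 16962728) (l 16992560)))))) (a (b (a (l 2) (a (b (a (l 2) (l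 16817664)) (a (l 16762280) (l 16812272))) (b (l 16867472) (l 16868048)))) (b (a (a (l 2) (a (b (l 2) (l 209479715463)) (l 41439435303))) (a (a (l 16757256) (l 16809888)) (a (l 16853432) (l 16885024)))) (a (a (b (a (l 2) (b (l 219143437175) (l 167603387047))) (b (a (a (l 2) (l 151497104439)) (l 16314976)) (a (c (l 16280392) (l 27614010247)) (l 16297896)))) (b (a (b (l 200352925959) (l 16557272)) (a (l 16641200) (l 16677864))) (a (b (l 16512568) (l 16460800)) (l 16580568)))) (b (a (b (l 16773840) (l 16743584)) (l 16852456)) (a (a (l 16656680) (l 16722432)) (l 16801120)))))) (b (a (a (b (l 16894512) (l 16902200)) (b (l 16918568) (l 16934464))) (a (b (l 16967664) (l 16997400)) (b (l 17200440) (a (l 17059936) (a (l 17102592) (l 17112128)))))) (a (b (a (l 17016896) (l 16952752)) (a (b (l 16901640) (l 16861528)) (b (l 16929152) (b (l 16908088) (l 16912968))))) (b (a (a (l 17008168) (l 17063856)) (a (l 17214824) (l 17082472))) (a (b (b (l 17067160) (l 17069280)) (l 17072424)) (b (l 17091456) (l 17104896))))))))),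 by decide +kernel⟩

theorem c_pm_113 : CertB 536870912 536870912 0 1230186008 536870912 50465866 3 eng mog cd0q1 cd4q3 pd1 false true false .nn 1 1 3
    ndB0q1 ndB4q3 pcB1 cut_pm_113 Ext.none :=
  certB0 (fam := false) (s1 := true) (s2 := false) (a := 1) (b := 1) (c := 3) (cn := .nn) (n1 := ndB0q1) (n2 := ndB4q3) (pc := pcB1) (cut := cut_pm_113) (xt := Ext.none) (P1 := 536870912) (W1 := 536870912) (P2 := 0) (W2 := 1230186008) (P3 := 536870912) (W3 := 50465866) (N0 := 3) (En := eng) (mo := mog) (C1 := cd0q1) (C2 := cd4q3) (C3 := pd1)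
    rfl k0_pm_113

noncomputable def cut_pm_123 : Cut := Cut.of [[⟨0, 1, 0, 67108864⟩, ⟨1, 1, 0, 67108864⟩, ⟨2, 2, 0, 16777216⟩]]

noncomputable def f_pm_123 : ℕ → ℕ → ℕ → ℕ → Bool := onCell 1073741824 536870912 0 1230186008 536870912 50465866
    (rowB 3 eng mog cd0q1 cd4q3 pd2 2 false true false .npn 1 2 3 (qsf 536870912 536870912 0 1230186008 2) ndB0q1 ndB4q3 pcB2 cut_pm_123 Ext.none)

def k0_pm_123 : ∃ t, chk3 f_pm_123 t 1 2 1 = true :=
  ⟨(b (a (a (a (a (b (l 6) (b (l 6) (l 16793616))) (b (l 16773488) (l 16782752))) (a (a (l 16773120) (l 16769088)) (l 16825848))) (a (a (a (l 16841040) (b (l 16755400) (l 16754160))) (l 16961064)) (l 16752016))) (a (a (l 16752512) (l 16750192)) (a (l 16746176) (a (l 16743760) (l 16741592))))) (a (a (a (b (a (l 16814400) (l 16802064)) (b (l 16829072) (l 16841816))) (b (l 16781336) (a (l 16805936) (l 16790696)))) (a (b (a (l 16763480) (l 16757992)) (a (l 16777880) (l 16769424))) (b (l 16756920) (l 16761144)))) (a (a (b (l 16753080) (l 16813136)) (b (l 16746376) (l 16739744)))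 (a (b (l 16741680) (l 16728336)) (l 16727648))))), by decide +kernel⟩

def k1_pm_123 : ∃ t, chk3 f_pm_123 t 1 3 1 = true :=
  ⟨(b (a (a (b (a (b (l 16853112) (l 16861408)) (b (l 16811656) (l 16816616))) (b (a (a (l 16876592) (l 16849160)) (a (l 16823120) (l 16795024))) (a (a (l 16911704) (l 16834216)) (b (l 16789112) (l 16769560))))) (b (a (b (l 16780352) (a (l 16785096) (l 16765416))) (b (l 16757640) (l 16744640))) (a (b (l 16904240) (a (l 16732408) (l 16706808))) (b (l 16718656) (l 16673808))))) (a (b (a (b (l 16739000) (l 16721952)) (a (l 16717400) (l 16707096))) (a (b (l 16686464) (l 16630448)) (b (l 16658880) (l 1)))) (b (a (l 217466609991) (l 1)) (l 1)))) (a (b (a (a (a (a (b (l 16847200) (b (l 16798184) (l 16752216))) (b (l 16823576) (l 16748688))) (b (l 16788552) (a (l 16722120) (l 16696680)))) (a (b (l 16747208) (l 16661448)) (b (l 16705656) (a (l 16627232) (l 16604624))))) (a (b (a (l 16671600) (l 16639928)) (a (l 16567424) (l 16526104))) (b (a (l 16607352) (l 16579328)) (l 1)))) (a (b (b (a (a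 (a (l 16693744) (l 16663832)) (l 16619216)) (a (l 16561992) (l 16505000))) (a (a (a (l 16617584) (l 16583216)) (a (l 16550144) (l 16516352))) (a (l 16466000) (l 4)))) (a (b (a (b (a (c (l 16602664) (l 16450464)) (l 16489224)) (a (c (l 16500280) (l 16336576)) (l 16378728))) (b (a (l 16451968) (l 16414896)) (l 4))) (a (a (b (l 16289432) (l 4)) (l 4)) (l 4))) (l 4))) (b (l 4) (l 1)))) (l 1))), by decide +kernel⟩

theorem s2_pm_123 : ∃ t, chk3 f_pm_123 t 1 1 1 = true := ex3_b k0_pm_123 k1_pm_123

theorem c_pm_123 : CertB 536870912 536870912 0 1230186008 536870912 50465866 3 eng mog cd0q1 cd4q3 pd2 false true false .npn 1 2 3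
    ndB0q1 ndB4q3 pcB2 cut_pm_123 Ext.none :=
  certB2 (fam := false) (s1 := true) (s2 := false) (a := 1) (b := 2) (c := 3) (cn := .npn) (n1 := ndB0q1) (n2 := ndB4q3) (pc := pcB2) (cut := cut_pm_123) (xt := Ext.none) (P1 := 536870912) (W1 := 536870912) (P2 := 0) (W2 := 1230186008) (P3 := 536870912) (W3 := 50465866) (N0 := 3) (En := eng) (mo := mog) (C1 := cd0q1) (C2 := cd4q3) (C3 := pd2)
    rfl (fun _ => rfl) s2_pm_123

noncomputable def f_pm_133 : ℕ → ℕ → ℕ → ℕ → Bool := onCell 1610612736 536870912 0 1230186008 536870912 50465866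
    (rowB 3 eng mog cd0q1 cd4q3 pd3 2 false true false .dn 1 3 3 (qsf 536870912 536870912 0 1230186008 3) ndB0q1 ndB4q3 pcB3 Cut.none Ext.none)

def k0_pm_133 : ∃ t, chk3 f_pm_133 t 1 1 1 = true :=
  ⟨(b (b (a (a (a (l 16739712) (l 1)) (l 1)) (l 1)) (l 1)) (l 1)), by decide +kernel⟩

theorem c_pm_133 : CertB 536870912 536870912 0 1230186008 536870912 50465866 3 eng mog cd0q1 cd4q3 pd3 false true false .dn 1 3 3
    ndB0q1 ndB4q3 pcB3 Cut.none Ext.none :=
  certB2 (fam := false) (s1 := true) (s2 := false) (a := 1) (b := 3) (c := 3) (cn := .dn) (n1 := ndB0q1) (n2 := ndB4q3) (pc := pcB3) (cut := Cut.none) (xt := Ext.none) (P1 := 536870912) (W1 := 536870912) (P2 := 0) (W2 := 1230186008) (P3 := 536870912) (W3 := 50465866) (N0 := 3) (En := eng) (mo := mog) (C1 := cd0q1) (C2 := cd4q3) (C3 := pd3)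
    rfl (fun _ => rfl) k0_pm_133

end Pool.Agent.Strip051.G.I5000_5470.Tab.C.BB04

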